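import Mathlib

/-!
A combinatorial lemma bounding the deficiency.
-/

set_option autoImplicit false
set_option linter.unusedSectionVars false

namespace Pool.Agent.Lib_helper42.RS

open Finset

universe u

variable {Q : Type u} [AddCommGroup Q] [Fintype Q] [DecidableEq Q]

/-- data for Lemma D -/
structure DData (Q : Type u) [AddCommGroup Q] [Fintype Q] [DecidableEq Q] where
  J : Finset Q
  Jr : Finset Q
  Z : Finset Q
  γ0 : Q
  e : Q → ℤ
  i : Q → ℤ
  v : Q → ℤ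
  κ : Q → ℤ
  cell : Q → Q → ℤ
  h : ℤ
  F : ℤ
  hγ0 : γ0 ∈ Z
  hsum : ∀ α, e α + i α + v α = h
  he : ∀ α, 0 ≤ e α
  hi : ∀ α, 0 ≤ i α
  hv : ∀ α, 0 ≤ v α
  hκ : ∀ α, 0 ≤ κ α
  hcell : ∀ α γ, 0 ≤ cell α γ
  hmax : ∀ γ ∈ Z, κ γ ≤ κ γ0
  hc1 : ∀ α γ, i α * (v (-(α + γ)) - κ γ) ≤ cell α γ
  hc2 : ∀ α γ, v (-(α + γ)) * (i α - κ γ) ≤ cell α γ
  hF1 : ∀ β ∈ J, ∀ γ ∈ Z, e β + κ γ ≤ F
  hF2 : ∀ α ∈ J, ∀ β ∈ J, α ≠ β → ∀ γ ∈ Z, e α + e β + κ γ ≤ F
  hF3 : ∀ β ∈ J, ∀ γ ∈ Z, γ ≠ γ0 → e β + κ γ + κ γ0 ≤ F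
  hJr : Jr ⊆ J
  hedge : ∀ α ∈ Jr, ∃ γ ∈ Z, -(α + γ) ∈ J
  hclosed : ∀ α ∈ Jr, ∀ γ ∈ Z, -(α + γ) ∈ J → -(α + γ) ∈ Jr
  hnot : ∀ α ∈ Jr, (∀ γ ∈ Z, -(α + γ) ∈ J → γ = γ0) →
    -(α + γ0) ∈ J → ∃ γ ∈ Z, γ ≠ γ0 ∧ -(-(α + γ0) + γ) ∈ J

namespace DData

variable (d : DData Q)

/-- the smaller of the two -/
def s (α : Q) : ℤ := min (d.i α) (d.v α)

/-- the set of cells -/
def P : Finset (Q × Q) := (d.Jr ×ˢ d.Z).filter (fun p => -(p.1 + p.2) ∈ d.J)

/-- the total deficiency over the cells -/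
def R : ℤ := ∑ p ∈ d.P, d.cell p.1 p.2

/-- total of the minima -/
def M : ℤ := ∑ α ∈ d.Jr, d.s α

lemma mem_P {α γ : Q} : (α, γ) ∈ d.P ↔ α ∈ d.Jr ∧ γ ∈ d.Z ∧ -(α + γ) ∈ d.J := by
  unfold P; simp [and_assoc]

lemma cell_le_R {α γ : Q} (h : (α, γ) ∈ d.P) : d.cell α γ ≤ d.R := by
  unfold R
  exact Finset.single_le_sum (f := fun p : Q × Q => d.cell p.1 p.2)
    (fun p _ => d.hcell p.1 p.2) h

lemma R_nonneg : 0 ≤ d.R := Finset.sum_nonneg fun p _ => d.hcell p.1 p.2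

lemma s_nonneg (α : Q) : 0 ≤ d.s α := le_min (d.hi α) (d.hv α)

lemma M_nonneg : 0 ≤ d.M := Finset.sum_nonneg fun α _ => d.s_nonneg α

lemma refl_eq (α γ : Q) : -(-(α + γ) + γ) = α := by abel

lemma mem_P_refl {α γ : Q} (h : (α, γ) ∈ d.P) : (-(α + γ), γ) ∈ d.P := by
  rw [mem_P] at h ⊢
  obtain ⟨h1, h2, h3⟩ := h
  refine ⟨d.hclosed α h1 γ h2 h3, h2, ?_⟩
  rw [refl_eq]; exact d.hJr h1

variable (hρ : 0 < d.h - d.F)

include hρ

/-- case (a1) -/
lemma case_a1 {α γ : Q} (h : (α, γ) ∈ d.P) (hheavy : d.h - d.F < 2 * d.s α)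
    (hγ : γ ≠ d.γ0) : (d.h - d.F)^2 ≤ 4 * d.R := by
  have h' := d.mem_P_refl h
  have hc := d.cell_le_R h
  have hc' := d.cell_le_R h'
  rw [mem_P] at h
  obtain ⟨h1, h2, h3⟩ := h
  set β := -(α + γ) with hβ
  have e1 := d.hc1 α γ
  have e2 := d.hc2 β γ
  have hrefl : -(β + γ) = α := refl_eq α γ
  rw [hrefl] at e2
  rw [← hβ] at e1
  have hs1 : d.s α ≤ d.i α := min_le_left _ _
  have hs2 : d.s α ≤ d.v α := min_le_right _ _
  have hF := d.hF3 β h3 γ h2 hγ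
  have hm := d.hmax γ h2
  have hsum := d.hsum β
  set ρ := d.h - d.F with hρd
  rcases le_total (ρ + 2 * d.κ γ) (2 * d.v β) with hv | hv
  · have a1 : ρ ≤ 2 * d.i α := by linarith
    have a2 : ρ ≤ 2 * (d.v β - d.κ γ) := by linarith
    have : ρ * ρ ≤ (2 * d.i α) * (2 * (d.v β - d.κ γ)) :=
      mul_le_mul a1 a2 hρ.le (by linarith)
    nlinarith
  · have a1 : ρ ≤ 2 * d.v α := by linarith
    have a2 : ρ ≤ 2 * (d.i β - d.κ γ) := by linarith
    have : ρ * ρ ≤ (2 * d.v α) * (2 * (d.i β - d.κ γ)) :=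
      mul_le_mul a1 a2 hρ.le (by linarith)
    nlinarith

/-- heavy case -/
lemma case_heavy {α : Q} (hα : α ∈ d.Jr) (hheavy : d.h - d.F < 2 * d.s α) :
    (d.h - d.F)^2 ≤ 4 * d.R := by
  by_cases hall : ∀ γ ∈ d.Z, -(α + γ) ∈ d.J → γ = d.γ0
  · obtain ⟨γ, hγ, hJ⟩ := d.hedge α hα
    have hγ0 := hall γ hγ hJ
    subst hγ0
    set β := -(α + d.γ0) with hβ
    have hP : (α, d.γ0) ∈ d.P := d.mem_P.mpr ⟨hα, hγ, hJ⟩
    have hP' := d.mem_P_refl hP
    rw [← hβ] at hP'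
    obtain ⟨γ', hγ', hne, hJ'⟩ := d.hnot α hα hall hJ
    rw [← hβ] at hJ'
    have hβr : β ∈ d.Jr := (d.mem_P.mp hP').1
    by_cases hb : d.h - d.F < 2 * d.s β
    · exact d.case_a1 hρ (d.mem_P.mpr ⟨hβr, hγ', hJ'⟩) hb hne
    · push Not at hb
      have hc := d.cell_le_R hP
      have hc' := d.cell_le_R hP'
      have e1 := d.hc1 α d.γ0
      have e2 := d.hc2 β d.γ0
      have hrefl : -(β + d.γ0) = α := refl_eq α d.γ0
      rw [hrefl] at e2
      rw [← hβ] at e1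
      have hs1 : d.s α ≤ d.i α := min_le_left _ _
      have hs2 : d.s α ≤ d.v α := min_le_right _ _
      have hF := d.hF1 β hJ d.γ0 hγ
      have hsum := d.hsum β
      set ρ := d.h - d.F with hρd
      rcases le_total (d.i β) (d.v β) with hle | hle
      · have hsb : d.s β = d.i β := min_eq_left hle
        have a1 : ρ ≤ 2 * d.i α := by linarith
        have a2 : ρ ≤ 2 * (d.v β - d.κ d.γ0) := by linarith
        have : ρ * ρ ≤ (2 * d.i α) * (2 * (d.v β - d.κ d.γ0)) :=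
          mul_le_mul a1 a2 hρ.le (by linarith)
        nlinarith
      · have hsb : d.s β = d.v β := min_eq_right hle
        have a1 : ρ ≤ 2 * d.v α := by linarith
        have a2 : ρ ≤ 2 * (d.i β - d.κ d.γ0) := by linarith
        have : ρ * ρ ≤ (2 * d.v α) * (2 * (d.i β - d.κ d.γ0)) :=
          mul_le_mul a1 a2 hρ.le (by linarith)
        nlinarith
  · push Not at hall
    obtain ⟨γ, hγ, hJ, hne⟩ := hall
    exact d.case_a1 hρ (d.mem_P.mpr ⟨hα, hγ, hJ⟩) hheavy hne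

/-- mixed type edge -/
lemma case_mixed {α γ : Q} (h : (α, γ) ∈ d.P) (hl1 : 2 * d.s α ≤ d.h - d.F)
    (hl2 : 2 * d.s (-(α + γ)) ≤ d.h - d.F)
    (ht1 : d.i α ≤ d.v α) (ht2 : d.v (-(α + γ)) < d.i (-(α + γ))) :
    (d.h - d.F)^2 ≤ 4 * d.R := by
  have h' := d.mem_P_refl h
  have hc' := d.cell_le_R h'
  rw [mem_P] at h
  obtain ⟨h1, h2, h3⟩ := h
  set β := -(α + γ) with hβ
  have e1 := d.hc1 β γ
  have hrefl : -(β + γ) = α := refl_eq α γ
  rw [hrefl] at e1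
  have hne : α ≠ β := by
    intro h; rw [← h] at ht2; linarith
  have hF := d.hF2 α (d.hJr h1) β h3 hne γ h2
  have hsa : d.s α = d.i α := min_eq_left ht1
  have hsb : d.s β = d.v β := min_eq_right ht2.le
  have s1 := d.hsum α
  have s2 := d.hsum β
  have p1 := d.he α
  have p2 := d.he β
  have p3 := d.hκ γ
  set ρ := d.h - d.F with hρd
  have a1 : ρ ≤ 2 * d.i β := by linarith
  have a2 : ρ ≤ 2 * (d.v α - d.κ γ) := by linarith
  have : ρ * ρ ≤ (2 * d.i β) * (2 * (d.v α - d.κ γ)) :=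
    mul_le_mul a1 a2 hρ.le (by linarith)
  nlinarith

/-- no mixed edges, no heavy elements -/
lemma case_same (hl : ∀ α ∈ d.Jr, 2 * d.s α ≤ d.h - d.F)
    (hsame : ∀ α γ, (α, γ) ∈ d.P → (d.i α ≤ d.v α ↔ d.i (-(α + γ)) ≤ d.v (-(α + γ)))) :
    ∃ b : Q → Q, (∀ α ∈ d.Jr, b α ∈ d.Jr) ∧
      ∑ α ∈ d.Jr, d.s α * ((d.h - d.F) - d.s (b α)) ≤ d.R := by
  classical
  have hch : ∀ α : Q, ∃ γ, α ∈ d.Jr → (α, γ) ∈ d.P := by
    intro α
    by_cases hα : α ∈ d.Jr
    · obtain ⟨γ, hγ, hJ⟩ := d.hedge α hα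
      exact ⟨γ, fun _ => d.mem_P.mpr ⟨hα, hγ, hJ⟩⟩
    · exact ⟨0, fun h => absurd h hα⟩
  choose g hg using hch
  set b : Q → Q := fun α => -(α + g α) with hb
  set ι : Q → Q × Q := fun α => if d.i α ≤ d.v α then (α, g α) else (b α, g α) with hι
  refine ⟨b, fun α hα => (d.mem_P.mp (d.mem_P_refl (hg α hα))).1, ?_⟩
  have hmem : ∀ α ∈ d.Jr, ι α ∈ d.P := by
    intro α hα
    by_cases ht : d.i α ≤ d.v α
    · have : ι α = (α, g α) := if_pos ht
      rw [this]; exact hg α hα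
    · have : ι α = (b α, g α) := if_neg ht
      rw [this]; exact d.mem_P_refl (hg α hα)
  have hinj : Set.InjOn ι d.Jr := by
    intro α hα α' hα' heq
    have hα1 : α ∈ d.Jr := hα
    have hα1' : α' ∈ d.Jr := hα'
    by_cases ht : d.i α ≤ d.v α <;> by_cases ht' : d.i α' ≤ d.v α'
    · have e1 : ι α = (α, g α) := if_pos ht
      have e2 : ι α' = (α', g α') := if_pos ht'
      rw [e1, e2] at heq
      exact congrArg Prod.fst heq
    · exfalso
      have e1 : ι α = (α, g α) := if_pos ht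
      have e2 : ι α' = (b α', g α') := if_neg ht'
      rw [e1, e2] at heq
      have h1 : α = b α' := congrArg Prod.fst heq
      have h2 := hsame α' (g α') (hg α' hα1')
      apply ht'
      rw [h2]
      have : -(α' + g α') = α := h1.symm
      rw [this]; exact ht
    · exfalso
      have e1 : ι α = (b α, g α) := if_neg ht
      have e2 : ι α' = (α', g α') := if_pos ht'
      rw [e1, e2] at heq
      have h1 : b α = α' := congrArg Prod.fst heq
      have h2 := hsame α (g α) (hg α hα1)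
      apply ht
      rw [h2]
      have : -(α + g α) = α' := h1
      rw [this]; exact ht'
    · have e1 : ι α = (b α, g α) := if_neg ht
      have e2 : ι α' = (b α', g α') := if_neg ht'
      rw [e1, e2] at heq
      have h1 : b α = b α' := congrArg Prod.fst heq
      have h2 : g α = g α' := congrArg Prod.snd heq
      have h3 : -(α + g α) = -(α' + g α') := h1
      rw [h2] at h3
      simpa using h3
  have hbound : ∀ α ∈ d.Jr, d.s α * ((d.h - d.F) - d.s (b α)) ≤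
      d.cell (ι α).1 (ι α).2 := by
    intro α hα
    have hP := hg α hα
    obtain ⟨h1, h2, h3⟩ := d.mem_P.mp hP
    have hF := d.hF1 (b α) h3 (g α) h2
    have hsum := d.hsum (b α)
    have hsn := d.s_nonneg α
    by_cases ht : d.i α ≤ d.v α
    · have e1 : ι α = (α, g α) := if_pos ht
      rw [e1]
      have hsa : d.s α = d.i α := min_eq_left ht
      have htb : d.i (b α) ≤ d.v (b α) := (hsame α (g α) hP).mp ht
      have hsb : d.s (b α) = d.i (b α) := min_eq_left htb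
      have hc := d.hc1 α (g α)
      have hbb : -(α + g α) = b α := rfl
      rw [hbb] at hc
      refine le_trans ?_ hc
      rw [← hsa]
      apply mul_le_mul_of_nonneg_left _ hsn
      linarith
    · have e1 : ι α = (b α, g α) := if_neg ht
      rw [e1]
      push Not at ht
      have hsa : d.s α = d.v α := min_eq_right ht.le
      have htb : ¬ d.i (b α) ≤ d.v (b α) := fun hcon =>
        absurd ((hsame α (g α) hP).mpr hcon) (not_le.mpr ht)
      push Not at htb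
      have hsb : d.s (b α) = d.v (b α) := min_eq_right htb.le
      have hc := d.hc2 (b α) (g α)
      have hbb : -(b α + g α) = α := refl_eq α (g α)
      rw [hbb] at hc
      refine le_trans ?_ hc
      rw [← hsa]
      apply mul_le_mul_of_nonneg_left _ hsn
      linarith
  calc ∑ α ∈ d.Jr, d.s α * ((d.h - d.F) - d.s (b α))
      ≤ ∑ α ∈ d.Jr, d.cell (ι α).1 (ι α).2 := Finset.sum_le_sum hbound
    _ = ∑ p ∈ d.Jr.image ι, d.cell p.1 p.2 := by
        rw [Finset.sum_image hinj]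
    _ ≤ d.R := by
        unfold R
        refine Finset.sum_le_sum_of_subset_of_nonneg ?_ (fun p _ _ => d.hcell p.1 p.2)
        intro p hp
        rw [Finset.mem_image] at hp
        obtain ⟨α, hα, rfl⟩ := hp
        exact hmem α hα

/-- Lemma D -/
theorem lemmaD : (2 * d.M ≤ d.h - d.F → d.M * ((d.h - d.F) - d.M) ≤ d.R) ∧
    (d.h - d.F ≤ 2 * d.M → (d.h - d.F)^2 ≤ 4 * d.R) := by
  set ρ := d.h - d.F with hρd
  have key : ρ^2 ≤ 4 * d.R → (2 * d.M ≤ ρ → d.M * (ρ - d.M) ≤ d.R) ∧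
    (ρ ≤ 2 * d.M → ρ^2 ≤ 4 * d.R) := by
    intro h
    refine ⟨fun _ => ?_, fun _ => h⟩
    nlinarith [sq_nonneg (ρ - 2 * d.M)]
  by_cases hheavy : ∃ α ∈ d.Jr, ρ < 2 * d.s α
  · obtain ⟨α, hα, hh⟩ := hheavy
    exact key (d.case_heavy hρ hα hh)
  push Not at hheavy
  by_cases hmix : ∃ α γ, (α, γ) ∈ d.P ∧ d.i α ≤ d.v α ∧ d.v (-(α + γ)) < d.i (-(α + γ))
  · obtain ⟨α, γ, hP, h1, h2⟩ := hmix
    have hα := (d.mem_P.mp hP).1
    have hβ := (d.mem_P.mp (d.mem_P_refl hP)).1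
    exact key (d.case_mixed hρ hP (hheavy α hα) (hheavy _ hβ) h1 h2)
  push Not at hmix
  have hsame : ∀ α γ, (α, γ) ∈ d.P →
      (d.i α ≤ d.v α ↔ d.i (-(α + γ)) ≤ d.v (-(α + γ))) := by
    intro α γ hP
    constructor
    · intro h; exact hmix α γ hP h
    · intro h
      have := hmix _ γ (d.mem_P_refl hP) h
      rw [refl_eq] at this
      exact this
  obtain ⟨b, hb, hR⟩ := d.case_same hρ hheavy hsame
  rw [← hρd] at hR
  have hM := d.M_nonneg
  constructor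
  · intro h2M
    refine le_trans ?_ hR
    have : d.M * (ρ - d.M) = ∑ α ∈ d.Jr, d.s α * (ρ - d.M) := by
      rw [← Finset.sum_mul]; rfl
    rw [this]
    refine Finset.sum_le_sum fun α hα => ?_
    apply mul_le_mul_of_nonneg_left _ (d.s_nonneg α)
    have : d.s (b α) ≤ d.M :=
      Finset.single_le_sum (f := d.s) (fun β _ => d.s_nonneg β) (hb α hα)
    linarith
  · intro h2M
    have : ρ * d.M ≤ 2 * ∑ α ∈ d.Jr, d.s α * (ρ - d.s (b α)) := by
      have e : ρ * d.M = ∑ α ∈ d.Jr, ρ * d.s α := by rw [← Finset.mul_sum]; rfl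
      rw [e, Finset.mul_sum]
      refine Finset.sum_le_sum fun α hα => ?_
      have h1 := hheavy (b α) (hb α hα)
      have h2 := d.s_nonneg α
      nlinarith
    nlinarith

end DData

end Pool.Agent.Lib_helper42.RS
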