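import Mathlib

/-!
Basic definitions and identities for counting solutions of `x + y + z = 0`
in a finite abelian group.
-/

set_option autoImplicit false
set_option linter.unusedSectionVars false

namespace Pool.Agent.Lib_helper42.RS

open Finset

universe u

section
variable {G : Type u} [AddCommGroup G] [Fintype G] [DecidableEq G]

/-- indicator function -/
def ind {α : Type*} [DecidableEq α] (A : Finset α) (x : α) : ℤ := if x ∈ A then 1 else 0

/-- trilinear form counting solutions of `x + y + z = 0`. -/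
def tri (f g k : G → ℤ) : ℤ := ∑ x, ∑ y, f x * g y * k (-(x + y))

/-- the number of `(x,y,z) ∈ A × B × C` with `x + y + z = 0`. -/
def N (A B C : Finset G) : ℤ := tri (ind A) (ind B) (ind C)

/-- the quadratic form -/
def Q3 (a b c : ℤ) : ℤ := 2*a*b + 2*b*c + 2*c*a - a^2 - b^2 - c^2

/-- `Δ = 4 N - Q`. -/
def dl (A B C : Finset G) : ℤ := 4 * N A B C - Q3 A.card B.card C.card

/-- distance of two sets (number of elements of the symmetric difference). -/
def ds {α : Type*} [Fintype α] [DecidableEq α] (A X : Finset α) : ℤ := ∑ x, |ind A x - ind X x|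

/-- distance of triples -/
def ds3 {α : Type*} [Fintype α] [DecidableEq α] (A B C X Y Z : Finset α) : ℤ :=
  ds A X + ds B Y + ds C Z

/-- `X` is a union of cosets of `H`. -/
def Per (H : AddSubgroup G) (X : Finset G) : Prop := ∀ x h, h ∈ H → (x + h ∈ X ↔ x ∈ X)

/-- odd periodic triples. -/
def InO (H : AddSubgroup G) (X Y Z : Finset G) : Prop :=
  Per H X ∧ Per H Y ∧ Per H Z ∧
    ∃ k : ℤ, ((X.card : ℤ) + Y.card + Z.card) = (2 * k + 1) * (Nat.card H : ℤ)

/-- the value `|H| - dist`. -/
noncomputable def rho (H : AddSubgroup G) (A B C X Y Z : Finset G) : ℤ :=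
  (Nat.card H : ℤ) - ds3 A B C X Y Z

/-- the statement (**) for a triple. -/
def Good (A B C : Finset G) : Prop :=
  dl A B C ≤ 0 ∨ ∃ (H : AddSubgroup G) (X Y Z : Finset G), InO H X Y Z ∧
    0 ≤ rho H A B C X Y Z ∧ dl A B C ≤ (rho H A B C X Y Z)^2

end

section ind
variable {α : Type*} [DecidableEq α]

lemma ind_mem {A : Finset α} {x : α} (h : x ∈ A) : ind A x = 1 := by simp [ind, h]
lemma ind_not_mem {A : Finset α} {x : α} (h : x ∉ A) : ind A x = 0 := by simp [ind, h]
lemma ind_nonneg (A : Finset α) (x : α) : 0 ≤ ind A x := by unfold ind; split_ifs <;> norm_num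
lemma ind_le_one (A : Finset α) (x : α) : ind A x ≤ 1 := by unfold ind; split_ifs <;> norm_num
lemma ind_zero_or_one (A : Finset α) (x : α) : ind A x = 0 ∨ ind A x = 1 := by
  unfold ind; split_ifs <;> simp
lemma ind_sq (A : Finset α) (x : α) : ind A x * ind A x = ind A x := by
  unfold ind; split_ifs <;> simp

variable [Fintype α]

lemma sum_ind (A : Finset α) : ∑ x, ind A x = (A.card : ℤ) := by
  simp [ind]

lemma ds_nonneg (A X : Finset α) : 0 ≤ ds A X := Finset.sum_nonneg fun _ _ => abs_nonneg _

lemma ds_self (A : Finset α) : ds A A = 0 := by simp [ds]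

lemma ds_comm (A X : Finset α) : ds A X = ds X A := by
  unfold ds; refine Finset.sum_congr rfl fun x _ => abs_sub_comm _ _

lemma ds_triangle (A B C : Finset α) : ds A C ≤ ds A B + ds B C := by
  unfold ds
  rw [← Finset.sum_add_distrib]
  exact Finset.sum_le_sum fun x _ => abs_sub_le _ _ _

lemma ds_eq_card (A X : Finset α) : ds A X = ((symmDiff A X).card : ℤ) := by
  unfold ds
  rw [← sum_ind]
  refine Finset.sum_congr rfl fun x _ => ?_
  unfold ind
  by_cases h1 : x ∈ A <;> by_cases h2 : x ∈ X <;> simp [h1, h2, Finset.mem_symmDiff]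

lemma card_sub_le_ds (A X : Finset α) : (A.card : ℤ) - X.card ≤ ds A X := by
  rw [← sum_ind, ← sum_ind, ← Finset.sum_sub_distrib]
  exact Finset.sum_le_sum fun x _ => le_abs_self _

lemma ds_le_card_add (A X : Finset α) : ds A X ≤ (A.card : ℤ) + X.card := by
  rw [← sum_ind, ← sum_ind, ← Finset.sum_add_distrib]
  refine Finset.sum_le_sum fun x _ => ?_
  have := ind_nonneg A x
  have := ind_nonneg X x
  rw [abs_le]; constructor <;> linarith

lemma ds_empty (A : Finset α) : ds A ∅ = A.card := by
  rw [← sum_ind]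
  refine Finset.sum_congr rfl fun x _ => ?_
  unfold ind
  by_cases h1 : x ∈ A <;> simp [h1]

lemma ds_univ (A : Finset α) : ds A Finset.univ = (Fintype.card α : ℤ) - A.card := by
  rw [ds_eq_card]
  have : symmDiff A (Finset.univ : Finset α) = Aᶜ := by
    ext x; simp [Finset.mem_symmDiff]
  rw [this, Finset.card_compl, Nat.cast_sub (Finset.card_le_univ A)]

lemma ds_compl (A X : Finset α) : ds Aᶜ Xᶜ = ds A X := by
  unfold ds
  refine Finset.sum_congr rfl fun x _ => ?_
  unfold ind
  by_cases h1 : x ∈ A <;> by_cases h2 : x ∈ X <;> simp [h1, h2]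

lemma ds3_nonneg (A B C X Y Z : Finset α) : 0 ≤ ds3 A B C X Y Z := by
  have := ds_nonneg A X
  have := ds_nonneg B Y
  have := ds_nonneg C Z
  unfold ds3; linarith

lemma ds3_triangle (A B C X Y Z X' Y' Z' : Finset α) :
    ds3 A B C X' Y' Z' ≤ ds3 A B C X Y Z + ds3 X Y Z X' Y' Z' := by
  have := ds_triangle A X X'
  have := ds_triangle B Y Y'
  have := ds_triangle C Z Z'
  unfold ds3; linarith

end ind

section
variable {G : Type u} [AddCommGroup G] [Fintype G] [DecidableEq G]

lemma tri_swap12 (f g k : G → ℤ) : tri f g k = tri g f k := by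
  unfold tri
  rw [Finset.sum_comm]
  refine Finset.sum_congr rfl fun x _ => Finset.sum_congr rfl fun y _ => ?_
  rw [add_comm y x]; ring

lemma sum_neg_add {f : G → ℤ} (x : G) : ∑ y, f (-(x + y)) = ∑ y, f y := by
  have : Function.Bijective (fun y : G => -(x + y)) := by
    constructor
    · intro a b h; simpa using h
    · intro b; exact ⟨-b - x, by simp⟩
  exact Function.Bijective.sum_comp this f

lemma sum_reflect (x : G) (F : G → G → ℤ) :
    ∑ y, F y (-(x + y)) = ∑ y, F (-(x + y)) y := by
  have : Function.Bijective (fun y : G => -(x + y)) := by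
    constructor
    · intro a b h; simpa using h
    · intro b; exact ⟨-b - x, by simp⟩
  rw [← Function.Bijective.sum_comp this (fun y => F y (-(x + y)))]
  refine Finset.sum_congr rfl fun y _ => ?_
  congr 1
  abel

lemma tri_swap23 (f g k : G → ℤ) : tri f g k = tri f k g := by
  unfold tri
  refine Finset.sum_congr rfl fun x _ => ?_
  rw [sum_reflect x (fun u v => f x * g u * k v)]
  refine Finset.sum_congr rfl fun y _ => ?_
  ring

lemma tri_swap13 (f g k : G → ℤ) : tri f g k = tri k g f := by
  rw [tri_swap12, tri_swap23, tri_swap12]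

lemma tri_add1 (f f' g k : G → ℤ) : tri (f + f') g k = tri f g k + tri f' g k := by
  unfold tri
  simp only [Pi.add_apply, add_mul, Finset.sum_add_distrib]

lemma tri_add2 (f g g' k : G → ℤ) : tri f (g + g') k = tri f g k + tri f g' k := by
  rw [tri_swap12, tri_add1, tri_swap12, tri_swap12 g']

lemma tri_add3 (f g k k' : G → ℤ) : tri f g (k + k') = tri f g k + tri f g k' := by
  rw [tri_swap13, tri_add1, tri_swap13, tri_swap13 k']

lemma tri_const3 (f g : G → ℤ) : tri f g (fun _ => 1) = (∑ x, f x) * ∑ y, g y := by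
  unfold tri
  rw [Finset.sum_mul_sum]
  simp

lemma sum_mul_shift (f k : G → ℤ) :
    ∑ x, ∑ y, f x * k (-(x + y)) = (∑ x, f x) * ∑ y, k y := by
  rw [Finset.sum_mul]
  refine Finset.sum_congr rfl fun x _ => ?_
  rw [← Finset.mul_sum, sum_neg_add]

lemma sum_mul_shift' (f k : G → ℤ) :
    ∑ x, ∑ y, f y * k (-(x + y)) = (∑ x, f x) * ∑ y, k y := by
  rw [Finset.sum_comm, ← sum_mul_shift]
  refine Finset.sum_congr rfl fun x _ => Finset.sum_congr rfl fun y _ => ?_
  rw [add_comm]

lemma N_swap12 (A B C : Finset G) : N A B C = N B A C := tri_swap12 _ _ _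
lemma N_swap23 (A B C : Finset G) : N A B C = N A C B := tri_swap23 _ _ _
lemma N_swap13 (A B C : Finset G) : N A B C = N C B A := tri_swap13 _ _ _

lemma Q3_swap12 (a b c : ℤ) : Q3 a b c = Q3 b a c := by unfold Q3; ring
lemma Q3_swap23 (a b c : ℤ) : Q3 a b c = Q3 a c b := by unfold Q3; ring

lemma dl_swap12 (A B C : Finset G) : dl A B C = dl B A C := by
  unfold dl; rw [N_swap12, Q3_swap12]
lemma dl_swap23 (A B C : Finset G) : dl A B C = dl A C B := by
  unfold dl; rw [N_swap23, Q3_swap23]

lemma N_nonneg (A B C : Finset G) : 0 ≤ N A B C := by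
  unfold N tri
  refine Finset.sum_nonneg fun x _ => Finset.sum_nonneg fun y _ => ?_
  exact mul_nonneg (mul_nonneg (ind_nonneg _ _) (ind_nonneg _ _)) (ind_nonneg _ _)

/-- number of missing pairs -/
def miss (A B C : Finset G) : ℤ := tri (ind A) (ind B) (ind Cᶜ)

lemma miss_nonneg (A B C : Finset G) : 0 ≤ miss A B C := N_nonneg A B Cᶜ

lemma ind_compl (A : Finset G) (x : G) : ind Aᶜ x = 1 - ind A x := by
  unfold ind; by_cases h : x ∈ A <;> simp [h]

lemma N_add_miss (A B C : Finset G) : N A B C + miss A B C = (A.card : ℤ) * B.card := by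
  unfold N miss
  rw [← tri_add3, ← sum_ind A, ← sum_ind B, ← tri_const3]
  congr 1
  ext x
  simp [ind_compl]

/-- the key identity -/
lemma dl_eq_miss (A B C : Finset G) :
    dl A B C = ((A.card : ℤ) + B.card - C.card)^2 - 4 * miss A B C := by
  have h := N_add_miss A B C
  unfold dl Q3
  have : N A B C = (A.card : ℤ) * B.card - miss A B C := by linarith
  rw [this]; ring

lemma dl_mod (A B C : Finset G) :
    ∃ k : ℤ, dl A B C = ((A.card : ℤ) + B.card + C.card)^2 + 4 * k := by
  refine ⟨N A B C - ((A.card : ℤ) * B.card + B.card * C.card + C.card * A.card), ?_⟩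
  unfold dl Q3; ring

end

end Pool.Agent.Lib_helper42.RS
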