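import Mathlib
import Pool.Agent.Lib_helper42.RS.Basic

/-!
Quotients: fibres of the projection, lifts of sets, scaling of `dl`.
-/

set_option autoImplicit false
set_option linter.unusedSectionVars false

namespace Pool.Agent.Lib_helper42.RS

open Finset

universe u

variable {G : Type u} [AddCommGroup G] [Fintype G] [DecidableEq G]
variable {Q : Type u} [AddCommGroup Q] [Fintype Q] [DecidableEq Q]

/-- preimage of a set under a homomorphism. -/
def lft (φ : G →+ Q) (X : Finset Q) : Finset G := univ.filter (fun x => φ x ∈ X)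

@[simp] lemma mem_lft (φ : G →+ Q) (X : Finset Q) (x : G) : x ∈ lft φ X ↔ φ x ∈ X := by
  simp [lft]

lemma ind_lft (φ : G →+ Q) (X : Finset Q) (x : G) : ind (lft φ X) x = ind X (φ x) := by
  unfold ind; simp

/-- every fibre has `Nat.card φ.ker` elements -/
lemma fiber_card (φ : G →+ Q) (hφ : Function.Surjective φ) (q : Q) :
    (univ.filter (fun x => φ x = q)).card = Nat.card φ.ker := by
  classical
  obtain ⟨x0, rfl⟩ := hφ q
  have h1 : Nat.card φ.ker = (univ.filter (fun x => φ x = 0)).card := by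
    rw [Nat.card_eq_fintype_card]
    rw [Fintype.card_of_subtype]
    intro x; simp [AddMonoidHom.mem_ker]
  rw [h1]
  refine Finset.card_bij (fun x _ => x - x0) ?_ ?_ ?_
  · intro x hx; simp at hx ⊢; rw [hx]; simp
  · intro a _ b _ h; simpa using h
  · intro b hb
    refine ⟨b + x0, ?_, by simp⟩
    simp at hb ⊢; exact hb

lemma sum_fiber (φ : G →+ Q) (F : G → ℤ) :
    ∑ x, F x = ∑ q, ∑ x ∈ univ.filter (fun x => φ x = q), F x := by
  rw [Finset.sum_fiberwise]

lemma sum_comp (φ : G →+ Q) (hφ : Function.Surjective φ) (F : Q → ℤ) :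
    ∑ x, F (φ x) = (Nat.card φ.ker : ℤ) * ∑ q, F q := by
  rw [sum_fiber φ, Finset.mul_sum]
  refine Finset.sum_congr rfl fun q _ => ?_
  have : ∑ x ∈ univ.filter (fun x => φ x = q), F (φ x) =
      ∑ x ∈ univ.filter (fun x => φ x = q), F q := by
    refine Finset.sum_congr rfl fun x hx => ?_
    simp at hx; rw [hx]
  rw [this, Finset.sum_const, fiber_card φ hφ]
  simp

lemma card_lft (φ : G →+ Q) (hφ : Function.Surjective φ) (X : Finset Q) :
    ((lft φ X).card : ℤ) = (Nat.card φ.ker : ℤ) * X.card := by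
  rw [← sum_ind, ← sum_ind, ← sum_comp φ hφ]
  exact Finset.sum_congr rfl fun x _ => ind_lft φ X x

lemma card_G (φ : G →+ Q) (hφ : Function.Surjective φ) :
    (Fintype.card G : ℤ) = (Nat.card φ.ker : ℤ) * Fintype.card Q := by
  have := card_lft φ hφ univ
  rw [Finset.card_univ] at this
  rw [← this]
  congr 1
  rw [← Finset.card_univ]
  congr 1
  ext x; simp

lemma tri_lft (φ : G →+ Q) (hφ : Function.Surjective φ) (f g k : Q → ℤ) :
    tri (f ∘ φ) (g ∘ φ) (k ∘ φ) = (Nat.card φ.ker : ℤ)^2 * tri f g k := by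
  unfold tri
  have : ∀ x : G, ∑ y : G, (f ∘ φ) x * (g ∘ φ) y * (k ∘ φ) (-(x + y)) =
      (Nat.card φ.ker : ℤ) * ∑ β : Q, f (φ x) * g β * k (-(φ x + β)) := by
    intro x
    rw [← sum_comp φ hφ (fun β => f (φ x) * g β * k (-(φ x + β)))]
    refine Finset.sum_congr rfl fun y _ => ?_
    simp
  rw [Finset.sum_congr rfl fun x _ => this x, ← Finset.mul_sum,
    sum_comp φ hφ (fun α => ∑ β : Q, f α * g β * k (-(α + β)))]
  ring

lemma N_lft (φ : G →+ Q) (hφ : Function.Surjective φ) (X Y Z : Finset Q) :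
    N (lft φ X) (lft φ Y) (lft φ Z) = (Nat.card φ.ker : ℤ)^2 * N X Y Z := by
  unfold N
  rw [← tri_lft φ hφ]
  congr 1 <;> (ext x; exact ind_lft φ _ x)

lemma dl_lft (φ : G →+ Q) (hφ : Function.Surjective φ) (X Y Z : Finset Q) :
    dl (lft φ X) (lft φ Y) (lft φ Z) = (Nat.card φ.ker : ℤ)^2 * dl X Y Z := by
  unfold dl Q3
  rw [N_lft φ hφ, card_lft φ hφ, card_lft φ hφ, card_lft φ hφ]
  ring

lemma ds_lft (φ : G →+ Q) (hφ : Function.Surjective φ) (X Y : Finset Q) :
    ds (lft φ X) (lft φ Y) = (Nat.card φ.ker : ℤ) * ds X Y := by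
  unfold ds
  rw [← sum_comp φ hφ]
  refine Finset.sum_congr rfl fun x _ => ?_
  rw [ind_lft, ind_lft]

lemma ds3_lft (φ : G →+ Q) (hφ : Function.Surjective φ) (X Y Z X' Y' Z' : Finset Q) :
    ds3 (lft φ X) (lft φ Y) (lft φ Z) (lft φ X') (lft φ Y') (lft φ Z') =
      (Nat.card φ.ker : ℤ) * ds3 X Y Z X' Y' Z' := by
  unfold ds3
  rw [ds_lft φ hφ, ds_lft φ hφ, ds_lft φ hφ]; ring

lemma per_lft_comap (φ : G →+ Q) (K : AddSubgroup Q) (X : Finset Q) (h : Per K X) :
    Per (K.comap φ) (lft φ X) := by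
  intro x t ht
  simp only [mem_lft, map_add]
  exact h (φ x) (φ t) ht

lemma per_lft (φ : G →+ Q) (X : Finset Q) : Per φ.ker (lft φ X) := by
  intro x t ht
  simp only [mem_lft, map_add]
  rw [AddMonoidHom.mem_ker] at ht
  rw [ht, add_zero]

lemma card_comap (φ : G →+ Q) (hφ : Function.Surjective φ) (K : AddSubgroup Q) :
    (Nat.card (K.comap φ) : ℤ) = (Nat.card φ.ker : ℤ) * Nat.card K := by
  classical
  have h1 : Nat.card (K.comap φ) = (lft φ (univ.filter (fun q => q ∈ K))).card := by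
    rw [Nat.card_eq_fintype_card, Fintype.card_of_subtype]
    intro x; simp
  have h2 : Nat.card K = (univ.filter (fun q => q ∈ K)).card := by
    rw [Nat.card_eq_fintype_card, Fintype.card_of_subtype]
    intro x; simp
  rw [h1, h2, card_lft φ hφ]

lemma inO_lft (φ : G →+ Q) (hφ : Function.Surjective φ) (K : AddSubgroup Q) (X Y Z : Finset Q)
    (h : InO K X Y Z) : InO (K.comap φ) (lft φ X) (lft φ Y) (lft φ Z) := by
  obtain ⟨h1, h2, h3, k, hk⟩ := h
  refine ⟨per_lft_comap φ K X h1, per_lft_comap φ K Y h2, per_lft_comap φ K Z h3, k, ?_⟩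
  rw [card_lft φ hφ, card_lft φ hφ, card_lft φ hφ, card_comap φ hφ]
  linear_combination (Nat.card φ.ker : ℤ) * hk

/-- every set periodic under `ker φ` is a lift -/
lemma per_eq_lft (φ : G →+ Q) (X : Finset G) (h : Per φ.ker X) :
    X = lft φ (X.image φ) := by
  ext x
  simp only [mem_lft, Finset.mem_image]
  constructor
  · intro hx; exact ⟨x, hx, rfl⟩
  · rintro ⟨y, hy, hxy⟩
    have := (h y (x - y) (by rw [AddMonoidHom.mem_ker, map_sub, hxy, sub_self])).mpr hy
    simpa using this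

lemma Per.mono {H K : AddSubgroup G} (hHK : H ≤ K) {X : Finset G} (h : Per K X) : Per H X :=
  fun x t ht => h x t (hHK ht)

lemma Per.dvd {H : AddSubgroup G} {X : Finset G} (h : Per H X) :
    ∃ m : ℤ, (X.card : ℤ) = m * Nat.card H := by
  classical
  haveI : Fintype (G ⧸ H) := Fintype.ofFinite _
  have hk : (QuotientAddGroup.mk' H).ker = H := QuotientAddGroup.ker_mk' H
  have hs : Function.Surjective (QuotientAddGroup.mk' H) := QuotientAddGroup.mk'_surjective H
  have h' : Per (QuotientAddGroup.mk' H).ker X := by rw [hk]; exact h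
  have e := per_eq_lft (QuotientAddGroup.mk' H) X h'
  refine ⟨((X.image (QuotientAddGroup.mk' H)).card : ℤ), ?_⟩
  conv_lhs => rw [e]
  rw [card_lft _ hs, hk]; ring

/-- Goodness in the quotient gives structure upstairs, provided `dl` is large. -/
lemma good_quot (φ : G →+ Q) (hφ : Function.Surjective φ) (X Y Z : Finset Q)
    (hg : Good X Y Z) (h1 : 1 < dl X Y Z) :
    ∃ (K : AddSubgroup G) (X' Y' Z' : Finset G), InO K X' Y' Z' ∧
      2 * (Nat.card φ.ker : ℤ) ≤ rho K (lft φ X) (lft φ Y) (lft φ Z) X' Y' Z' := by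
  rcases hg with hg | ⟨K, X', Y', Z', hO, h0, h2⟩
  · omega
  · refine ⟨K.comap φ, lft φ X', lft φ Y', lft φ Z', inO_lft φ hφ K X' Y' Z' hO, ?_⟩
    have h3 : 2 ≤ rho K X Y Z X' Y' Z' := by
      by_contra hlt
      push Not at hlt
      have : rho K X Y Z X' Y' Z' ≤ 1 := by omega
      nlinarith
    have h4 : rho (K.comap φ) (lft φ X) (lft φ Y) (lft φ Z) (lft φ X') (lft φ Y') (lft φ Z') =
        (Nat.card φ.ker : ℤ) * rho K X Y Z X' Y' Z' := by
      unfold rho
      rw [ds3_lft φ hφ, card_comap φ hφ]; ring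
    rw [h4]
    have : (0:ℤ) ≤ Nat.card φ.ker := by positivity
    nlinarith

end Pool.Agent.Lib_helper42.RS
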