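import Mathlib
import Pool.Agent.Lib_helper42.RS.Basic
import Pool.Agent.Lib_helper42.RS.Quot

/-!
Invariance of `dl` and `Good`; the trivial region; the `e`-transform.
-/

set_option autoImplicit false
set_option linter.unusedSectionVars false

namespace Pool.Agent.Lib_helper42.RS

open Finset

universe u

variable {G : Type u} [AddCommGroup G] [Fintype G] [DecidableEq G]

/-! ### the e-transform -/

lemma ind_sdiff_add_inter (A B : Finset G) : ind A = ind (A \ B) + ind (A ∩ B) := by
  ext x; simp only [Pi.add_apply, ind]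
  by_cases h1 : x ∈ A <;> by_cases h2 : x ∈ B <;> simp [h1, h2]

lemma ind_union (A B : Finset G) :
    ind (A ∪ B) = ind (A \ B) + (ind (B \ A) + ind (A ∩ B)) := by
  ext x; simp only [Pi.add_apply, ind]
  by_cases h1 : x ∈ A <;> by_cases h2 : x ∈ B <;> simp [h1, h2]

lemma N_split (A B C : Finset G) :
    N A B C = N (A \ B) (B \ A) C + N (A ∩ B) (A ∪ B) C := by
  unfold N
  have hB : ind B = ind (B \ A) + ind (A ∩ B) := by
    rw [Finset.inter_comm]; exact ind_sdiff_add_inter B A
  rw [ind_union A B]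
  conv_lhs => rw [ind_sdiff_add_inter A B, hB]
  simp only [tri_add1, tri_add2]
  have := tri_swap12 (ind (A ∩ B)) (ind (A \ B)) (ind C)
  linarith

/-- `Δ(A,B,C) = Δ(A\B,B\A,C) - 4 #{(y,z) ∈ I × C : -y-z ∉ U}` -/
lemma dl_trans1 (A B C : Finset G) :
    dl A B C = dl (A \ B) (B \ A) C - 4 * miss (A ∩ B) C (A ∪ B) := by
  have h1 := N_split A B C
  have h2 := N_add_miss (A ∩ B) C (A ∪ B)
  have h3 : N (A ∩ B) (A ∪ B) C = N (A ∩ B) C (A ∪ B) := N_swap23 _ _ _
  have hA : (A.card : ℤ) = (A \ B).card + (A ∩ B).card := by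
    rw [← sum_ind, ← sum_ind, ← sum_ind, ← Finset.sum_add_distrib]
    exact Finset.sum_congr rfl fun x _ => congrFun (ind_sdiff_add_inter A B) x
  have hB : (B.card : ℤ) = (B \ A).card + (A ∩ B).card := by
    rw [← sum_ind, ← sum_ind, ← sum_ind, ← Finset.sum_add_distrib]
    refine Finset.sum_congr rfl fun x _ => ?_
    rw [Finset.inter_comm]
    exact congrFun (ind_sdiff_add_inter B A) x
  unfold dl Q3
  rw [h1, h3, hA, hB]
  have : N (A ∩ B) C (A ∪ B) = ((A ∩ B).card : ℤ) * C.card - miss (A ∩ B) C (A ∪ B) := by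
    linarith
  rw [this]
  ring

lemma card_union_eq (A B : Finset G) :
    ((A ∪ B).card : ℤ) = (A \ B).card + ((B \ A).card + (A ∩ B).card) := by
  rw [← sum_ind, ← sum_ind, ← sum_ind, ← sum_ind, ← Finset.sum_add_distrib,
    ← Finset.sum_add_distrib]
  exact Finset.sum_congr rfl fun x _ => congrFun (ind_union A B) x

lemma card_eq_sdiff_inter (A B : Finset G) :
    (A.card : ℤ) = (A \ B).card + (A ∩ B).card := by
  rw [← sum_ind, ← sum_ind, ← sum_ind, ← Finset.sum_add_distrib]
  exact Finset.sum_congr rfl fun x _ => congrFun (ind_sdiff_add_inter A B) x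

/-! ### complements -/

lemma card_compl_int (A : Finset G) : ((Aᶜ).card : ℤ) = (Fintype.card G : ℤ) - A.card := by
  rw [Finset.card_compl, Nat.cast_sub (Finset.card_le_univ A)]

lemma dl_compl13 (A B C : Finset G) : dl Aᶜ B Cᶜ = dl A B C := by
  have h1 : N Aᶜ B Cᶜ = miss Aᶜ B C := rfl
  have h2 := N_add_miss Aᶜ B C
  have h3 : N Aᶜ B C = N C B Aᶜ := N_swap13 _ _ _
  have h4 : N C B Aᶜ = miss C B A := rfl
  have h5 := N_add_miss C B A
  have h6 : N C B A = N A B C := N_swap13 _ _ _
  unfold dl Q3
  rw [card_compl_int, card_compl_int, h1]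
  have : miss Aᶜ B C = (((Aᶜ).card : ℤ)) * B.card - ((C.card : ℤ) * B.card - N A B C) := by
    linarith
  rw [this, card_compl_int]
  ring

lemma Per.compl {H : AddSubgroup G} {X : Finset G} (h : Per H X) : Per H Xᶜ := by
  intro x t ht
  simp only [Finset.mem_compl]
  exact not_congr (h x t ht)

lemma card_dvd (H : AddSubgroup G) : ∃ m : ℤ, (Fintype.card G : ℤ) = m * Nat.card H := by
  obtain ⟨m, hm⟩ := AddSubgroup.card_addSubgroup_dvd_card H
  refine ⟨m, ?_⟩
  rw [← Nat.card_eq_fintype_card, hm]; push_cast; ring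

/-! ### invariance of `Good` -/

lemma ds3_swap12 (A B C X Y Z : Finset G) : ds3 A B C X Y Z = ds3 B A C Y X Z := by
  unfold ds3; ring

lemma ds3_swap23 (A B C X Y Z : Finset G) : ds3 A B C X Y Z = ds3 A C B X Z Y := by
  unfold ds3; ring

lemma InO.swap12 {H : AddSubgroup G} {X Y Z : Finset G} (h : InO H X Y Z) : InO H Y X Z := by
  obtain ⟨h1, h2, h3, k, hk⟩ := h
  exact ⟨h2, h1, h3, k, by linarith⟩

lemma InO.swap23 {H : AddSubgroup G} {X Y Z : Finset G} (h : InO H X Y Z) : InO H X Z Y := by
  obtain ⟨h1, h2, h3, k, hk⟩ := h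
  exact ⟨h1, h3, h2, k, by linarith⟩

lemma InO.compl13 {H : AddSubgroup G} {X Y Z : Finset G} (h : InO H X Y Z) : InO H Xᶜ Y Zᶜ := by
  obtain ⟨h1, h2, h3, k, hk⟩ := h
  obtain ⟨m, hm⟩ := card_dvd H
  obtain ⟨x, hx⟩ := h1.dvd
  obtain ⟨z, hz⟩ := h3.dvd
  refine ⟨h1.compl, h2, h3.compl, k + m - x - z, ?_⟩
  rw [card_compl_int, card_compl_int]
  linear_combination hk + 2 * hm - 2 * hx - 2 * hz

lemma Good.swap12 {A B C : Finset G} (h : Good A B C) : Good B A C := by
  rcases h with h | ⟨H, X, Y, Z, hO, h0, h1⟩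
  · left; rw [dl_swap12]; exact h
  · right
    refine ⟨H, Y, X, Z, hO.swap12, ?_, ?_⟩
    · unfold rho at *; rw [ds3_swap12]; exact h0
    · unfold rho at *; rw [ds3_swap12, dl_swap12]; exact h1

lemma Good.swap23 {A B C : Finset G} (h : Good A B C) : Good A C B := by
  rcases h with h | ⟨H, X, Y, Z, hO, h0, h1⟩
  · left; rw [dl_swap23]; exact h
  · right
    refine ⟨H, X, Z, Y, hO.swap23, ?_, ?_⟩
    · unfold rho at *; rw [ds3_swap23]; exact h0
    · unfold rho at *; rw [ds3_swap23, dl_swap23]; exact h1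

lemma Good.compl13 {A B C : Finset G} (h : Good A B C) : Good Aᶜ B Cᶜ := by
  rcases h with h | ⟨H, X, Y, Z, hO, h0, h1⟩
  · left; rw [dl_compl13]; exact h
  · right
    refine ⟨H, Xᶜ, Y, Zᶜ, hO.compl13, ?_, ?_⟩
    · unfold rho ds3 at *; rw [ds_compl, ds_compl]; exact h0
    · unfold rho ds3 at *; rw [ds_compl, ds_compl, dl_compl13]; exact h1

/-! ### translations -/

/-- translate -/
def tr (e : G) (A : Finset G) : Finset G := A.map (Equiv.addRight e).toEmbedding

lemma mem_tr {e x : G} {A : Finset G} : x ∈ tr e A ↔ x - e ∈ A := by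
  unfold tr
  simp only [Finset.mem_map_equiv]
  simp [sub_eq_add_neg]

lemma card_tr (e : G) (A : Finset G) : (tr e A).card = A.card := by
  unfold tr; rw [Finset.card_map]

lemma ind_tr (e x : G) (A : Finset G) : ind (tr e A) x = ind A (x - e) := by
  unfold ind; simp [mem_tr]

lemma N_tr23 (e : G) (A B C : Finset G) : N A (tr e B) (tr (-e) C) = N A B C := by
  unfold N tri
  refine Finset.sum_congr rfl fun x _ => ?_
  have hb : Function.Bijective (fun y : G => y + e) := (Equiv.addRight e).bijective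
  rw [← Function.Bijective.sum_comp hb]
  refine Finset.sum_congr rfl fun y _ => ?_
  rw [ind_tr, ind_tr]
  have h1 : y + e - e = y := by abel
  have h2 : -(x + (y + e)) - -e = -(x + y) := by abel
  rw [h1, h2]

lemma dl_tr23 (e : G) (A B C : Finset G) : dl A (tr e B) (tr (-e) C) = dl A B C := by
  unfold dl; rw [N_tr23, card_tr, card_tr]

lemma ds_tr (e : G) (A X : Finset G) : ds (tr e A) (tr e X) = ds A X := by
  unfold ds
  have hb : Function.Bijective (fun y : G => y + e) := (Equiv.addRight e).bijective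
  rw [← Function.Bijective.sum_comp hb]
  refine Finset.sum_congr rfl fun y _ => ?_
  rw [ind_tr, ind_tr]; simp

lemma Per.tr {H : AddSubgroup G} {X : Finset G} (h : Per H X) (e : G) : Per H (tr e X) := by
  intro x t ht
  rw [mem_tr, mem_tr]
  have := h (x - e) t ht
  rw [← this]
  have h2 : x + t - e = x - e + t := by abel
  rw [h2]

lemma tr_tr (e : G) (A : Finset G) : tr (-e) (tr e A) = A := by
  ext x; rw [mem_tr, mem_tr]; simp

lemma Good.tr23 {A B C : Finset G} (e : G) (h : Good A B C) : Good A (tr e B) (tr (-e) C) := by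
  rcases h with h | ⟨H, X, Y, Z, ⟨h1, h2, h3, k, hk⟩, h0, h4⟩
  · left; rw [dl_tr23]; exact h
  · right
    refine ⟨H, X, tr e Y, tr (-e) Z, ⟨h1, h2.tr e, h3.tr (-e), k, ?_⟩, ?_, ?_⟩
    · rw [card_tr, card_tr]; exact hk
    · unfold rho ds3 at *; rw [ds_tr, ds_tr]; exact h0
    · unfold rho ds3 at *; rw [ds_tr, ds_tr, dl_tr23]; exact h4

lemma Good.of_tr23 {A B C : Finset G} (e : G) (h : Good A (tr e B) (tr (-e) C)) : Good A B C := by
  have := h.tr23 (-e)
  rw [tr_tr e B, tr_tr (-e) C] at this
  exact this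

/-! ### small `dl` -/

lemma good_of_dl_le_one {A B C : Finset G} (h : dl A B C ≤ 1) : Good A B C := by
  by_cases h0 : dl A B C ≤ 0
  · left; exact h0
  · right
    have h1 : dl A B C = 1 := by omega
    refine ⟨⊥, A, B, C, ⟨?_, ?_, ?_, ?_⟩, ?_, ?_⟩
    · intro x t ht; rw [AddSubgroup.mem_bot] at ht; rw [ht, add_zero]
    · intro x t ht; rw [AddSubgroup.mem_bot] at ht; rw [ht, add_zero]
    · intro x t ht; rw [AddSubgroup.mem_bot] at ht; rw [ht, add_zero]
    · obtain ⟨k, hk⟩ := dl_mod A B C
      have hodd : Odd ((A.card : ℤ) + B.card + C.card) := by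
        by_contra hcon
        rw [Int.not_odd_iff_even] at hcon
        obtain ⟨r, hr⟩ := hcon
        rw [hr, h1] at hk
        have : (1:ℤ) = 4 * (r * r + k) := by rw [hk]; ring
        omega
      obtain ⟨r, hr⟩ := hodd
      exact ⟨r, by rw [hr]; simp⟩
    · unfold rho ds3; simp [ds_self]
    · unfold rho ds3; simp [ds_self]; exact h

/-- if `dl > 1` then `dl ≥ 4`. -/
lemma four_le_dl {A B C : Finset G} (h : 1 < dl A B C) : 4 ≤ dl A B C := by
  obtain ⟨k, hk⟩ := dl_mod A B C
  rcases Int.even_or_odd ((A.card : ℤ) + B.card + C.card) with ⟨r, hr⟩ | ⟨r, hr⟩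
  · rw [hr] at hk
    have : dl A B C = 4 * (r * r + k) := by rw [hk]; ring
    omega
  · rw [hr] at hk
    have : dl A B C = 4 * (r * r + r + k) + 1 := by rw [hk]; ring
    omega

/-- a positive even `dl` is at least four -/
lemma four_le_dl_of_even {A B C : Finset G} (h : 0 < dl A B C)
    (he : Even ((A.card : ℤ) + B.card + C.card)) : 4 ≤ dl A B C := by
  obtain ⟨k, hk⟩ := dl_mod A B C
  obtain ⟨r, hr⟩ := he
  rw [hr] at hk
  have : dl A B C = 4 * (r * r + k) := by rw [hk]; ring
  omega

/-- an odd `dl` that is less than 2 is at most 1, and is congruent to one mod 4 -/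
lemma dl_odd_mod {A B C : Finset G}
    (he : Odd ((A.card : ℤ) + B.card + C.card)) : ∃ k : ℤ, dl A B C = 4 * k + 1 := by
  obtain ⟨k, hk⟩ := dl_mod A B C
  obtain ⟨r, hr⟩ := he
  rw [hr] at hk
  exact ⟨r * r + r + k, by rw [hk]; ring⟩

/-! ### trivial region -/

lemma per_top_univ : Per (⊤ : AddSubgroup G) (univ : Finset G) := by
  intro x t _; simp

lemma per_empty (H : AddSubgroup G) : Per H (∅ : Finset G) := by
  intro x t _; simp

lemma card_top_int : (Nat.card (⊤ : AddSubgroup G) : ℤ) = Fintype.card G := by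
  rw [AddSubgroup.card_top, Nat.card_eq_fintype_card]

lemma good_trivial1 {A B C : Finset G} (h : (B.card : ℤ) + C.card ≤ A.card) : Good A B C := by
  right
  refine ⟨⊤, univ, ∅, ∅, ⟨per_top_univ, per_empty _, per_empty _, 0, ?_⟩, ?_, ?_⟩
  · rw [card_top_int, Finset.card_univ]; simp
  · unfold rho ds3
    rw [ds_univ, ds_empty, ds_empty, card_top_int]; linarith
  · unfold rho ds3
    rw [ds_univ, ds_empty, ds_empty, card_top_int]
    have h1 : dl A B C = dl B C A := by rw [dl_swap12, dl_swap23]
    rw [h1, dl_eq_miss]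
    have := miss_nonneg B C A
    nlinarith

lemma good_trivial2 {A B C : Finset G} (h : (A.card : ℤ) + C.card ≤ B.card) : Good A B C :=
  (good_trivial1 h).swap12

lemma good_trivial3 {A B C : Finset G} (h : (A.card : ℤ) + B.card ≤ C.card) : Good A B C :=
  (good_trivial2 (A := A) (B := C) (C := B) h).swap23

/-! ### base case -/

/-- The base case of the induction. -/
lemma good_base {A B C : Finset G} (hB : B.Nonempty)
    (hsub : ∀ e : G, (A ∩ tr e B) = ∅ ∨ (A ∩ tr e B) = tr e B)
    (hAB : (C.card : ℤ) ≤ A.card + B.card) (hBC : (A.card : ℤ) ≤ B.card + C.card) :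
    Good A B C := by
  classical
  obtain ⟨b0, hb0⟩ := hB
  set K : AddSubgroup G := AddSubgroup.closure {x | ∃ b ∈ B, x = b - b0} with hK
  -- A is periodic
  have hstep : ∀ x ∈ A, ∀ b ∈ B, ∀ b' ∈ B, x + (b' - b) ∈ A := by
    intro x hx b hb b' hb'
    rcases hsub (x - b) with h | h
    · exfalso
      have : x ∈ A ∩ tr (x - b) B := by
        rw [Finset.mem_inter, mem_tr]; exact ⟨hx, by simpa using hb⟩
      rw [h] at this; simp at this
    · have : x + (b' - b) ∈ tr (x - b) B := by
        rw [mem_tr]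
        have : x + (b' - b) - (x - b) = b' := by abel
        rw [this]; exact hb'
      rw [← h, Finset.mem_inter] at this
      exact this.1
  have hAper1 : ∀ t ∈ K, ∀ x, x ∈ A ↔ x + t ∈ A := by
    intro t ht
    induction ht using AddSubgroup.closure_induction with
    | mem t ht =>
      obtain ⟨b, hb, rfl⟩ := ht
      intro x
      constructor
      · intro hx; exact hstep x hx b0 hb0 b hb
      · intro hx
        have := hstep _ hx b hb b0 hb0
        have h2 : x + (b - b0) + (b0 - b) = x := by abel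
        rwa [h2] at this
    | zero => intro x; simp
    | add s t _ _ h1 h2 =>
      intro x
      rw [h1 x, h2 (x + s), add_assoc]
    | neg t _ h1 =>
      intro x
      rw [h1 (x + -t)]
      simp
  have hAper : Per K A := fun x t ht => (hAper1 t ht x).symm
  -- the set C*
  set Cs : Finset G := univ.filter (fun z => -(z + b0) ∈ A) with hCs
  have hCsper : Per K Cs := by
    intro z t ht
    rw [hCs]; simp only [Finset.mem_filter, Finset.mem_univ, true_and]
    have := hAper (-(z + b0)) (-t) (K.neg_mem ht)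
    have h2 : -(z + b0) + -t = -(z + t + b0) := by abel
    rw [h2] at this
    exact this
  have hCscard : (Cs.card : ℤ) = A.card := by
    rw [← sum_ind, ← sum_ind, ← sum_neg_add (f := ind A) b0]
    refine Finset.sum_congr rfl fun z _ => ?_
    unfold ind
    rw [add_comm b0 z]
    simp [hCs]
  -- the coset b0 + K
  set BK : Finset G := univ.filter (fun y => y - b0 ∈ K) with hBK
  have hBKper : Per K BK := by
    intro y t ht
    rw [hBK]; simp only [Finset.mem_filter, Finset.mem_univ, true_and]
    have h2 : y + t - b0 = (y - b0) + t := by abel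
    rw [h2]
    exact AddSubgroup.add_mem_cancel_right K ht
  have hBsub : B ⊆ BK := by
    intro y hy
    rw [hBK]; simp only [Finset.mem_filter, Finset.mem_univ, true_and]
    exact AddSubgroup.subset_closure ⟨y, hy, rfl⟩
  have hBKcard : (BK.card : ℤ) = Nat.card K := by
    have : Nat.card K = BK.card := by
      rw [Nat.card_eq_fintype_card]
      have h1 : Fintype.card K = (univ.filter (fun y => y ∈ K)).card := by
        rw [Fintype.card_of_subtype]; intro x; simp
      rw [h1]
      refine Finset.card_bij (fun x _ => x + b0) ?_ ?_ ?_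
      · intro x hx; simp [hBK] at hx ⊢; exact hx
      · intro a _ b _ h; simpa using h
      · intro y hy
        exact ⟨y - b0, by simpa [hBK] using hy, by simp⟩
    rw [this]
  -- the count
  have hN : N A B C = (B.card : ℤ) * ∑ z, ind C z * ind Cs z := by
    rw [N_swap12, N_swap23]
    unfold N tri
    rw [← sum_ind, Finset.sum_mul]
    refine Finset.sum_congr rfl fun y _ => ?_
    rw [Finset.mul_sum]
    refine Finset.sum_congr rfl fun z _ => ?_
    by_cases hy : y ∈ B
    · rw [ind_mem hy]
      have : ind A (-(y + z)) = ind Cs z := by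
        unfold ind
        have hk : y - b0 ∈ K := AddSubgroup.subset_closure ⟨y, hy, rfl⟩
        have h3 : -(y + z) ∈ A ↔ z ∈ Cs := by
          rw [hCs]; simp only [Finset.mem_filter, Finset.mem_univ, true_and]
          have := hAper (-(y + z)) (y - b0) hk
          have h2 : -(y + z) + (y - b0) = -(z + b0) := by abel
          rw [h2] at this
          exact this.symm
        exact if_congr h3 rfl rfl
      rw [this]; ring
    · rw [ind_not_mem hy]; ring
  set cin : ℤ := ∑ z, ind C z * ind Cs z with hcin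
  set cout : ℤ := (C.card : ℤ) - cin with hcout
  have hdsC : ds C Cs = (A.card : ℤ) - C.card + 2 * cout := by
    have : ds C Cs = (C.card : ℤ) + Cs.card - 2 * cin := by
      rw [← sum_ind C, ← sum_ind Cs, hcin, Finset.mul_sum, ← Finset.sum_add_distrib,
        ← Finset.sum_sub_distrib]
      unfold ds
      refine Finset.sum_congr rfl fun z _ => ?_
      rcases ind_zero_or_one C z with h | h <;> rcases ind_zero_or_one Cs z with h' | h' <;>
        simp [h, h']
    rw [this, hCscard, hcout]; ring
  have hdsB : ds B BK = (Nat.card K : ℤ) - B.card := by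
    rw [← hBKcard, ← sum_ind, ← sum_ind, ← Finset.sum_sub_distrib]
    unfold ds
    refine Finset.sum_congr rfl fun z _ => ?_
    by_cases hz : z ∈ B
    · rw [ind_mem hz, ind_mem (hBsub hz)]; simp
    · rw [ind_not_mem hz]
      rcases ind_zero_or_one BK z with h' | h' <;> simp [h']
  have hcin_nonneg : 0 ≤ cin :=
    Finset.sum_nonneg fun z _ => mul_nonneg (ind_nonneg _ _) (ind_nonneg _ _)
  have hcin_le : cin ≤ A.card := by
    rw [← hCscard, ← sum_ind Cs]
    refine Finset.sum_le_sum fun z _ => ?_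
    rcases ind_zero_or_one C z with h | h <;> rcases ind_zero_or_one Cs z with h' | h' <;>
        simp [h, h']
  have hcout_nonneg : 0 ≤ cout := by
    rw [hcout, ← sum_ind C, hcin, ← Finset.sum_sub_distrib]
    refine Finset.sum_nonneg fun z _ => ?_
    rcases ind_zero_or_one C z with h | h <;> rcases ind_zero_or_one Cs z with h' | h' <;>
        simp [h, h']
  have hrho : rho K A B C A BK Cs = (B.card : ℤ) + C.card - A.card - 2 * cout := by
    unfold rho ds3
    rw [ds_self, hdsB, hdsC]; ring
  have hdl : dl A B C = ((B.card : ℤ) + C.card - A.card)^2 - 4 * B.card * cout := by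
    unfold dl Q3
    rw [hN]
    have : cin = (C.card : ℤ) - cout := by rw [hcout]; ring
    rw [this]; ring
  by_cases hpos : dl A B C ≤ 0
  · left; exact hpos
  right
  obtain ⟨m, hm⟩ := hAper.dvd
  refine ⟨K, A, BK, Cs, ⟨hAper, hBKper, hCsper, m, ?_⟩, ?_, ?_⟩
  · rw [hCscard, hBKcard, hm]; ring
  · rw [hrho]
    by_contra hneg
    push Not at hneg
    apply hpos
    rw [hdl]
    have h1 : (0:ℤ) ≤ B.card := by positivity
    nlinarith
  · rw [hrho, hdl]
    have h3 : cin = (C.card : ℤ) - cout := by rw [hcout]; ring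
    nlinarith

end Pool.Agent.Lib_helper42.RS
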