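import Mathlib
import Pool.Agent.Lib_helper42.RS.Inv

/-!
The second order expansion of `dl` around a periodic triple.
-/

set_option autoImplicit false
set_option linter.unusedSectionVars false

namespace Pool.Agent.Lib_helper42.RS

open Finset

universe u

variable {G : Type u} [AddCommGroup G] [Fintype G] [DecidableEq G]
variable {Q : Type u} [AddCommGroup Q] [Fintype Q] [DecidableEq Q]

/-- `dl` for functions -/
def dlf (f g k : G → ℤ) : ℤ := 4 * tri f g k - Q3 (∑ x, f x) (∑ x, g x) (∑ x, k x)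

lemma dl_eq_dlf (A B C : Finset G) : dl A B C = dlf (ind A) (ind B) (ind C) := by
  unfold dl dlf N; rw [sum_ind, sum_ind, sum_ind]

/-- correlation -/
def cor (g k : G → ℤ) (x : G) : ℤ := ∑ y, g y * k (-(x + y))

lemma cor_comm (g k : G → ℤ) (x : G) : cor g k x = cor k g x := by
  unfold cor
  rw [sum_reflect x (fun u v => g u * k v)]
  exact Finset.sum_congr rfl fun y _ => mul_comm _ _

lemma tri_eq_cor (f g k : G → ℤ) : tri f g k = ∑ x, f x * cor g k x := by
  unfold tri cor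
  refine Finset.sum_congr rfl fun x _ => ?_
  rw [Finset.mul_sum]
  exact Finset.sum_congr rfl fun y _ => by ring

/-- second order terms -/
def e2 (f g k p q r : G → ℤ) (x y : G) : ℤ :=
  2 * p x * q y * (2 * k (-(x + y)) - 1) + 2 * p x * r (-(x + y)) * (2 * g y - 1) +
  2 * q y * r (-(x + y)) * (2 * f x - 1) + 4 * p x * q y * r (-(x + y))

lemma sum_e2 (f g k p q r : G → ℤ) :
    ∑ x, ∑ y, e2 f g k p q r x y =
      4 * tri p q k - 2 * (∑ x, p x) * (∑ x, q x) +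
      (4 * tri p g r - 2 * (∑ x, p x) * (∑ x, r x)) +
      (4 * tri f q r - 2 * (∑ x, q x) * (∑ x, r x)) + 4 * tri p q r := by
  have h1 : (∑ x, p x) * (∑ x, q x) = ∑ x, ∑ y, p x * q y := by
    rw [Finset.sum_mul_sum]
  have h2 : (∑ x, p x) * (∑ x, r x) = ∑ x, ∑ y, p x * r (-(x + y)) := (sum_mul_shift p r).symm
  have h3 : (∑ x, q x) * (∑ x, r x) = ∑ x, ∑ y, q y * r (-(x + y)) := (sum_mul_shift' q r).symm
  have e : 4 * tri p q k - 2 * (∑ x, p x) * (∑ x, q x) +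
      (4 * tri p g r - 2 * (∑ x, p x) * (∑ x, r x)) +
      (4 * tri f q r - 2 * (∑ x, q x) * (∑ x, r x)) + 4 * tri p q r =
      4 * tri p q k - 2 * ((∑ x, p x) * (∑ x, q x)) +
      (4 * tri p g r - 2 * ((∑ x, p x) * (∑ x, r x))) +
      (4 * tri f q r - 2 * ((∑ x, q x) * (∑ x, r x))) + 4 * tri p q r := by ring
  rw [e, h1, h2, h3]
  unfold tri
  simp only [Finset.mul_sum, ← Finset.sum_sub_distrib, ← Finset.sum_add_distrib]
  refine Finset.sum_congr rfl fun x _ => Finset.sum_congr rfl fun y _ => ?_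
  unfold e2; ring

lemma expand (f g k p q r : G → ℤ) :
    dlf (f + p) (g + q) (k + r) = dlf f g k
      + ∑ x, p x * (4 * cor g k x - 2 * (∑ y, g y + ∑ y, k y - ∑ y, f y))
      + ∑ x, q x * (4 * cor f k x - 2 * (∑ y, f y + ∑ y, k y - ∑ y, g y))
      + ∑ x, r x * (4 * cor f g x - 2 * (∑ y, f y + ∑ y, g y - ∑ y, k y))
      + (∑ x, p x)^2 + (∑ x, q x)^2 + (∑ x, r x)^2
      + ∑ x, ∑ y, e2 f g k p q r x y := by
  have s1 : ∀ (p c : G → ℤ) (t : ℤ), ∑ x, p x * (4 * c x - 2 * t) =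
      4 * ∑ x, p x * c x - 2 * t * ∑ x, p x := by
    intro p c t
    rw [Finset.mul_sum, Finset.mul_sum, ← Finset.sum_sub_distrib]
    exact Finset.sum_congr rfl fun x _ => by ring
  rw [sum_e2, s1, s1, s1, ← tri_eq_cor, ← tri_eq_cor, ← tri_eq_cor]
  have t2 : tri q f k = tri f q k := tri_swap12 _ _ _
  have t3 : tri r f g = tri f g r := by rw [tri_swap12, tri_swap23]
  rw [t2, t3]
  unfold dlf Q3
  simp only [tri_add1, tri_add2, tri_add3, Pi.add_apply, Finset.sum_add_distrib]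
  ring

/-- pointwise estimate for the second order terms -/
lemma e2_le {f g k p q r : G → ℤ} (x y : G)
    (hf : f x = 0 ∨ f x = 1) (hfp : f x + p x = 0 ∨ f x + p x = 1)
    (hg : g y = 0 ∨ g y = 1) (hgq : g y + q y = 0 ∨ g y + q y = 1)
    (hk : k (-(x + y)) = 0 ∨ k (-(x + y)) = 1)
    (hkr : k (-(x + y)) + r (-(x + y)) = 0 ∨ k (-(x + y)) + r (-(x + y)) = 1) :
    e2 f g k p q r x y ≤ 2 * |p x| * |q y| + 2 * |p x| * |r (-(x + y))| +
      2 * |q y| * |r (-(x + y))| -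
      4 * (((f x + p x) * (1 - f x)) * ((g y + q y) * (1 - g y)) *
        (1 - (k (-(x + y)) + r (-(x + y))) * k (-(x + y)))) := by
  unfold e2
  generalize f x = F at *
  generalize p x = P at *
  generalize g y = G at *
  generalize q y = Q at *
  generalize k (-(x + y)) = K at *
  generalize r (-(x + y)) = R at *
  have h1 : (F = 0 ∧ P = 0) ∨ (F = 0 ∧ P = 1) ∨ (F = 1 ∧ P = -1) ∨ (F = 1 ∧ P = 0) := by omega
  have h2 : (G = 0 ∧ Q = 0) ∨ (G = 0 ∧ Q = 1) ∨ (G = 1 ∧ Q = -1) ∨ (G = 1 ∧ Q = 0) := by omega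
  have h3 : (K = 0 ∧ R = 0) ∨ (K = 0 ∧ R = 1) ∨ (K = 1 ∧ R = -1) ∨ (K = 1 ∧ R = 0) := by omega
  clear hf hfp hg hgq hk hkr
  rcases h1 with ⟨rfl, rfl⟩ | ⟨rfl, rfl⟩ | ⟨rfl, rfl⟩ | ⟨rfl, rfl⟩ <;>
  rcases h2 with ⟨rfl, rfl⟩ | ⟨rfl, rfl⟩ | ⟨rfl, rfl⟩ | ⟨rfl, rfl⟩ <;>
  rcases h3 with ⟨rfl, rfl⟩ | ⟨rfl, rfl⟩ | ⟨rfl, rfl⟩ | ⟨rfl, rfl⟩ <;>
  norm_num

/-- the sum of second order terms -/
lemma sum_e2_le (A B C A1 B1 C1 : Finset G) :
    ∑ x, ∑ y, e2 (ind A1) (ind B1) (ind C1) (fun x => ind A x - ind A1 x)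
      (fun x => ind B x - ind B1 x) (fun x => ind C x - ind C1 x) x y ≤
    2 * ds A A1 * ds B B1 + 2 * ds A A1 * ds C C1 + 2 * ds B B1 * ds C C1
      - 4 * miss (A \ A1) (B \ B1) (C ∩ C1) := by
  have h1 : ds A A1 * ds B B1 = ∑ x, ∑ y, |ind A x - ind A1 x| * |ind B y - ind B1 y| := by
    unfold ds; rw [Finset.sum_mul_sum]
  have h2 : ds A A1 * ds C C1 =
      ∑ x, ∑ y, |ind A x - ind A1 x| * |ind C (-(x+y)) - ind C1 (-(x+y))| := by
    unfold ds
    exact (sum_mul_shift (fun x => |ind A x - ind A1 x|) (fun x => |ind C x - ind C1 x|)).symm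
  have h3 : ds B B1 * ds C C1 =
      ∑ x, ∑ y, |ind B y - ind B1 y| * |ind C (-(x+y)) - ind C1 (-(x+y))| := by
    unfold ds
    exact (sum_mul_shift' (fun x => |ind B x - ind B1 x|) (fun x => |ind C x - ind C1 x|)).symm
  have h4 : miss (A \ A1) (B \ B1) (C ∩ C1) = ∑ x, ∑ y,
      ((ind A x * (1 - ind A1 x)) * (ind B y * (1 - ind B1 y)) *
        (1 - ind C (-(x+y)) * ind C1 (-(x+y)))) := by
    unfold miss tri
    refine Finset.sum_congr rfl fun x _ => Finset.sum_congr rfl fun y _ => ?_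
    rw [ind_compl]
    have e1 : ∀ (S T : Finset G) (z : G), ind (S \ T) z = ind S z * (1 - ind T z) := by
      intro S T z; unfold ind; by_cases a : z ∈ S <;> by_cases b : z ∈ T <;> simp [a, b]
    have e2 : ∀ (S T : Finset G) (z : G), ind (S ∩ T) z = ind S z * ind T z := by
      intro S T z; unfold ind; by_cases a : z ∈ S <;> by_cases b : z ∈ T <;> simp [a, b]
    rw [e1, e1, e2]
  have h5 : 2 * ds A A1 * ds B B1 + 2 * ds A A1 * ds C C1 + 2 * ds B B1 * ds C C1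
      - 4 * miss (A \ A1) (B \ B1) (C ∩ C1) =
      2 * (ds A A1 * ds B B1) + 2 * (ds A A1 * ds C C1) + 2 * (ds B B1 * ds C C1)
      - 4 * miss (A \ A1) (B \ B1) (C ∩ C1) := by ring
  rw [h5, h1, h2, h3, h4]
  simp only [Finset.mul_sum, ← Finset.sum_sub_distrib, ← Finset.sum_add_distrib]
  refine Finset.sum_le_sum fun x _ => Finset.sum_le_sum fun y _ => ?_
  have := e2_le (f := ind A1) (g := ind B1) (k := ind C1) (p := fun x => ind A x - ind A1 x)
      (q := fun x => ind B x - ind B1 x) (r := fun x => ind C x - ind C1 x) x y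
      (ind_zero_or_one _ _) (by simpa using ind_zero_or_one A x)
      (ind_zero_or_one _ _) (by simpa using ind_zero_or_one B y)
      (ind_zero_or_one _ _) (by simpa using ind_zero_or_one C (-(x+y)))
  refine this.trans (le_of_eq ?_)
  simp only [add_sub_cancel]
  ring

/-! ### one-coset flips -/

/-- the first order coefficient in the quotient -/
def lin (f g k : Q → ℤ) (α : Q) : ℤ :=
  4 * cor g k α - 2 * (∑ y, g y + ∑ y, k y - ∑ y, f y)

lemma ind_flip (X : Finset Q) (α : Q) :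
    ind (symmDiff X {α}) = ind X + (fun x => if x = α then 1 - 2 * ind X α else 0) := by
  ext x
  simp only [Pi.add_apply]
  unfold ind
  by_cases h : x = α
  · subst h
    by_cases hx : x ∈ X <;> simp [hx, Finset.mem_symmDiff]
  · by_cases hx : x ∈ X <;> simp [hx, h, Finset.mem_symmDiff]

lemma e2_zero1 (f g k p : Q → ℤ) (x y : Q) : e2 f g k p 0 0 x y = 0 := by
  unfold e2; simp

lemma dl_flip1 (X Y Z : Finset Q) (α : Q) :
    dl (symmDiff X {α}) Y Z = dl X Y Z +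
      (1 - 2 * ind X α) * lin (ind X) (ind Y) (ind Z) α + 1 := by
  rw [dl_eq_dlf, dl_eq_dlf, ind_flip]
  have := expand (ind X) (ind Y) (ind Z)
    (fun x => if x = α then 1 - 2 * ind X α else 0) 0 0
  rw [add_zero, add_zero] at this
  rw [this]
  simp only [e2_zero1, Pi.zero_apply, Finset.sum_const_zero, zero_mul, ite_mul]
  rw [Finset.sum_ite_eq' univ α, Finset.sum_ite_eq' univ α]
  simp only [Finset.mem_univ, if_true]
  have hsq : (1 - 2 * ind X α)^2 = 1 := by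
    rcases ind_zero_or_one X α with h | h <;> rw [h] <;> norm_num
  rw [hsq]
  unfold lin
  ring

/-- first order coefficients, lifted -/
lemma cor_lft (φ : G →+ Q) (hφ : Function.Surjective φ) (Y Z : Finset Q) (x : G) :
    cor (ind (lft φ Y)) (ind (lft φ Z)) x = (Nat.card φ.ker : ℤ) * cor (ind Y) (ind Z) (φ x) := by
  unfold cor
  rw [← sum_comp φ hφ]
  refine Finset.sum_congr rfl fun y _ => ?_
  rw [ind_lft, ind_lft]; simp

lemma lin_lft (φ : G →+ Q) (hφ : Function.Surjective φ) (X Y Z : Finset Q) (x : G) :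
    4 * cor (ind (lft φ Y)) (ind (lft φ Z)) x -
      2 * (∑ y, ind (lft φ Y) y + ∑ y, ind (lft φ Z) y - ∑ y, ind (lft φ X) y) =
    (Nat.card φ.ker : ℤ) * lin (ind X) (ind Y) (ind Z) (φ x) := by
  rw [cor_lft φ hφ, sum_ind, sum_ind, sum_ind, card_lft φ hφ, card_lft φ hφ, card_lft φ hφ]
  unfold lin
  rw [sum_ind, sum_ind, sum_ind]; ring

/-- pointwise first-order estimate -/
lemma first_pt (φ : G →+ Q) (A : Finset G) (X : Finset Q) (l D0 : ℤ) (x : G)
    (h : (1 - 2 * ind X (φ x)) * l ≤ -(D0 + 1)) :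
    (ind A x - ind (lft φ X) x) * l ≤ -(D0 + 1) * |ind A x - ind (lft φ X) x| := by
  rw [ind_lft]
  rcases ind_zero_or_one A x with h1 | h1 <;> rcases ind_zero_or_one X (φ x) with h2 | h2 <;>
    rw [h2] at h <;> rw [h1, h2] <;> norm_num at h ⊢ <;> linarith

/-- all three flips have nonpositive `dl` -/
structure Flips (X Y Z : Finset Q) : Prop where
  f1 : ∀ α, dl (symmDiff X {α}) Y Z ≤ 0
  f2 : ∀ α, dl X (symmDiff Y {α}) Z ≤ 0
  f3 : ∀ α, dl X Y (symmDiff Z {α}) ≤ 0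

lemma Flips.swap12 {X Y Z : Finset Q} (h : Flips X Y Z) : Flips Y X Z :=
  ⟨fun α => by rw [dl_swap12]; exact h.f2 α, fun α => by rw [dl_swap12]; exact h.f1 α,
    fun α => by rw [dl_swap12]; exact h.f3 α⟩

lemma Flips.swap23 {X Y Z : Finset Q} (h : Flips X Y Z) : Flips X Z Y :=
  ⟨fun α => by rw [dl_swap23]; exact h.f1 α, fun α => by rw [dl_swap23]; exact h.f3 α,
    fun α => by rw [dl_swap23]; exact h.f2 α⟩

lemma Flips.lin1 {X Y Z : Finset Q} (h : Flips X Y Z) (α : Q) :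
    (1 - 2 * ind X α) * lin (ind X) (ind Y) (ind Z) α ≤ -(dl X Y Z + 1) := by
  have h1 := dl_flip1 X Y Z α
  have h2 := h.f1 α
  linarith

lemma Flips.lin2 {X Y Z : Finset Q} (h : Flips X Y Z) (α : Q) :
    (1 - 2 * ind Y α) * lin (ind Y) (ind X) (ind Z) α ≤ -(dl X Y Z + 1) := by
  rw [dl_swap12]; exact h.swap12.lin1 α

lemma Flips.lin3 {X Y Z : Finset Q} (h : Flips X Y Z) (α : Q) :
    (1 - 2 * ind Z α) * lin (ind Z) (ind X) (ind Y) α ≤ -(dl X Y Z + 1) := by
  rw [dl_swap23]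
  have := h.swap23.lin2 α
  exact this

/-- (U1)/(U2): the main estimate -/
lemma U2 (φ : G →+ Q) (hφ : Function.Surjective φ) (A B C : Finset G) (X Y Z : Finset Q)
    (hf : Flips X Y Z) :
    dl A B C ≤ (Nat.card φ.ker : ℤ)^2 * dl X Y Z
      - (Nat.card φ.ker : ℤ) * (dl X Y Z + 1) * ds3 A B C (lft φ X) (lft φ Y) (lft φ Z)
      + (ds3 A B C (lft φ X) (lft φ Y) (lft φ Z))^2
      - 4 * miss (A \ lft φ X) (B \ lft φ Y) (C ∩ lft φ Z) := by
  set h : ℤ := (Nat.card φ.ker : ℤ) with hh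
  have hpos : 0 ≤ h := by positivity
  rw [dl_eq_dlf A B C]
  have e1 : ind A = ind (lft φ X) + (fun x => ind A x - ind (lft φ X) x) := by
    ext x; simp
  have e2 : ind B = ind (lft φ Y) + (fun x => ind B x - ind (lft φ Y) x) := by
    ext x; simp
  have e3 : ind C = ind (lft φ Z) + (fun x => ind C x - ind (lft φ Z) x) := by
    ext x; simp
  have hexp := expand (ind (lft φ X)) (ind (lft φ Y)) (ind (lft φ Z))
    (fun x => ind A x - ind (lft φ X) x) (fun x => ind B x - ind (lft φ Y) x)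
    (fun x => ind C x - ind (lft φ Z) x)
  rw [← e1, ← e2, ← e3] at hexp
  rw [hexp, ← dl_eq_dlf, dl_lft φ hφ, ← hh]
  have hle := sum_e2_le A B C (lft φ X) (lft φ Y) (lft φ Z)
  -- first order terms
  have first : ∀ (A : Finset G) (X Y Z : Finset Q) (D0 : ℤ),
      (∀ α, (1 - 2 * ind X α) * lin (ind X) (ind Y) (ind Z) α ≤ -(D0 + 1)) →
      ∑ x, (ind A x - ind (lft φ X) x) * (4 * cor (ind (lft φ Y)) (ind (lft φ Z)) x -
      2 * (∑ y, ind (lft φ Y) y + ∑ y, ind (lft φ Z) y - ∑ y, ind (lft φ X) y)) ≤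
      - h * (D0 + 1) * ds A (lft φ X) := by
    intro A X Y Z D0 hl
    unfold ds
    rw [Finset.mul_sum]
    refine Finset.sum_le_sum fun x _ => ?_
    rw [lin_lft φ hφ]
    have := first_pt φ A X (lin (ind X) (ind Y) (ind Z) (φ x)) D0 x (hl (φ x))
    have h3 := mul_le_mul_of_nonneg_left this hpos
    calc (ind A x - ind (lft φ X) x) * (h * lin (ind X) (ind Y) (ind Z) (φ x))
        = h * ((ind A x - ind (lft φ X) x) * lin (ind X) (ind Y) (ind Z) (φ x)) := by ring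
      _ ≤ h * (-(D0 + 1) * |ind A x - ind (lft φ X) x|) := h3
      _ = _ := by ring
  have F1 := first A X Y Z (dl X Y Z) hf.lin1
  have F2 := first B Y X Z (dl X Y Z) hf.lin2
  have F3 := first C Z X Y (dl X Y Z) hf.lin3
  have sq : ∀ (A : Finset G) (X : Finset G), (∑ x, (ind A x - ind X x))^2 ≤ (ds A X)^2 := by
    intro A X
    rw [sq_le_sq]
    unfold ds
    refine (Finset.abs_sum_le_sum_abs _ _).trans ?_
    exact le_abs_self _
  have S1 := sq A (lft φ X)
  have S2 := sq B (lft φ Y)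
  have S3 := sq C (lft φ Z)
  have hd : ds3 A B C (lft φ X) (lft φ Y) (lft φ Z) =
    ds A (lft φ X) + ds B (lft φ Y) + ds C (lft φ Z) := rfl
  rw [hd]
  nlinarith [F1, F2, F3, S1, S2, S3, hle]

end Pool.Agent.Lib_helper42.RS
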