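import Mathlib
import Pool.Agent.Lib_helper42.RS.Expand

/-!
The structural lemma: a good triple with `dl > 1` is close to a strictly separated
periodic triple.
-/

set_option autoImplicit false
set_option linter.unusedSectionVars false

namespace Pool.Agent.Lib_helper42.RS

open Finset

universe u

variable {G : Type u} [AddCommGroup G] [Fintype G] [DecidableEq G]
variable {Q : Type u} [AddCommGroup Q] [Fintype Q] [DecidableEq Q]

lemma symmDiff_comm_set {α : Type*} [DecidableEq α] (A B : Finset α) :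
    symmDiff A B = symmDiff B A := symmDiff_comm A B

lemma card_flip_odd (X : Finset Q) (α : Q) :
    ((symmDiff X {α}).card : ℤ) = X.card + (1 - 2 * ind X α) := by
  rw [← sum_ind, ← sum_ind, ind_flip]
  simp only [Pi.add_apply, Finset.sum_add_distrib]
  rw [Finset.sum_ite_eq' univ α]; simp

lemma ds_flip (X : Finset Q) (α : Q) : ds X (symmDiff X {α}) = 1 := by
  unfold ds
  rw [ind_flip]
  have : ∀ x, |ind X x - (ind X + fun x => if x = α then 1 - 2 * ind X α else 0) x| =
      if x = α then 1 else 0 := by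
    intro x
    simp only [Pi.add_apply]
    by_cases h : x = α
    · rw [if_pos h, if_pos h]
      rcases ind_zero_or_one X α with h1 | h1 <;> rw [h1] <;> simp
    · rw [if_neg h, if_neg h]; simp
  rw [Finset.sum_congr rfl fun x _ => this x, Finset.sum_ite_eq' univ α]; simp

lemma card_pos_sub (H : AddSubgroup G) : (1:ℤ) ≤ Nat.card H := by
  have : 0 < Nat.card H := Nat.card_pos
  omega

lemma card_le_G (H : AddSubgroup G) : (Nat.card H : ℤ) ≤ Fintype.card G := by
  have h : Nat.card H ≤ Nat.card G :=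
    Nat.card_le_card_of_injective (fun x : H => (x : G)) Subtype.val_injective
  rw [Nat.card_eq_fintype_card (α := G)] at h
  exact_mod_cast h

/-- existence of a maximal structure -/
lemma exists_max (A B C : Finset G) (H0 : AddSubgroup G) (X0 Y0 Z0 : Finset G)
    (h0 : InO H0 X0 Y0 Z0) :
    ∃ (H : AddSubgroup G) (X Y Z : Finset G), InO H X Y Z ∧
      rho H0 A B C X0 Y0 Z0 ≤ rho H A B C X Y Z ∧
      (∀ (K : AddSubgroup G) (X' Y' Z' : Finset G), InO K X' Y' Z' →
        rho K A B C X' Y' Z' ≤ rho H A B C X Y Z ∧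
        (rho K A B C X' Y' Z' = rho H A B C X Y Z → Nat.card K ≤ Nat.card H)) := by
  classical
  set n : ℤ := (Fintype.card G : ℤ) with hn
  have hex := Int.exists_greatest_of_bdd (P := fun key : ℤ =>
    ∃ (H : AddSubgroup G) (X Y Z : Finset G), InO H X Y Z ∧
      key = rho H A B C X Y Z * (n + 1) + Nat.card H)
    ⟨n * (n + 1) + n, by
      rintro z ⟨H, X, Y, Z, _, hz⟩
      have h1 := card_le_G H
      have h2 : rho H A B C X Y Z ≤ n := by
        unfold rho
        have := ds3_nonneg A B C X Y Z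
        linarith
      have h3 : 0 ≤ n := by positivity
      rw [hz]
      nlinarith⟩
    ⟨_, H0, X0, Y0, Z0, h0, rfl⟩
  obtain ⟨ub, ⟨H, X, Y, Z, hO, hub⟩, hmax⟩ := hex
  have key : ∀ (K : AddSubgroup G) (X' Y' Z' : Finset G), InO K X' Y' Z' →
        rho K A B C X' Y' Z' ≤ rho H A B C X Y Z ∧
        (rho K A B C X' Y' Z' = rho H A B C X Y Z → Nat.card K ≤ Nat.card H) := by
    intro K X' Y' Z' hK
    have h1 := hmax _ ⟨K, X', Y', Z', hK, rfl⟩
    rw [hub] at h1
    have hH1 := card_pos_sub H
    have hK1 := card_pos_sub K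
    have hH2 := card_le_G H
    have hK2 := card_le_G K
    constructor
    · by_contra hlt
      push Not at hlt
      nlinarith
    · intro he
      rw [he] at h1
      have : (Nat.card K : ℤ) ≤ Nat.card H := by linarith
      exact_mod_cast this
  exact ⟨H, X, Y, Z, hO, (key H0 X0 Y0 Z0 h0).1, key⟩

/-- The structural lemma. -/
lemma struct (hQ : ∀ (Q : Type u) [AddCommGroup Q] [Fintype Q] [DecidableEq Q],
      Fintype.card Q < Fintype.card G → ∀ X Y Z : Finset Q, Good X Y Z)
    (A B C : Finset G) (hg : Good A B C) (hd : 1 < dl A B C) :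
    ∃ (Q : Type u) (_ : AddCommGroup Q) (_ : Fintype Q) (_ : DecidableEq Q) (φ : G →+ Q)
      (X Y Z : Finset Q), Function.Surjective φ ∧ Odd ((X.card : ℤ) + Y.card + Z.card) ∧
      Flips X Y Z ∧ dl X Y Z = 1 ∧
      2 ≤ (Nat.card φ.ker : ℤ) - ds3 A B C (lft φ X) (lft φ Y) (lft φ Z) ∧
      dl A B C ≤ ((Nat.card φ.ker : ℤ) - ds3 A B C (lft φ X) (lft φ Y) (lft φ Z))^2 := by
  classical
  rcases hg with hg | ⟨H0, X0, Y0, Z0, hO0, hr0, hd0⟩
  · omega
  obtain ⟨H, X', Y', Z', hO, hle, hmax⟩ := exists_max A B C H0 X0 Y0 Z0 hO0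
  have hr2 : 2 ≤ rho H A B C X' Y' Z' := by
    have : 2 ≤ rho H0 A B C X0 Y0 Z0 := by
      by_contra hlt; push Not at hlt; nlinarith
    linarith
  have hdl : dl A B C ≤ (rho H A B C X' Y' Z')^2 := by nlinarith
  let _ : Fintype (G ⧸ H) := Fintype.ofFinite _
  set φ : G →+ G ⧸ H := QuotientAddGroup.mk' H with hφ
  have hker : φ.ker = H := QuotientAddGroup.ker_mk' H
  have hsurj : Function.Surjective φ := QuotientAddGroup.mk'_surjective H
  obtain ⟨hX, hY, hZ, k, hk⟩ := hO
  rw [← hker] at hX hY hZ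
  have eX := per_eq_lft φ X' hX
  have eY := per_eq_lft φ Y' hY
  have eZ := per_eq_lft φ Z' hZ
  set X := X'.image φ with hXdef
  set Y := Y'.image φ with hYdef
  set Z := Z'.image φ with hZdef
  have hH1 := card_pos_sub H
  have hcardker : (Nat.card φ.ker : ℤ) = Nat.card H := by rw [hker]
  have hrho : rho H A B C X' Y' Z' =
      (Nat.card φ.ker : ℤ) - ds3 A B C (lft φ X) (lft φ Y) (lft φ Z) := by
    unfold rho; rw [hcardker, ← eX, ← eY, ← eZ]
  have hodd : (X.card : ℤ) + Y.card + Z.card = 2 * k + 1 := by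
    rw [eX, eY, eZ, card_lft φ hsurj, card_lft φ hsurj, card_lft φ hsurj, hcardker] at hk
    have : (Nat.card H : ℤ) * ((X.card : ℤ) + Y.card + Z.card) = Nat.card H * (2 * k + 1) := by
      linarith
    exact mul_left_cancel₀ (by omega) this
  -- size of the quotient
  have hcardH : 2 ≤ (Nat.card H : ℤ) := by
    have h1 := ds3_nonneg A B C X' Y' Z'
    unfold rho at hr2; linarith
  have hlt : Fintype.card (G ⧸ H) < Fintype.card G := by
    have h1 := card_G φ hsurj
    rw [hcardker] at h1
    have h2 : (1:ℤ) ≤ Fintype.card (G ⧸ H) := by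
      have : 0 < Fintype.card (G ⧸ H) := Fintype.card_pos
      omega
    have : (Fintype.card (G ⧸ H) : ℤ) < Fintype.card G := by rw [h1]; nlinarith
    exact_mod_cast this
  have hgood := hQ (G ⧸ H) hlt
  -- comparison
  have hcomp : ∀ (X2 Y2 Z2 : Finset (G ⧸ H)) (t : ℤ),
      ds3 (lft φ X) (lft φ Y) (lft φ Z) (lft φ X2) (lft φ Y2) (lft φ Z2) ≤
        (Nat.card H : ℤ) * t → t ≤ 1 → 1 < dl X2 Y2 Z2 → False := by
    intro X2 Y2 Z2 t ht ht1 hdl2
    obtain ⟨K, X3, Y3, Z3, hK, h2⟩ := good_quot φ hsurj X2 Y2 Z2 (hgood X2 Y2 Z2) hdl2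
    have h3 : rho H A B C X' Y' Z' ≤ rho K A B C X3 Y3 Z3 := by
      have t1 := ds3_triangle A B C (lft φ X2) (lft φ Y2) (lft φ Z2) X3 Y3 Z3
      have t2 := ds3_triangle A B C (lft φ X) (lft φ Y) (lft φ Z)
        (lft φ X2) (lft φ Y2) (lft φ Z2)
      rw [hrho]
      unfold rho at h2 ⊢
      rw [hcardker] at *
      have h5 : (Nat.card H : ℤ) * t ≤ Nat.card H := by nlinarith
      linarith
    obtain ⟨m1, m2⟩ := hmax K X3 Y3 Z3 hK
    have h4 := m2 (le_antisymm m1 h3)
    have h5 : rho K (lft φ X2) (lft φ Y2) (lft φ Z2) X3 Y3 Z3 ≤ Nat.card K := by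
      unfold rho
      have := ds3_nonneg (lft φ X2) (lft φ Y2) (lft φ Z2) X3 Y3 Z3
      linarith
    rw [hcardker] at h2
    have h6 : (Nat.card K : ℤ) ≤ Nat.card H := by exact_mod_cast h4
    linarith
  have hflips : Flips X Y Z := by
    refine ⟨fun α => ?_, fun α => ?_, fun α => ?_⟩
    · by_contra hpos
      push Not at hpos
      have he : Even (((symmDiff X {α}).card : ℤ) + Y.card + Z.card) := by
        rw [card_flip_odd]
        rcases ind_zero_or_one X α with h | h <;> rw [h]
        · exact ⟨k + 1, by linarith⟩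
        · exact ⟨k, by linarith⟩
      have h4 := four_le_dl_of_even hpos he
      refine hcomp (symmDiff X {α}) Y Z 1 ?_ le_rfl (by linarith)
      rw [ds3_lft φ hsurj, hcardker]
      unfold ds3
      rw [ds_flip, ds_self, ds_self]; simp
    · by_contra hpos
      push Not at hpos
      have he : Even ((X.card : ℤ) + (symmDiff Y {α}).card + Z.card) := by
        rw [card_flip_odd]
        rcases ind_zero_or_one Y α with h | h <;> rw [h]
        · exact ⟨k + 1, by linarith⟩
        · exact ⟨k, by linarith⟩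
      have h4 := four_le_dl_of_even hpos he
      refine hcomp X (symmDiff Y {α}) Z 1 ?_ le_rfl (by linarith)
      rw [ds3_lft φ hsurj, hcardker]
      unfold ds3
      rw [ds_flip, ds_self, ds_self]; simp
    · by_contra hpos
      push Not at hpos
      have he : Even ((X.card : ℤ) + Y.card + (symmDiff Z {α}).card) := by
        rw [card_flip_odd]
        rcases ind_zero_or_one Z α with h | h <;> rw [h]
        · exact ⟨k + 1, by linarith⟩
        · exact ⟨k, by linarith⟩
      have h4 := four_le_dl_of_even hpos he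
      refine hcomp X Y (symmDiff Z {α}) 1 ?_ le_rfl (by linarith)
      rw [ds3_lft φ hsurj, hcardker]
      unfold ds3
      rw [ds_flip, ds_self, ds_self]; simp
  have hD1 : dl X Y Z ≤ 1 := by
    by_contra hgt
    push Not at hgt
    refine hcomp X Y Z 0 ?_ (by norm_num) hgt
    unfold ds3
    rw [ds_self, ds_self, ds_self]; simp
  have hU := U2 φ hsurj A B C X Y Z hflips
  obtain ⟨m, hm⟩ := dl_odd_mod (A := X) (B := Y) (C := Z) ⟨k, hodd⟩
  have hD : dl X Y Z = 1 := by
    by_contra hne
    have hm2 : dl X Y Z ≤ -3 := by omega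
    have hmiss := miss_nonneg (A \ lft φ X) (B \ lft φ Y) (C ∩ lft φ Z)
    rw [hcardker] at hU hrho
    set F := ds3 A B C (lft φ X) (lft φ Y) (lft φ Z) with hF
    have hF0 : 0 ≤ F := ds3_nonneg _ _ _ _ _ _
    have hFh : 2 ≤ (Nat.card H : ℤ) - F := by rw [← hrho]; exact hr2
    set h : ℤ := (Nat.card H : ℤ) with hh
    have : h^2 * dl X Y Z - h * (dl X Y Z + 1) * F + F^2 = (h - F) * (h * dl X Y Z - F) := by
      ring
    have h7 : (h - F) * (h * dl X Y Z - F) ≤ 0 := by
      apply mul_nonpos_of_nonneg_of_nonpos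
      · linarith
      · nlinarith
    linarith
  refine ⟨G ⧸ H, inferInstance, inferInstance, inferInstance, φ, X, Y, Z, hsurj,
    ⟨k, hodd⟩, hflips, hD, ?_, ?_⟩
  · rw [← hrho]; exact hr2
  · rw [← hrho]; exact hdl

/-! ### consequences of separation -/

lemma cor_eq_card (Y Z : Finset Q) (α : Q) :
    cor (ind Y) (ind Z) α = ((Y.filter (fun β => -(α + β) ∈ Z)).card : ℤ) := by
  rw [← sum_ind]
  unfold cor
  refine Finset.sum_congr rfl fun β _ => ?_
  unfold ind
  by_cases h1 : β ∈ Y <;> by_cases h2 : -(α + β) ∈ Z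
  · simp only [h1, h2, Finset.mem_filter, and_self, if_true]; norm_num
  · simp only [h1, h2, Finset.mem_filter, and_false, if_true, if_false]; norm_num
  · simp only [h1, Finset.mem_filter, false_and, if_false]; norm_num
  · simp only [h1, Finset.mem_filter, false_and, if_false]; norm_num

/-- separation inequality, outside -/
lemma Flips.sep_out {X Y Z : Finset Q} (h : Flips X Y Z) (hd : dl X Y Z = 1) {α : Q}
    (hα : α ∉ X) :
    2 * cor (ind Y) (ind Z) α ≤ (Y.card : ℤ) + Z.card - X.card - 1 := by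
  have := h.lin1 α
  rw [ind_not_mem hα, hd] at this
  unfold lin at this
  rw [sum_ind, sum_ind, sum_ind] at this
  linarith

/-- separation inequality, inside -/
lemma Flips.sep_in {X Y Z : Finset Q} (h : Flips X Y Z) (hd : dl X Y Z = 1) {α : Q}
    (hα : α ∈ X) :
    (Y.card : ℤ) + Z.card - X.card + 1 ≤ 2 * cor (ind Y) (ind Z) α := by
  have := h.lin1 α
  rw [ind_mem hα, hd] at this
  unfold lin at this
  rw [sum_ind, sum_ind, sum_ind] at this
  linarith

/-- if the first set is empty then the other two are trivial -/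
lemma Flips.empty1 {X Y Z : Finset Q} (h : Flips X Y Z) (hd : dl X Y Z = 1)
    (hX : X = ∅) : (Y = ∅ ∧ Z = univ) ∨ (Y = univ ∧ Z = ∅) := by
  subst hX
  have hz1 : ∀ α, cor (ind (∅ : Finset Q)) (ind Z) α = 0 := by
    intro α; rw [cor_eq_card]; simp
  have hz2 : ∀ α, cor (ind (∅ : Finset Q)) (ind Y) α = 0 := by
    intro α; rw [cor_eq_card]; simp
  have hY : ∀ α, (α ∉ Y → (1:ℤ) ≤ (Z.card : ℤ) - Y.card) ∧
      (α ∈ Y → (Z.card : ℤ) - Y.card ≤ -1) := by
    intro α
    constructor
    · intro hα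
      have := h.swap12.sep_out (by rw [dl_swap12]; exact hd) hα
      rw [hz1] at this; simp at this; linarith
    · intro hα
      have := h.swap12.sep_in (by rw [dl_swap12]; exact hd) hα
      rw [hz1] at this; simp at this; linarith
  have hZ : ∀ α, (α ∉ Z → (1:ℤ) ≤ (Y.card : ℤ) - Z.card) ∧
      (α ∈ Z → (Y.card : ℤ) - Z.card ≤ -1) := by
    intro α
    have hdl : dl Z (∅ : Finset Q) Y = 1 := by
      rw [dl_swap12, dl_swap23]; exact hd
    constructor
    · intro hα
      have := h.swap23.swap12.sep_out hdl hα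
      rw [hz2] at this; simp at this; linarith
    · intro hα
      have := h.swap23.swap12.sep_in hdl hα
      rw [hz2] at this; simp at this; linarith
  rcases lt_trichotomy ((Z.card : ℤ) - Y.card) 0 with hlt | heq | hgt
  · right
    constructor
    · rw [Finset.eq_univ_iff_forall]; intro α
      by_contra hα
      have := (hY α).1 hα; linarith
    · rw [Finset.eq_empty_iff_forall_notMem]; intro α hα
      have := (hZ α).2 hα; linarith
  · exfalso
    by_cases h0 : (0:Q) ∈ Y
    · have := (hY 0).2 h0; linarith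
    · have := (hY 0).1 h0; linarith
  · left
    constructor
    · rw [Finset.eq_empty_iff_forall_notMem]; intro α hα
      have := (hY α).2 hα; linarith
    · rw [Finset.eq_univ_iff_forall]; intro α
      by_contra hα
      have := (hZ α).1 hα; linarith

/-- If `A1, B1` are disjoint, for each `α` outside both there is `γ ∈ C1` with
`-(α+γ)` outside both. -/
lemma exists_edge {X Y Z : Finset Q} (h : Flips X Y Z) (hd : dl X Y Z = 1)
    {α : Q} (hαX : α ∉ X) (hαY : α ∉ Y) :
    ∃ γ ∈ Z, -(α + γ) ∉ X ∧ -(α + γ) ∉ Y := by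
  have h1 := h.sep_out hd hαX
  have h2 := h.swap12.sep_out (by rw [dl_swap12]; exact hd) hαY
  rw [cor_comm, cor_eq_card] at h1 h2
  by_contra hcon
  push Not at hcon
  have hle : (Z.card : ℤ) ≤ ((Z.filter (fun β => -(α + β) ∈ Y)).card : ℤ) +
      ((Z.filter (fun β => -(α + β) ∈ X)).card : ℤ) := by
    have : Z ⊆ (Z.filter (fun β => -(α + β) ∈ Y)) ∪ (Z.filter (fun β => -(α + β) ∈ X)) := by
      intro γ hγ
      rw [Finset.mem_union, Finset.mem_filter, Finset.mem_filter]
      by_cases hx : -(α + γ) ∈ X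
      · right; exact ⟨hγ, hx⟩
      · left; exact ⟨hγ, hcon γ hγ hx⟩
    have h3 := (Finset.card_le_card this).trans (Finset.card_union_le _ _)
    exact_mod_cast h3
  linarith

end Pool.Agent.Lib_helper42.RS
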