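import Mathlib
import Pool.Agent.Lib_helper42.RS.Struct

/-!
Shrinking the subgroup of a structure for a triple whose third set lies in one fibre.
-/

set_option autoImplicit false
set_option linter.unusedSectionVars false

namespace Pool.Agent.Lib_helper42.RS

open Finset

universe u

variable {G : Type u} [AddCommGroup G] [Fintype G] [DecidableEq G]
variable {Q : Type u} [AddCommGroup Q] [Fintype Q] [DecidableEq Q]

/-- coset as finset -/
noncomputable def cos (L : AddSubgroup G) (z : G) : Finset G := by
  classical exact univ.filter (fun x => x - z ∈ L)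

lemma mem_cos {L : AddSubgroup G} {z x : G} : x ∈ cos L z ↔ x - z ∈ L := by
  classical
  unfold cos; simp

lemma card_cos (L : AddSubgroup G) (z : G) : (cos L z).card = Nat.card L := by
  classical
  rw [Nat.card_eq_fintype_card]
  have h1 : Fintype.card L = (univ.filter (fun y => y ∈ L)).card := by
    rw [Fintype.card_of_subtype]; intro x; simp
  rw [h1]
  symm
  refine Finset.card_bij (fun x _ => x + z) ?_ ?_ ?_
  · intro x hx; rw [mem_cos]; simpa using hx
  · intro a _ b _ h; simpa using h
  · intro y hy
    rw [mem_cos] at hy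
    exact ⟨y - z, by simpa using hy, by simp⟩

lemma cos_subset {L : AddSubgroup G} {Z : Finset G} (hZ : Per L Z) {z : G} (hz : z ∈ Z) :
    cos L z ⊆ Z := by
  intro x hx
  rw [mem_cos] at hx
  have := (hZ z (x - z) hx).mpr hz
  simpa using this

/-- lower bound for the distance by a subset disjoint from one of the sets -/
lemma card_le_ds_of_disjoint {A X S : Finset G} (hSX : S ⊆ X) (hSA : Disjoint S A) :
    (S.card : ℤ) ≤ ds A X := by
  rw [← sum_ind]
  refine Finset.sum_le_sum fun x _ => ?_
  by_cases hx : x ∈ S
  · rw [ind_mem hx, ind_mem (hSX hx), ind_not_mem (Finset.disjoint_left.mp hSA hx)]; simp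
  · rw [ind_not_mem hx]; exact abs_nonneg _

lemma contained {L : AddSubgroup G} (φ : G →+ Q) (hL : L ≤ φ.ker) {A X : Finset G}
    {K : Finset Q} (hX : Per L X) (hA : A ⊆ lft φ K) (hd : ds A X < Nat.card L) :
    X ⊆ lft φ K := by
  intro x hx
  by_contra hnot
  have h1 : ((cos L x).card : ℤ) ≤ ds A X := by
    refine card_le_ds_of_disjoint (cos_subset hX hx) ?_
    rw [Finset.disjoint_left]
    intro y hy hyA
    apply hnot
    have h2 := hA hyA
    rw [mem_lft] at h2 ⊢
    rw [mem_cos] at hy
    have h3 := hL hy
    rw [AddMonoidHom.mem_ker, map_sub, sub_eq_zero] at h3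
    rw [← h3]; exact h2
  rw [card_cos] at h1
  linarith

/-- half of each coset lies outside a fibre -/
lemma half_outside {L : AddSubgroup G} (φ : G →+ Q) {t : G} (ht : t ∈ L) (htφ : φ t ≠ 0)
    (z : G) (γ : Q) :
    (Nat.card L : ℤ) ≤ 2 * (((cos L z).filter (fun x => φ x ≠ γ)).card : ℤ) := by
  classical
  have h1 : ((cos L z).filter (fun x => φ x = γ)).card ≤
      ((cos L z).filter (fun x => φ x ≠ γ)).card := by
    refine Finset.card_le_card_of_injOn (fun x => x + t) ?_ ?_
    · intro x hx
      have hx' := Finset.mem_filter.mp (Finset.mem_coe.mp hx)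
      simp only [Finset.coe_filter, Set.mem_ofPred_eq, mem_cos]
      have h3 := mem_cos.mp hx'.1
      constructor
      · have : x + t - z = (x - z) + t := by abel
        rw [this]; exact L.add_mem h3 ht
      · rw [map_add, hx'.2]; intro h; apply htφ; simpa using h
    · intro a _ b _ h; simpa using h
  have h2 : (cos L z).card = ((cos L z).filter (fun x => φ x = γ)).card +
      ((cos L z).filter (fun x => φ x ≠ γ)).card := by
    rw [Finset.card_filter_add_card_filter_not]
  rw [card_cos] at h2
  have h3 : Nat.card L ≤ 2 * ((cos L z).filter (fun x => φ x ≠ γ)).card := by omega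
  exact_mod_cast h3

/-- different periodic sets are at distance at least the size of the group -/
lemma card_le_ds_of_ne {L : AddSubgroup G} {X Y : Finset G} (hX : Per L X) (hY : Per L Y)
    (hne : X ≠ Y) : (Nat.card L : ℤ) ≤ ds X Y := by
  classical
  have h1 : (symmDiff X Y).Nonempty := by
    rw [Finset.nonempty_iff_ne_empty]
    intro h
    apply hne
    have : symmDiff X Y = ⊥ := h
    exact symmDiff_eq_bot.mp this
  obtain ⟨x, hx⟩ := h1
  have hper : Per L (symmDiff X Y) := by
    intro y t ht
    rw [Finset.mem_symmDiff, Finset.mem_symmDiff, hX y t ht, hY y t ht]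
  have h2 := Finset.card_le_card (cos_subset hper hx)
  rw [card_cos] at h2
  rw [ds_eq_card]
  exact_mod_cast h2

lemma shrink (φ : G →+ Q) (γ0 : Q) {A B C : Finset G} (hC : ∀ x ∈ C, φ x = γ0)
    (hy : ds A B < C.card) {L : AddSubgroup G} {X Y Z : Finset G} (hO : InO L X Y Z)
    (hr : 0 < rho L A B C X Y Z) :
    ∃ (L' : AddSubgroup G) (Z' : Finset G), L' ≤ φ.ker ∧ InO L' X Y Z' ∧
      rho L' A B C X Y Z' = rho L A B C X Y Z := by
  classical
  by_cases hL : L ≤ φ.ker
  · exact ⟨L, Z, hL, hO, rfl⟩
  obtain ⟨hX, hY, hZ, k, hk⟩ := hO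
  obtain ⟨t, ht, htφ'⟩ := SetLike.not_le_iff_exists.mp hL
  have htφ : φ t ≠ 0 := fun h => htφ' (by rw [AddMonoidHom.mem_ker]; exact h)
  have hdA := ds_nonneg A X
  have hdB := ds_nonneg B Y
  have hdC := ds_nonneg C Z
  have hrho : rho L A B C X Y Z = (Nat.card L : ℤ) - (ds A X + ds B Y + ds C Z) := rfl
  -- Z is nonempty
  have hZne : Z.Nonempty := by
    by_contra hcon
    rw [Finset.not_nonempty_iff_eq_empty] at hcon
    subst hcon
    have hXY : X ≠ Y := by
      intro h
      subst h
      obtain ⟨m, hm⟩ := hX.dvd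
      rw [hm] at hk
      simp only [Finset.card_empty, Nat.cast_zero, add_zero] at hk
      have hpos := card_pos_sub L
      have : (Nat.card L : ℤ) * (2 * m) = Nat.card L * (2 * k + 1) := by linarith
      have := mul_left_cancel₀ (by omega) this
      omega
    have h1 := card_le_ds_of_ne hX hY hXY
    have h2 := ds_triangle X A Y
    have h3 := ds_triangle A B Y
    rw [ds_comm X A] at h2
    rw [ds_empty] at hrho
    linarith
  -- all elements of Z are in one coset
  obtain ⟨z1, hz1⟩ := hZne
  have hone : Z = cos L z1 := by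
    refine Finset.Subset.antisymm ?_ (cos_subset hZ hz1)
    intro z2 hz2
    by_contra hnot
    have hdisj : Disjoint ((cos L z1).filter (fun x => φ x ≠ γ0))
        ((cos L z2).filter (fun x => φ x ≠ γ0)) := by
      rw [Finset.disjoint_left]
      intro x hx1 hx2
      rw [Finset.mem_filter, mem_cos] at hx1 hx2
      apply hnot
      rw [mem_cos]
      have : z2 - z1 = (x - z1) - (x - z2) := by abel
      rw [this]
      exact L.sub_mem hx1.1 hx2.1
    have h1 := half_outside φ ht htφ z1 γ0
    have h2 := half_outside φ ht htφ z2 γ0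
    have h3 := Finset.card_union_of_disjoint hdisj
    have h4 : ((((cos L z1).filter (fun x => φ x ≠ γ0)) ∪
        ((cos L z2).filter (fun x => φ x ≠ γ0))).card : ℤ) ≤ ds C Z := by
      refine card_le_ds_of_disjoint ?_ ?_
      · intro x hx
        rw [Finset.mem_union, Finset.mem_filter, Finset.mem_filter] at hx
        rcases hx with hx | hx
        · exact cos_subset hZ hz1 hx.1
        · exact cos_subset hZ hz2 hx.1
      · rw [Finset.disjoint_left]
        intro x hx hxC
        rw [Finset.mem_union, Finset.mem_filter, Finset.mem_filter] at hx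
        rcases hx with hx | hx
        · exact hx.2 (hC x hxC)
        · exact hx.2 (hC x hxC)
    rw [h3] at h4
    push_cast at h4
    linarith
  have hZcard : (Z.card : ℤ) = Nat.card L := by rw [hone, card_cos]
  -- the intersection with the fibre is nonempty
  have hex : ∃ z ∈ Z, φ z = γ0 := by
    by_contra hcon
    push Not at hcon
    have : (Z.card : ℤ) ≤ ds C Z := by
      refine card_le_ds_of_disjoint (Finset.Subset.refl _) ?_
      rw [Finset.disjoint_left]
      intro x hx hxC
      exact hcon x hx (hC x hxC)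
    linarith
  obtain ⟨z0, hz0, hφz0⟩ := hex
  set L' := L ⊓ φ.ker with hL'
  have hle : L' ≤ L := inf_le_left
  set Z' := Z.filter (fun x => φ x = γ0) with hZ'
  have hZ'eq : Z' = cos L' z0 := by
    ext x
    rw [hZ', Finset.mem_filter, mem_cos, hL', AddSubgroup.mem_inf, AddMonoidHom.mem_ker,
      map_sub, hφz0, sub_eq_zero]
    constructor
    · rintro ⟨h1, h2⟩
      refine ⟨?_, h2⟩
      rw [hone, mem_cos] at h1 hz0
      have : x - z0 = (x - z1) - (z0 - z1) := by abel
      rw [this]; exact L.sub_mem h1 hz0
    · rintro ⟨h1, h2⟩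
      refine ⟨?_, h2⟩
      have := (hZ z0 (x - z0) h1).mpr hz0
      simpa using this
  have hZ'card : (Z'.card : ℤ) = Nat.card L' := by rw [hZ'eq, card_cos]
  have hperZ' : Per L' Z' := by
    intro x u hu
    rw [hZ', Finset.mem_filter, Finset.mem_filter]
    rw [hL', AddSubgroup.mem_inf, AddMonoidHom.mem_ker] at hu
    rw [map_add, hu.2, add_zero, hZ x u hu.1]
  -- divisibility
  have hperL : Per L' (cos L (0:G)) := by
    intro x u hu
    rw [mem_cos, mem_cos]
    have : x + u - 0 = (x - 0) + u := by abel
    rw [this]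
    exact AddSubgroup.add_mem_cancel_right L (hle hu)
  obtain ⟨m, hm⟩ := hperL.dvd
  rw [card_cos] at hm
  refine ⟨L', Z', inf_le_right, ⟨hX.mono hle, hY.mono hle, hperZ', k * m, ?_⟩, ?_⟩
  · rw [hZcard] at hk
    rw [hZ'card]
    have : (X.card : ℤ) + Y.card = 2 * k * Nat.card L := by linarith
    rw [this, hm]; ring
  · have hdC' : ds C Z = ds C Z' + ((Z.card : ℤ) - Z'.card) := by
      rw [← sum_ind Z, ← sum_ind Z', ← Finset.sum_sub_distrib]
      unfold ds
      rw [← Finset.sum_add_distrib]
      refine Finset.sum_congr rfl fun x _ => ?_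
      by_cases hx : φ x = γ0
      · have : ind Z x = ind Z' x := by
          unfold ind
          have : x ∈ Z ↔ x ∈ Z' := by rw [hZ', Finset.mem_filter]; simp [hx]
          simp only [this]
        rw [this]; ring
      · have h1 : x ∉ C := fun h => hx (hC x h)
        have h2 : x ∉ Z' := by rw [hZ', Finset.mem_filter]; simp [hx]
        rw [ind_not_mem h1, ind_not_mem h2]
        rcases ind_zero_or_one Z x with h | h <;> rw [h] <;> simp
    unfold rho ds3
    rw [hdC', hZcard, hZ'card]; ring

end Pool.Agent.Lib_helper42.RS
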