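import Mathlib
import Pool.Agent.Lib_helper42.RS.Shrink
import Pool.Agent.Lib_helper42.RS.LemmaD

/-!
The core of the induction step.
-/

set_option autoImplicit false
set_option linter.unusedSectionVars false

namespace Pool.Agent.Lib_helper42.RS

open Finset

universe u

variable {G : Type u} [AddCommGroup G] [Fintype G] [DecidableEq G]
variable {Q : Type u} [AddCommGroup Q] [Fintype Q] [DecidableEq Q]

/-- fibre -/
def fib (φ : G →+ Q) (α : Q) : Finset G := univ.filter (fun x => φ x = α)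

@[simp] lemma mem_fib {φ : G →+ Q} {α : Q} {x : G} : x ∈ fib φ α ↔ φ x = α := by simp [fib]

def eQ (φ : G →+ Q) (A B : Finset G) (α : Q) : ℤ := ∑ x ∈ fib φ α, |ind A x - ind B x|
def iQ (φ : G →+ Q) (A B : Finset G) (α : Q) : ℤ := ∑ x ∈ fib φ α, ind A x * ind B x
def vQ (φ : G →+ Q) (A B : Finset G) (α : Q) : ℤ :=
  ∑ x ∈ fib φ α, (1 - ind A x) * (1 - ind B x)
def kQ (φ : G →+ Q) (C : Finset G) (γ : Q) : ℤ := ∑ x ∈ fib φ γ, (1 - ind C x)

/-- bilinear count over a pair of fibres -/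
def bil (φ : G →+ Q) (f g k : G → ℤ) (α γ : Q) : ℤ :=
  ∑ y ∈ fib φ α, ∑ z ∈ fib φ γ, f y * g z * k (-(y + z))

def cellQ (φ : G →+ Q) (A B C : Finset G) (α γ : Q) : ℤ :=
  bil φ (fun y => ind A y * ind B y) (ind C) (fun w => (1 - ind A w) * (1 - ind B w)) α γ

lemma sum_fib_eq (φ : G →+ Q) (F : G → ℤ) : ∑ x, F x = ∑ α, ∑ x ∈ fib φ α, F x :=
  sum_fiber φ F

lemma sum_fib_filter (φ : G →+ Q) (F : G → ℤ) (K : Finset Q) :
    ∑ x, (if φ x ∈ K then F x else 0) = ∑ α ∈ K, ∑ x ∈ fib φ α, F x := by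
  rw [sum_fib_eq φ]
  rw [← Finset.sum_subset (Finset.subset_univ K)]
  · refine Finset.sum_congr rfl fun α hα => Finset.sum_congr rfl fun x hx => ?_
    rw [mem_fib] at hx
    rw [hx, if_pos hα]
  · intro α _ hα
    refine Finset.sum_eq_zero fun x hx => ?_
    rw [mem_fib] at hx
    rw [hx, if_neg hα]

lemma sum_fib2 (φ : G →+ Q) (F : G → G → ℤ) (P : Finset (Q × Q)) :
    ∑ y, ∑ z, (if (φ y, φ z) ∈ P then F y z else 0) =
      ∑ p ∈ P, ∑ y ∈ fib φ p.1, ∑ z ∈ fib φ p.2, F y z := by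
  have h1 : ∑ y, ∑ z, (if (φ y, φ z) ∈ P then F y z else 0) =
      ∑ α, ∑ γ, ∑ y ∈ fib φ α, ∑ z ∈ fib φ γ, (if (φ y, φ z) ∈ P then F y z else 0) := by
    rw [sum_fib_eq φ]
    refine Finset.sum_congr rfl fun α _ => ?_
    rw [Finset.sum_comm]
    rw [sum_fib_eq φ]
    refine Finset.sum_congr rfl fun γ _ => ?_
    rw [Finset.sum_comm]
  rw [h1, ← Finset.sum_product', Finset.univ_product_univ]
  rw [← Finset.sum_subset (Finset.subset_univ P)]
  · refine Finset.sum_congr rfl fun p hp => Finset.sum_congr rfl fun y hy =>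
      Finset.sum_congr rfl fun z hz => ?_
    rw [mem_fib] at hy hz
    rw [hy, hz, if_pos hp]
  · intro p _ hp
    refine Finset.sum_eq_zero fun y hy => Finset.sum_eq_zero fun z hz => ?_
    rw [mem_fib] at hy hz
    rw [hy, hz, if_neg hp]

lemma fib_card (φ : G →+ Q) (hφ : Function.Surjective φ) (α : Q) :
    ((fib φ α).card : ℤ) = Nat.card φ.ker := by
  unfold fib; rw [fiber_card φ hφ]

/-- reindexing a fibre sum by `z ↦ -(y+z)` -/
lemma fib_reflect (φ : G →+ Q) {α γ : Q} {y : G} (hy : φ y = α) (k : G → ℤ) :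
    ∑ z ∈ fib φ γ, k (-(y + z)) = ∑ w ∈ fib φ (-(α + γ)), k w := by
  refine Finset.sum_bij (fun z _ => -(y + z)) ?_ ?_ ?_ ?_
  · intro z hz; rw [mem_fib] at hz ⊢; rw [map_neg, map_add, hy, hz]
  · intro a _ b _ h; simpa using h
  · intro w hw
    rw [mem_fib] at hw
    refine ⟨-(y + w), ?_, by abel⟩
    rw [mem_fib, map_neg, map_add, hy, hw]; abel
  · intro z _; rfl

lemma bil_swap (φ : G →+ Q) (f g k : G → ℤ) (α γ : Q) :
    bil φ f g k α γ = bil φ k g f (-(α + γ)) γ := by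
  unfold bil
  rw [Finset.sum_comm, Finset.sum_comm (s := fib φ (-(α + γ)))]
  refine Finset.sum_congr rfl fun z hz => ?_
  rw [mem_fib] at hz
  refine Finset.sum_bij (fun y _ => -(y + z)) ?_ ?_ ?_ ?_
  · intro y hy; rw [mem_fib] at hy ⊢; rw [map_neg, map_add, hy, hz]
  · intro a _ b _ h; simpa using h
  · intro w hw
    rw [mem_fib] at hw
    refine ⟨-(w + z), ?_, by abel⟩
    rw [mem_fib, map_neg, map_add, hw, hz]; abel
  · intro y _
    have : -(-(y + z) + z) = y := by abel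
    rw [this]; ring

lemma bil_lower (φ : G →+ Q) (f g k : G → ℤ) (hf : ∀ x, 0 ≤ f x)
    (hg : ∀ x, g x = 0 ∨ g x = 1) (hk0 : ∀ x, 0 ≤ k x) (hk1 : ∀ x, k x ≤ 1) (α γ : Q) :
    (∑ y ∈ fib φ α, f y) * ((∑ w ∈ fib φ (-(α + γ)), k w) - ∑ z ∈ fib φ γ, (1 - g z)) ≤
      bil φ f g k α γ := by
  unfold bil
  rw [Finset.sum_mul]
  refine Finset.sum_le_sum fun y hy => ?_
  rw [mem_fib] at hy
  have : ∑ z ∈ fib φ γ, f y * g z * k (-(y + z)) = f y * ∑ z ∈ fib φ γ, g z * k (-(y + z)) := by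
    rw [Finset.mul_sum]; exact Finset.sum_congr rfl fun z _ => by ring
  rw [this]
  apply mul_le_mul_of_nonneg_left _ (hf y)
  rw [← fib_reflect φ hy k, ← Finset.sum_sub_distrib]
  refine Finset.sum_le_sum fun z _ => ?_
  have h0 := hk0 (-(y + z))
  have h1 := hk1 (-(y + z))
  rcases hg z with h | h <;> rw [h] <;> linarith

lemma cell_nonneg (φ : G →+ Q) (A B C : Finset G) (α γ : Q) : 0 ≤ cellQ φ A B C α γ := by
  unfold cellQ bil
  refine Finset.sum_nonneg fun y _ => Finset.sum_nonneg fun z _ => ?_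
  have a1 := ind_nonneg A y
  have a2 := ind_nonneg B y
  have a3 := ind_nonneg C z
  have a4 := ind_le_one A (-(y + z))
  have a5 := ind_le_one B (-(y + z))
  apply mul_nonneg (mul_nonneg (mul_nonneg a1 a2) a3)
  apply mul_nonneg <;> linarith

lemma cell_lower1 (φ : G →+ Q) (A B C : Finset G) (α γ : Q) :
    iQ φ A B α * (vQ φ A B (-(α + γ)) - kQ φ C γ) ≤ cellQ φ A B C α γ := by
  unfold iQ vQ kQ cellQ
  refine bil_lower φ (fun y => ind A y * ind B y) (ind C)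
    (fun w => (1 - ind A w) * (1 - ind B w)) ?_ (ind_zero_or_one C) ?_ ?_ α γ
  · intro x; exact mul_nonneg (ind_nonneg _ _) (ind_nonneg _ _)
  · intro x
    have a4 := ind_le_one A x
    have a5 := ind_le_one B x
    apply mul_nonneg <;> linarith
  · intro x
    rcases ind_zero_or_one A x with h | h <;> rcases ind_zero_or_one B x with h' | h' <;>
      simp [h, h']

lemma cell_lower2 (φ : G →+ Q) (A B C : Finset G) (α γ : Q) :
    vQ φ A B (-(α + γ)) * (iQ φ A B α - kQ φ C γ) ≤ cellQ φ A B C α γ := by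
  unfold cellQ
  rw [bil_swap]
  have := bil_lower φ (fun w => (1 - ind A w) * (1 - ind B w)) (ind C)
    (fun y => ind A y * ind B y) (fun x => by
      have a4 := ind_le_one A x
      have a5 := ind_le_one B x
      apply mul_nonneg <;> linarith) (ind_zero_or_one C)
    (fun x => mul_nonneg (ind_nonneg _ _) (ind_nonneg _ _)) (fun x => by
      rcases ind_zero_or_one A x with h | h <;> rcases ind_zero_or_one B x with h' | h' <;>
      simp [h, h']) (-(α + γ)) γ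
  have e : -(-(α + γ) + γ) = α := by abel
  rw [e] at this
  exact this

lemma e_i_v (φ : G →+ Q) (hφ : Function.Surjective φ) (A B : Finset G) (α : Q) :
    eQ φ A B α + iQ φ A B α + vQ φ A B α = Nat.card φ.ker := by
  rw [← fib_card φ hφ α]
  unfold eQ iQ vQ
  rw [← Finset.sum_add_distrib, ← Finset.sum_add_distrib, Finset.card_eq_sum_ones]
  push_cast
  refine Finset.sum_congr rfl fun x _ => ?_
  rcases ind_zero_or_one A x with h | h <;> rcases ind_zero_or_one B x with h' | h' <;>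
      simp [h, h']

lemma eQ_nonneg (φ : G →+ Q) (A B : Finset G) (α : Q) : 0 ≤ eQ φ A B α :=
  Finset.sum_nonneg fun _ _ => abs_nonneg _

lemma iQ_nonneg (φ : G →+ Q) (A B : Finset G) (α : Q) : 0 ≤ iQ φ A B α :=
  Finset.sum_nonneg fun _ _ => mul_nonneg (ind_nonneg _ _) (ind_nonneg _ _)

lemma vQ_nonneg (φ : G →+ Q) (A B : Finset G) (α : Q) : 0 ≤ vQ φ A B α := by
  refine Finset.sum_nonneg fun x _ => ?_
  have a4 := ind_le_one A x
  have a5 := ind_le_one B x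
  apply mul_nonneg <;> linarith

lemma kQ_nonneg (φ : G →+ Q) (C : Finset G) (γ : Q) : 0 ≤ kQ φ C γ := by
  refine Finset.sum_nonneg fun x _ => ?_
  have a4 := ind_le_one C x
  linarith

/-- the data fixed in Case U -/
structure CU (G : Type u) [AddCommGroup G] [Fintype G] [DecidableEq G]
    (Q : Type u) [AddCommGroup Q] [Fintype Q] [DecidableEq Q] where
  A : Finset G
  B : Finset G
  C : Finset G
  φ : G →+ Q
  hφ : Function.Surjective φ
  X : Finset Q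
  Y : Finset Q
  Z : Finset Q
  hodd : Odd ((X.card : ℤ) + Y.card + Z.card)
  hflips : Flips X Y Z
  hdl : dl X Y Z = 1
  hρ : 2 ≤ (Nat.card φ.ker : ℤ) - ds3 (A \ B) (B \ A) C (lft φ X) (lft φ Y) (lft φ Z)
  hdisj : Disjoint X Y
  γ0 : Q
  hγ0 : γ0 ∈ Z
  hmax : ∀ γ ∈ Z, kQ φ C γ ≤ kQ φ C γ0
  hXne : X.Nonempty
  hYne : Y.Nonempty

namespace CU

variable (c : CU G Q)

noncomputable def h : ℤ := Nat.card c.φ.ker
def F : ℤ := ds3 (c.A \ c.B) (c.B \ c.A) c.C (lft c.φ c.X) (lft c.φ c.Y) (lft c.φ c.Z)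
def J : Finset Q := univ.filter (fun α => α ∉ c.X ∧ α ∉ c.Y)
def K : Finset Q := c.J.filter (fun α => -(α + c.γ0) ∈ c.J ∧
  (∀ γ ∈ c.Z, -(α + γ) ∈ c.J → γ = c.γ0) ∧
  (∀ γ ∈ c.Z, -(-(α + c.γ0) + γ) ∈ c.J → γ = c.γ0))
def Jr : Finset Q := c.J \ c.K

lemma mem_J {α : Q} : α ∈ c.J ↔ α ∉ c.X ∧ α ∉ c.Y := by simp [J]

lemma K_sub_J : c.K ⊆ c.J := Finset.filter_subset _ _

lemma mem_K {α : Q} : α ∈ c.K ↔ α ∈ c.J ∧ -(α + c.γ0) ∈ c.J ∧
  (∀ γ ∈ c.Z, -(α + γ) ∈ c.J → γ = c.γ0) ∧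
  (∀ γ ∈ c.Z, -(-(α + c.γ0) + γ) ∈ c.J → γ = c.γ0) := by
  unfold K; rw [Finset.mem_filter]

lemma refl0 (α γ : Q) : -(-(α + γ) + γ) = α := by abel

lemma K_refl {α : Q} (hα : α ∈ c.K) : -(α + c.γ0) ∈ c.K := by
  rw [mem_K] at hα ⊢
  obtain ⟨h1, h2, h3, h4⟩ := hα
  refine ⟨h2, ?_, h4, ?_⟩
  · rw [refl0]; exact h1
  · rw [refl0]; exact h3

lemma mem_Jr {α : Q} : α ∈ c.Jr ↔ α ∈ c.J ∧ α ∉ c.K := by unfold Jr; rw [Finset.mem_sdiff]

/-- sum lower bound for `F`. -/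
lemma F_lower : ∑ α ∈ c.J, eQ c.φ c.A c.B α + ∑ γ ∈ c.Z, kQ c.φ c.C γ ≤ c.F := by
  unfold F ds3 eQ kQ
  rw [← sum_fib_filter c.φ, ← sum_fib_filter c.φ]
  have h1 : ∑ x, (if c.φ x ∈ c.J then |ind c.A x - ind c.B x| else 0) ≤
      ds (c.A \ c.B) (lft c.φ c.X) + ds (c.B \ c.A) (lft c.φ c.Y) := by
    unfold ds
    rw [← Finset.sum_add_distrib]
    refine Finset.sum_le_sum fun x _ => ?_
    by_cases hx : c.φ x ∈ c.J
    · rw [if_pos hx, ind_lft, ind_lft]
      rw [mem_J] at hx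
      rw [ind_not_mem hx.1, ind_not_mem hx.2]
      unfold ind
      by_cases ha : x ∈ c.A <;> by_cases hb : x ∈ c.B <;> simp [ha, hb]
    · rw [if_neg hx]
      positivity
  have h2 : ∑ x, (if c.φ x ∈ c.Z then (1 - ind c.C x) else 0) ≤ ds c.C (lft c.φ c.Z) := by
    unfold ds
    refine Finset.sum_le_sum fun x _ => ?_
    by_cases hx : c.φ x ∈ c.Z
    · rw [if_pos hx, ind_lft, ind_mem hx]
      rw [abs_sub_comm]; exact le_abs_self _
    · rw [if_neg hx]; positivity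
  linarith

/-- The DData attached to the context. -/
noncomputable def dd : DData Q where
  J := c.J
  Jr := c.Jr
  Z := c.Z
  γ0 := c.γ0
  e := eQ c.φ c.A c.B
  i := iQ c.φ c.A c.B
  v := vQ c.φ c.A c.B
  κ := kQ c.φ c.C
  cell := cellQ c.φ c.A c.B c.C
  h := c.h
  F := c.F
  hγ0 := c.hγ0
  hsum := e_i_v c.φ c.hφ c.A c.B
  he := eQ_nonneg c.φ c.A c.B
  hi := iQ_nonneg c.φ c.A c.B
  hv := vQ_nonneg c.φ c.A c.B
  hκ := kQ_nonneg c.φ c.C
  hcell := cell_nonneg c.φ c.A c.B c.C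
  hmax := c.hmax
  hc1 := cell_lower1 c.φ c.A c.B c.C
  hc2 := cell_lower2 c.φ c.A c.B c.C
  hF1 := by
    intro β hβ γ hγ
    have h1 := Finset.single_le_sum (f := eQ c.φ c.A c.B)
      (fun x _ => eQ_nonneg c.φ c.A c.B x) hβ
    have h2 := Finset.single_le_sum (f := kQ c.φ c.C)
      (fun x _ => kQ_nonneg c.φ c.C x) hγ
    have h3 := c.F_lower
    linarith
  hF2 := by
    intro α hα β hβ hne γ hγ
    have h1 : eQ c.φ c.A c.B α + eQ c.φ c.A c.B β ≤ ∑ α ∈ c.J, eQ c.φ c.A c.B α := by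
      rw [← Finset.sum_pair hne]
      refine Finset.sum_le_sum_of_subset_of_nonneg ?_ (fun x _ _ => eQ_nonneg c.φ c.A c.B x)
      intro x hx
      rw [Finset.mem_insert, Finset.mem_singleton] at hx
      rcases hx with rfl | rfl <;> assumption
    have h2 := Finset.single_le_sum (f := kQ c.φ c.C)
      (fun x _ => kQ_nonneg c.φ c.C x) hγ
    have h3 := c.F_lower
    linarith
  hF3 := by
    intro β hβ γ hγ hne
    have h1 := Finset.single_le_sum (f := eQ c.φ c.A c.B)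
      (fun x _ => eQ_nonneg c.φ c.A c.B x) hβ
    have h2 : kQ c.φ c.C γ + kQ c.φ c.C c.γ0 ≤ ∑ γ ∈ c.Z, kQ c.φ c.C γ := by
      rw [← Finset.sum_pair hne]
      refine Finset.sum_le_sum_of_subset_of_nonneg ?_ (fun x _ _ => kQ_nonneg c.φ c.C x)
      intro x hx
      rw [Finset.mem_insert, Finset.mem_singleton] at hx
      rcases hx with rfl | rfl
      · exact hγ
      · exact c.hγ0
    have h3 := c.F_lower
    linarith
  hJr := Finset.sdiff_subset
  hedge := by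
    intro α hα
    have hJ := (c.mem_Jr.mp hα).1
    rw [mem_J] at hJ
    obtain ⟨γ, hγ, h1, h2⟩ := exists_edge c.hflips c.hdl hJ.1 hJ.2
    exact ⟨γ, hγ, c.mem_J.mpr ⟨h1, h2⟩⟩
  hclosed := by
    intro α hα γ hγ hJ
    rw [mem_Jr] at hα ⊢
    refine ⟨hJ, fun hK => hα.2 ?_⟩
    have h3 := (c.mem_K.mp hK).2.2.1 γ hγ
    rw [refl0] at h3
    have h4 := h3 hα.1
    subst h4
    have h5 := c.K_refl hK
    rw [refl0] at h5
    exact h5
  hnot := by
    intro α hα h1 h2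
    rw [mem_Jr] at hα
    by_contra hcon
    push Not at hcon
    apply hα.2
    rw [mem_K]
    refine ⟨hα.1, h2, h1, ?_⟩
    intro γ hγ h3
    by_contra hne
    exact hcon γ hγ hne h3

/-- core sets -/
def AK : Finset G := c.A.filter (fun x => c.φ x ∈ c.K)
def BK : Finset G := c.B.filter (fun x => c.φ x ∈ c.K)
def C0 : Finset G := c.C.filter (fun x => c.φ x = c.γ0)

lemma ind_AK (x : G) : ind c.AK x = if c.φ x ∈ c.K then ind c.A x else 0 := by
  unfold AK ind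
  by_cases h1 : c.φ x ∈ c.K <;> by_cases h2 : x ∈ c.A <;> simp [h1, h2]

lemma ind_BK (x : G) : ind c.BK x = if c.φ x ∈ c.K then ind c.B x else 0 := by
  unfold BK ind
  by_cases h1 : c.φ x ∈ c.K <;> by_cases h2 : x ∈ c.B <;> simp [h1, h2]

lemma ind_C0 (x : G) : ind c.C0 x = if c.φ x = c.γ0 then ind c.C x else 0 := by
  unfold C0 ind
  by_cases h1 : c.φ x = c.γ0 <;> by_cases h2 : x ∈ c.C <;> simp [h1, h2]

/-- total of the symmetric difference over the core -/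
def eK : ℤ := ∑ α ∈ c.K, eQ c.φ c.A c.B α

lemma eK_eq_ds : c.eK = ds c.AK c.BK := by
  unfold eK eQ ds
  rw [← sum_fib_filter c.φ]
  refine Finset.sum_congr rfl fun x _ => ?_
  rw [ind_AK, ind_BK]
  by_cases h : c.φ x ∈ c.K <;> simp [h]

lemma card_sdiff_add (S T : Finset G) : ((S \ T).card : ℤ) + (T \ S).card = ds S T := by
  rw [← sum_ind, ← sum_ind, ← Finset.sum_add_distrib]
  unfold ds
  refine Finset.sum_congr rfl fun x _ => ?_
  unfold ind
  by_cases h1 : x ∈ S <;> by_cases h2 : x ∈ T <;> simp [h1, h2]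

lemma card_C0 : (c.C0.card : ℤ) = c.h - kQ c.φ c.C c.γ0 := by
  rw [← sum_ind]
  unfold kQ h
  rw [Finset.sum_sub_distrib]
  have h1 : ∑ x ∈ fib c.φ c.γ0, (1:ℤ) = Nat.card c.φ.ker := by
    rw [← fib_card c.φ c.hφ c.γ0, Finset.card_eq_sum_ones]; push_cast; rfl
  rw [h1]
  have h2 : ∑ x, ind c.C0 x = ∑ x ∈ fib c.φ c.γ0, ind c.C x := by
    rw [Finset.sum_congr rfl fun x _ => c.ind_C0 x]
    unfold fib
    rw [Finset.sum_filter]
  rw [h2]; ring

/-- y -/
def y : ℤ := (c.C0.card : ℤ) - c.eK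

lemma miss_core_le :
    miss (c.AK \ c.BK) (c.BK \ c.AK) c.C0 ≤
      miss ((c.A \ c.B) \ lft c.φ c.X) ((c.B \ c.A) \ lft c.φ c.Y) (c.C ∩ lft c.φ c.Z) := by
  unfold miss tri
  refine Finset.sum_le_sum fun x _ => Finset.sum_le_sum fun y _ => ?_
  by_cases hx : x ∈ c.AK \ c.BK
  · by_cases hy : y ∈ c.BK \ c.AK
    · rw [Finset.mem_sdiff] at hx hy
      have hxA := hx.1
      have hyB := hy.1
      unfold AK at hxA
      unfold BK at hyB
      rw [Finset.mem_filter] at hxA hyB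
      have hxB : x ∉ c.B := by
        intro h; apply hx.2; unfold BK; rw [Finset.mem_filter]; exact ⟨h, hxA.2⟩
      have hyA : y ∉ c.A := by
        intro h; apply hy.2; unfold AK; rw [Finset.mem_filter]; exact ⟨h, hyB.2⟩
      have hxJ := c.mem_J.mp (c.K_sub_J hxA.2)
      have hyJ := c.mem_J.mp (c.K_sub_J hyB.2)
      have m1 : x ∈ (c.A \ c.B) \ lft c.φ c.X := by
        simp only [Finset.mem_sdiff, mem_lft]; exact ⟨⟨hxA.1, hxB⟩, hxJ.1⟩
      have m2 : y ∈ (c.B \ c.A) \ lft c.φ c.Y := by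
        simp only [Finset.mem_sdiff, mem_lft]; exact ⟨⟨hyB.1, hyA⟩, hyJ.2⟩
      rw [ind_mem m1, ind_mem m2]
      have b1 := ind_le_one (c.AK \ c.BK) x
      have b2 := ind_le_one (c.BK \ c.AK) y
      have b3 := ind_nonneg (c.AK \ c.BK) x
      have b4 := ind_nonneg (c.BK \ c.AK) y
      have b5 := ind_nonneg (c.C0ᶜ) (-(x+y))
      have b6 : ind (c.C0ᶜ) (-(x+y)) ≤ ind ((c.C ∩ lft c.φ c.Z)ᶜ) (-(x+y)) := by
        by_cases hz : -(x+y) ∈ (c.C ∩ lft c.φ c.Z)ᶜ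
        · rw [ind_mem hz]; exact ind_le_one _ _
        · rw [Finset.mem_compl, not_not, Finset.mem_inter, mem_lft] at hz
          have h3 := (c.mem_K.mp hxA.2).2.2.1 _ hz.2
          have h4 : -(c.φ x + c.φ (-(x+y))) = c.φ y := by
            rw [map_neg, map_add]; abel
          rw [h4] at h3
          have h5 := h3 (c.K_sub_J hyB.2)
          have h6 : -(x+y) ∈ c.C0 := by
            unfold C0; rw [Finset.mem_filter]; exact ⟨hz.1, h5⟩
          rw [ind_not_mem (by rw [Finset.mem_compl, not_not]; exact h6)]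
          exact ind_nonneg _ _
      have h7 : ind (c.AK \ c.BK) x * ind (c.BK \ c.AK) y ≤ 1 := by nlinarith
      have h8 : 0 ≤ ind (c.AK \ c.BK) x * ind (c.BK \ c.AK) y := by positivity
      nlinarith
    · rw [ind_not_mem hy]
      have := ind_nonneg ((c.A \ c.B) \ lft c.φ c.X) x
      have := ind_nonneg ((c.B \ c.A) \ lft c.φ c.Y) y
      have := ind_nonneg ((c.C ∩ lft c.φ c.Z)ᶜ) (-(x+y))
      rw [mul_zero, zero_mul]; positivity
  · rw [ind_not_mem hx]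
    have := ind_nonneg ((c.A \ c.B) \ lft c.φ c.X) x
    have := ind_nonneg ((c.B \ c.A) \ lft c.φ c.Y) y
    have := ind_nonneg ((c.C ∩ lft c.φ c.Z)ᶜ) (-(x+y))
    rw [zero_mul, zero_mul]; positivity

lemma R_eq : c.dd.R = ∑ y, ∑ z, (if (c.φ y, c.φ z) ∈ c.dd.P then
    (ind c.A y * ind c.B y) * ind c.C z *
      ((1 - ind c.A (-(y+z))) * (1 - ind c.B (-(y+z)))) else 0) := by
  rw [sum_fib2 c.φ]
  rfl

lemma def_lower :
    miss (c.AK ∩ c.BK) c.C0 (c.AK ∪ c.BK) + c.dd.R ≤ miss (c.A ∩ c.B) c.C (c.A ∪ c.B) := by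
  rw [R_eq]
  unfold miss tri
  rw [← Finset.sum_add_distrib]
  refine Finset.sum_le_sum fun y _ => ?_
  rw [← Finset.sum_add_distrib]
  refine Finset.sum_le_sum fun z _ => ?_
  have e1 : ∀ (S T : Finset G) (w : G), ind ((S ∪ T)ᶜ) w = (1 - ind S w) * (1 - ind T w) := by
    intro S T w; unfold ind; by_cases a : w ∈ S <;> by_cases b : w ∈ T <;> simp [a, b]
  have e2 : ∀ (S T : Finset G) (w : G), ind (S ∩ T) w = ind S w * ind T w := by
    intro S T w; unfold ind; by_cases a : w ∈ S <;> by_cases b : w ∈ T <;> simp [a, b]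
  rw [e1, e1, e2, e2]
  set V : ℤ := (1 - ind c.A (-(y+z))) * (1 - ind c.B (-(y+z))) with hV
  have hVnn : 0 ≤ V := by
    have a4 := ind_le_one c.A (-(y+z))
    have a5 := ind_le_one c.B (-(y+z))
    apply mul_nonneg <;> linarith
  have hInn : 0 ≤ ind c.A y * ind c.B y := mul_nonneg (ind_nonneg _ _) (ind_nonneg _ _)
  have hCnn := ind_nonneg c.C z
  by_cases hK : c.φ y ∈ c.K ∧ c.φ z = c.γ0
  · have hnP : (c.φ y, c.φ z) ∉ c.dd.P := by
      intro hP
      have h1 := (c.dd.mem_P.mp hP).1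
      have h2 : c.φ y ∈ c.Jr := h1
      exact (c.mem_Jr.mp h2).2 hK.1
    rw [if_neg hnP, add_zero, ind_AK, ind_BK, ind_C0, ind_AK, ind_BK, if_pos hK.1, if_pos hK.1,
      if_pos hK.2]
    have hw : c.φ (-(y+z)) ∈ c.K := by
      rw [map_neg, map_add, hK.2]; exact c.K_refl hK.1
    rw [if_pos hw, if_pos hw]
  · have h0 : ind c.AK y * ind c.BK y * ind c.C0 z = 0 := by
      rw [ind_AK, ind_BK, ind_C0]
      by_cases h1 : c.φ y ∈ c.K
      · have h2 : c.φ z ≠ c.γ0 := fun h => hK ⟨h1, h⟩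
        rw [if_neg h2]; ring
      · rw [if_neg h1]; ring
    rw [h0, zero_mul, zero_add]
    by_cases hP : (c.φ y, c.φ z) ∈ c.dd.P
    · rw [if_pos hP]
    · rw [if_neg hP]; positivity

/-- the core bound -/
lemma core_bound :
    dl c.A c.B c.C ≤ dl c.AK c.BK c.C0 - c.y^2 + (c.h - c.F)^2 - 4 * c.dd.R := by
  have h1 := dl_trans1 c.A c.B c.C
  have h2 := U2 c.φ c.hφ (c.A \ c.B) (c.B \ c.A) c.C c.X c.Y c.Z c.hflips
  rw [c.hdl] at h2
  have h3 := dl_trans1 c.AK c.BK c.C0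
  have h4 := dl_eq_miss (c.AK \ c.BK) (c.BK \ c.AK) c.C0
  rw [card_sdiff_add, ← eK_eq_ds] at h4
  have h5 := c.miss_core_le
  have h6 := c.def_lower
  have e1 : (Nat.card c.φ.ker : ℤ) = c.h := rfl
  have e2 : ds3 (c.A \ c.B) (c.B \ c.A) c.C (lft c.φ c.X) (lft c.φ c.Y) (lft c.φ c.Z) = c.F := rfl
  rw [e1, e2] at h2
  have e3 : (c.eK - (c.C0.card : ℤ))^2 = c.y^2 := by unfold y; ring
  rw [e3] at h4
  linarith

lemma dl_core_le : dl c.AK c.BK c.C0 ≤ c.y^2 := by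
  have h3 := dl_trans1 c.AK c.BK c.C0
  have h4 := dl_eq_miss (c.AK \ c.BK) (c.BK \ c.AK) c.C0
  rw [card_sdiff_add, ← eK_eq_ds] at h4
  have e3 : (c.eK - (c.C0.card : ℤ))^2 = c.y^2 := by unfold y; ring
  rw [e3] at h4
  have m1 := miss_nonneg (c.AK \ c.BK) (c.BK \ c.AK) c.C0
  have m2 := miss_nonneg (c.AK ∩ c.BK) c.C0 (c.AK ∪ c.BK)
  linarith

lemma rho_le_y : c.h - c.F ≤ c.y := by
  unfold y
  rw [card_C0]
  have h1 := c.F_lower
  have h2 : c.eK ≤ ∑ α ∈ c.J, eQ c.φ c.A c.B α := by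
    unfold eK
    exact Finset.sum_le_sum_of_subset_of_nonneg c.K_sub_J
      (fun x _ _ => eQ_nonneg c.φ c.A c.B x)
  have h3 := Finset.single_le_sum (f := kQ c.φ c.C)
      (fun x _ => kQ_nonneg c.φ c.C x) c.hγ0
  linarith

end CU

end Pool.Agent.Lib_helper42.RS
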