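import Mathlib
import Pool.Agent.Lib_helper42.RS.Core

/-!
Case U: conclusion.
-/

set_option autoImplicit false
set_option linter.unusedSectionVars false

namespace Pool.Agent.Lib_helper42.RS

open Finset

universe u

variable {G : Type u} [AddCommGroup G] [Fintype G] [DecidableEq G]
variable {Q : Type u} [AddCommGroup Q] [Fintype Q] [DecidableEq Q]

lemma arith_fin (dT dc y ρ R M r : ℤ) (hρ : 0 < ρ) (hy : ρ ≤ y) (hR : 0 ≤ R) (hM : 0 ≤ M)
    (hr : 0 ≤ r) (h1 : dT ≤ dc - y^2 + ρ^2 - 4 * R) (h2 : dc ≤ y^2) (h3 : dc ≤ r^2)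
    (hD1 : 2 * M ≤ ρ → M * (ρ - M) ≤ R) (hD2 : ρ ≤ 2 * M → ρ^2 ≤ 4 * R) (hpos : 0 < dT) :
    0 ≤ r - (y - ρ) - 2 * M ∧ dT ≤ (r - (y - ρ) - 2 * M)^2 := by
  obtain ⟨δ, hδ0, hδr, hδy, hδ⟩ : ∃ δ : ℤ, 0 ≤ δ ∧ δ ≤ r ∧ δ ≤ y ∧ dc ≤ δ^2 := by
    rcases le_total r y with h | h
    · exact ⟨r, hr, le_rfl, h, h3⟩
    · exact ⟨y, by linarith, h, le_rfl, h2⟩
  set f := y - ρ with hf
  have hf0 : 0 ≤ f := by linarith
  have hyf : y = ρ + f := by rw [hf]; ring
  set D := δ - f with hD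
  have hDρ : D ≤ ρ := by linarith
  have h4 : dT ≤ D^2 - 2 * f * (ρ - D) - 4 * R := by
    have : D^2 - 2 * f * (ρ - D) = δ^2 - y^2 + ρ^2 := by rw [hD, hyf]; ring
    rw [this]; linarith
  have hDpos : 0 < D := by
    by_contra hcon
    push Not at hcon
    have : δ^2 ≤ f^2 := by nlinarith
    have h5 : dT ≤ f^2 - y^2 + ρ^2 - 4 * R := by linarith
    rw [hyf] at h5
    nlinarith
  have hfp : 0 ≤ f * (ρ - D) := mul_nonneg hf0 (by linarith)
  by_cases hcase : ρ ≤ 2 * M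
  · exfalso
    have := hD2 hcase
    nlinarith
  push Not at hcase
  have hRR := hD1 hcase.le
  have hD2M : 2 * M ≤ D := by
    by_contra hcon
    push Not at hcon
    have h6 : 0 ≤ (2 * M - D) * (2 * ρ - 2 * M - D) := by
      apply mul_nonneg <;> linarith
    nlinarith
  have h7 : dT ≤ (D - 2 * M)^2 := by
    have : M * D ≤ M * ρ := mul_le_mul_of_nonneg_left hDρ hM
    nlinarith
  constructor
  · linarith
  · refine h7.trans ?_
    have h8 : D - 2 * M ≤ r - f - 2 * M := by linarith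
    have h9 : 0 ≤ D - 2 * M := by linarith
    nlinarith

lemma ind_union_disj {S T : Finset G} (h : Disjoint S T) (x : G) :
    ind (S ∪ T) x = ind S x + ind T x := by
  unfold ind
  by_cases a : x ∈ S <;> by_cases b : x ∈ T
  · exact absurd b (Finset.disjoint_left.mp h a)
  · simp [a, b]
  · simp [a, b]
  · simp [a, b]

lemma card_union_disj {S T : Finset G} (h : Disjoint S T) :
    ((S ∪ T).card : ℤ) = S.card + T.card := by
  rw [Finset.card_union_of_disjoint h]; push_cast; rfl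

lemma Per.union {H : AddSubgroup G} {S T : Finset G} (hS : Per H S) (hT : Per H T) :
    Per H (S ∪ T) := by
  intro x t ht
  rw [Finset.mem_union, Finset.mem_union, hS x t ht, hT x t ht]

lemma lft_disj (φ : G →+ Q) {S T : Finset Q} (h : Disjoint S T) :
    Disjoint (lft φ S) (lft φ T) := by
  rw [Finset.disjoint_left] at h ⊢
  intro x hx hx'
  rw [mem_lft] at hx hx'
  exact h hx hx'

lemma ker_mul {L : AddSubgroup G} (φ : G →+ Q) (hL : L ≤ φ.ker) :
    ∃ m : ℤ, (Nat.card φ.ker : ℤ) = m * Nat.card L := by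
  have hper : Per L (cos φ.ker (0:G)) := by
    intro x u hu
    rw [mem_cos, mem_cos]
    have : x + u - 0 = (x - 0) + u := by abel
    rw [this]
    exact AddSubgroup.add_mem_cancel_right φ.ker (hL hu)
  obtain ⟨m, hm⟩ := hper.dvd
  rw [card_cos] at hm
  exact ⟨m, hm⟩

namespace CU

variable (c : CU G Q)

/-- the cosets to be filled -/
noncomputable def F1 : Finset Q :=
  c.Jr.filter (fun α => vQ c.φ c.A c.B α < iQ c.φ c.A c.B α)

lemma F1_sub : c.F1 ⊆ c.Jr := Finset.filter_subset _ _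

lemma M_eq : c.dd.M = ∑ x, (if c.φ x ∈ c.Jr then
    (if c.φ x ∈ c.F1 then (1 - ind c.A x) * (1 - ind c.B x) else ind c.A x * ind c.B x)
    else 0) := by
  rw [sum_fib_filter c.φ]
  refine Finset.sum_congr rfl fun α hα => ?_
  have hα' : α ∈ c.Jr := hα
  by_cases h : vQ c.φ c.A c.B α < iQ c.φ c.A c.B α
  · have h1 : α ∈ c.F1 := Finset.mem_filter.mpr ⟨hα', h⟩
    have h2 : c.dd.s α = vQ c.φ c.A c.B α := min_eq_right h.le
    rw [h2]
    unfold vQ
    refine Finset.sum_congr rfl fun x hx => ?_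
    rw [mem_fib] at hx
    rw [hx, if_pos h1]
  · have h1 : α ∉ c.F1 := fun hh => h (Finset.mem_filter.mp hh).2
    have h2 : c.dd.s α = iQ c.φ c.A c.B α := min_eq_left (not_lt.mp h)
    rw [h2]
    unfold iQ
    refine Finset.sum_congr rfl fun x hx => ?_
    rw [mem_fib] at hx
    rw [hx, if_neg h1]

variable (X3 Y3 Z3 : Finset G)

noncomputable def As : Finset G := lft c.φ c.X ∪ lft c.φ c.F1 ∪ X3
noncomputable def Bs : Finset G := lft c.φ c.Y ∪ lft c.φ c.F1 ∪ Y3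
noncomputable def Cs : Finset G := lft c.φ (c.Z.erase c.γ0) ∪ Z3

lemma disj_XF1 : Disjoint c.X c.F1 := by
  rw [Finset.disjoint_left]; intro α h1 h2
  exact (c.mem_J.mp (c.mem_Jr.mp (c.F1_sub h2)).1).1 h1

lemma disj_YF1 : Disjoint c.Y c.F1 := by
  rw [Finset.disjoint_left]; intro α h1 h2
  exact (c.mem_J.mp (c.mem_Jr.mp (c.F1_sub h2)).1).2 h1

lemma disj_UK1 (hX3 : X3 ⊆ lft c.φ c.K) : Disjoint (lft c.φ c.X ∪ lft c.φ c.F1) X3 := by
  rw [Finset.disjoint_left]; intro x h1 h2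
  have h3 := hX3 h2
  rw [mem_lft] at h3
  rw [Finset.mem_union, mem_lft, mem_lft] at h1
  rcases h1 with h1 | h1
  · exact (c.mem_J.mp (c.K_sub_J h3)).1 h1
  · exact (c.mem_Jr.mp (c.F1_sub h1)).2 h3

lemma disj_UK2 (hY3 : Y3 ⊆ lft c.φ c.K) : Disjoint (lft c.φ c.Y ∪ lft c.φ c.F1) Y3 := by
  rw [Finset.disjoint_left]; intro x h1 h2
  have h3 := hY3 h2
  rw [mem_lft] at h3
  rw [Finset.mem_union, mem_lft, mem_lft] at h1
  rcases h1 with h1 | h1
  · exact (c.mem_J.mp (c.K_sub_J h3)).2 h1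
  · exact (c.mem_Jr.mp (c.F1_sub h1)).2 h3

lemma disj_UK3 (hZ3 : Z3 ⊆ lft c.φ {c.γ0}) : Disjoint (lft c.φ (c.Z.erase c.γ0)) Z3 := by
  rw [Finset.disjoint_left]; intro x h1 h2
  have h3 := hZ3 h2
  rw [mem_lft, Finset.mem_singleton] at h3
  rw [mem_lft, h3] at h1
  simp at h1

lemma ind_As (hX3 : X3 ⊆ lft c.φ c.K) (x : G) :
    ind (c.As X3) x = ind c.X (c.φ x) + ind c.F1 (c.φ x) + ind X3 x := by
  unfold As
  rw [ind_union_disj (c.disj_UK1 X3 hX3), ind_union_disj (lft_disj c.φ c.disj_XF1),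
    ind_lft, ind_lft]

lemma ind_Bs (hY3 : Y3 ⊆ lft c.φ c.K) (x : G) :
    ind (c.Bs Y3) x = ind c.Y (c.φ x) + ind c.F1 (c.φ x) + ind Y3 x := by
  unfold Bs
  rw [ind_union_disj (c.disj_UK2 Y3 hY3), ind_union_disj (lft_disj c.φ c.disj_YF1),
    ind_lft, ind_lft]

lemma ind_Cs (hZ3 : Z3 ⊆ lft c.φ {c.γ0}) (x : G) :
    ind (c.Cs Z3) x = ind (c.Z.erase c.γ0) (c.φ x) + ind Z3 x := by
  unfold Cs
  rw [ind_union_disj (c.disj_UK3 Z3 hZ3), ind_lft]

lemma ds_AB (hX3 : X3 ⊆ lft c.φ c.K) (hY3 : Y3 ⊆ lft c.φ c.K) :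
    ds c.A (c.As X3) + ds c.B (c.Bs Y3) =
      ds (c.A \ c.B) (lft c.φ c.X) + ds (c.B \ c.A) (lft c.φ c.Y) - c.eK +
      (ds c.AK X3 + ds c.BK Y3) + 2 * c.dd.M := by
  rw [M_eq]
  unfold eK eQ
  rw [← sum_fib_filter c.φ]
  unfold ds
  rw [Finset.mul_sum]
  simp only [← Finset.sum_add_distrib, ← Finset.sum_sub_distrib]
  refine Finset.sum_congr rfl fun x _ => ?_
  rw [c.ind_As X3 hX3, c.ind_Bs Y3 hY3, ind_lft, ind_lft, ind_AK, ind_BK]
  have e1 : ∀ (S T : Finset G) (z : G), ind (S \ T) z = ind S z * (1 - ind T z) := by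
      intro S T z; unfold ind; by_cases a : z ∈ S <;> by_cases b : z ∈ T <;> simp [a, b]
  rw [e1, e1]
  have hKX : c.φ x ∉ c.K → ind X3 x = 0 := fun h =>
    ind_not_mem (fun hx => h ((mem_lft _ _ _).mp (hX3 hx)))
  have hKY : c.φ x ∉ c.K → ind Y3 x = 0 := fun h =>
    ind_not_mem (fun hx => h ((mem_lft _ _ _).mp (hY3 hx)))
  by_cases hJ : c.φ x ∈ c.J
  · have hXY := c.mem_J.mp hJ
    rw [ind_not_mem hXY.1, ind_not_mem hXY.2]
    by_cases hK : c.φ x ∈ c.K
    · have hJr : c.φ x ∉ c.Jr := fun h => (c.mem_Jr.mp h).2 hK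
      have hF1 : c.φ x ∉ c.F1 := fun h => hJr (c.F1_sub h)
      rw [ind_not_mem hF1, if_neg hJr, if_pos hK, if_pos hK, if_pos hK]
      rcases ind_zero_or_one c.A x with h | h <;> rcases ind_zero_or_one c.B x with h' | h' <;>
        rw [h, h'] <;> simp
    · have hJr : c.φ x ∈ c.Jr := c.mem_Jr.mpr ⟨hJ, hK⟩
      rw [if_pos hJr, if_neg hK, if_neg hK, if_neg hK, hKX hK, hKY hK]
      by_cases hF1 : c.φ x ∈ c.F1
      · rw [ind_mem hF1, if_pos hF1]
        rcases ind_zero_or_one c.A x with h | h <;>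
          rcases ind_zero_or_one c.B x with h' | h' <;>
          rw [h, h'] <;> simp
      · rw [ind_not_mem hF1, if_neg hF1]
        rcases ind_zero_or_one c.A x with h | h <;>
          rcases ind_zero_or_one c.B x with h' | h' <;>
          rw [h, h'] <;> simp
  · have hK : c.φ x ∉ c.K := fun h => hJ (c.K_sub_J h)
    have hJr : c.φ x ∉ c.Jr := fun h => hJ (c.mem_Jr.mp h).1
    have hF1 : c.φ x ∉ c.F1 := fun h => hJr (c.F1_sub h)
    rw [ind_not_mem hF1, if_neg hJr, if_neg hK, if_neg hK, if_neg hK, hKX hK, hKY hK]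
    rw [mem_J, not_and_or, not_not, not_not] at hJ
    rcases hJ with hX | hY
    · have hY : c.φ x ∉ c.Y := Finset.disjoint_left.mp c.hdisj hX
      rw [ind_mem hX, ind_not_mem hY]
      rcases ind_zero_or_one c.A x with h | h <;>
          rcases ind_zero_or_one c.B x with h' | h' <;>
          rw [h, h'] <;> simp
    · have hX : c.φ x ∉ c.X := Finset.disjoint_right.mp c.hdisj hY
      rw [ind_mem hY, ind_not_mem hX]
      rcases ind_zero_or_one c.A x with h | h <;>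
          rcases ind_zero_or_one c.B x with h' | h' <;>
          rw [h, h'] <;> simp

lemma ds_CC (hZ3 : Z3 ⊆ lft c.φ {c.γ0}) :
    ds c.C (c.Cs Z3) = ds c.C (lft c.φ c.Z) - kQ c.φ c.C c.γ0 + ds c.C0 Z3 := by
  have hk : kQ c.φ c.C c.γ0 = ∑ x, (if c.φ x = c.γ0 then (1 - ind c.C x) else 0) := by
    unfold kQ fib; rw [Finset.sum_filter]
  rw [hk]
  unfold ds
  simp only [← Finset.sum_add_distrib, ← Finset.sum_sub_distrib]
  refine Finset.sum_congr rfl fun x _ => ?_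
  rw [c.ind_Cs Z3 hZ3, ind_lft, ind_C0]
  by_cases h0 : c.φ x = c.γ0
  · rw [if_pos h0, if_pos h0, h0, ind_mem c.hγ0]
    have : ind (c.Z.erase c.γ0) c.γ0 = 0 := ind_not_mem (by simp)
    rw [this]
    rcases ind_zero_or_one c.C x with h | h <;> rw [h] <;> simp
  · rw [if_neg h0, if_neg h0]
    have hz : ind Z3 x = 0 := ind_not_mem (fun hx => h0 (by
      have := hZ3 hx
      rw [mem_lft, Finset.mem_singleton] at this
      exact this))
    rw [hz]
    by_cases hZ : c.φ x ∈ c.Z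
    · rw [ind_mem hZ, ind_mem (Finset.mem_erase.mpr ⟨h0, hZ⟩)]; simp
    · rw [ind_not_mem hZ, ind_not_mem (fun h => hZ (Finset.mem_of_mem_erase h))]; simp

lemma inO_star {L : AddSubgroup G} (hL : L ≤ c.φ.ker) (hO : InO L X3 Y3 Z3)
    (hX3 : X3 ⊆ lft c.φ c.K) (hY3 : Y3 ⊆ lft c.φ c.K) (hZ3 : Z3 ⊆ lft c.φ {c.γ0}) :
    InO L (c.As X3) (c.Bs Y3) (c.Cs Z3) := by
  obtain ⟨h1, h2, h3, k, hk⟩ := hO
  have hl : ∀ S : Finset Q, Per L (lft c.φ S) := fun S => (per_lft c.φ S).mono hL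
  refine ⟨((hl _).union (hl _)).union h1, ((hl _).union (hl _)).union h2,
    (hl _).union h3, ?_⟩
  unfold As Bs Cs
  rw [card_union_disj (c.disj_UK1 X3 hX3), card_union_disj (lft_disj c.φ c.disj_XF1),
    card_union_disj (c.disj_UK2 Y3 hY3), card_union_disj (lft_disj c.φ c.disj_YF1),
    card_union_disj (c.disj_UK3 Z3 hZ3), card_lft c.φ c.hφ, card_lft c.φ c.hφ,
    card_lft c.φ c.hφ, card_lft c.φ c.hφ]
  obtain ⟨m, hm⟩ := ker_mul c.φ hL
  obtain ⟨j, hj⟩ := c.hodd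
  have he : ((c.Z.erase c.γ0).card : ℤ) = c.Z.card - 1 := by
    have := Finset.card_erase_add_one c.hγ0
    have h2 : ((c.Z.erase c.γ0).card : ℤ) + 1 = c.Z.card := by exact_mod_cast this
    linarith
  rw [he]
  refine ⟨m * (j + c.F1.card) + k, ?_⟩
  rw [hm]
  linear_combination hk + m * (Nat.card L : ℤ) * hj

/-- Case U, conclusion from goodness of the core. -/
theorem finish (hcore : Good c.AK c.BK c.C0) : Good c.A c.B c.C := by
  by_cases hpos : dl c.A c.B c.C ≤ 0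
  · left; exact hpos
  push Not at hpos
  have hb := c.core_bound
  have hyρ := c.rho_le_y
  have hρ : 2 ≤ c.h - c.F := c.hρ
  have hR := c.dd.R_nonneg
  have hM := c.dd.M_nonneg
  have hD := c.dd.lemmaD (by
    have : c.dd.h - c.dd.F = c.h - c.F := rfl
    rw [this]; linarith)
  have e1 : c.dd.h - c.dd.F = c.h - c.F := rfl
  rw [e1] at hD
  rcases hcore with hneg | ⟨L, X3, Y3, Z3, hO, hr0, hr1⟩
  · exfalso
    nlinarith
  by_cases hneg : dl c.AK c.BK c.C0 ≤ 0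
  · exfalso
    nlinarith
  push Not at hneg
  have hr : 0 < rho L c.AK c.BK c.C0 X3 Y3 Z3 := by
    rcases lt_or_eq_of_le hr0 with h | h
    · exact h
    · rw [← h] at hr1; linarith
  have hyy : ds c.AK c.BK < c.C0.card := by
    have : c.y = (c.C0.card : ℤ) - c.eK := rfl
    rw [← eK_eq_ds]; linarith
  obtain ⟨L', Z', hL', hO', hrr⟩ := shrink c.φ c.γ0
    (fun x hx => (Finset.mem_filter.mp hx).2) hyy hO hr
  obtain ⟨a1, a2, a3, a4⟩ := hO'
  have hrr' : (Nat.card L' : ℤ) - ds3 c.AK c.BK c.C0 X3 Y3 Z' =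
    rho L c.AK c.BK c.C0 X3 Y3 Z3 := hrr
  have d1 := ds_nonneg c.AK X3
  have d2 := ds_nonneg c.BK Y3
  have d3 := ds_nonneg c.C0 Z'
  unfold ds3 at hrr'
  have hX3 : X3 ⊆ lft c.φ c.K := by
    refine contained c.φ hL' a1 (A := c.AK) ?_ (by linarith)
    intro x hx; rw [mem_lft]; exact (Finset.mem_filter.mp hx).2
  have hY3 : Y3 ⊆ lft c.φ c.K := by
    refine contained c.φ hL' a2 (A := c.BK) ?_ (by linarith)
    intro x hx; rw [mem_lft]; exact (Finset.mem_filter.mp hx).2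
  have hZ3 : Z' ⊆ lft c.φ {c.γ0} := by
    refine contained c.φ hL' a3 (A := c.C0) ?_ (by linarith)
    intro x hx; rw [mem_lft, Finset.mem_singleton]; exact (Finset.mem_filter.mp hx).2
  have hO'' := c.inO_star X3 Y3 Z' hL' ⟨a1, a2, a3, a4⟩ hX3 hY3 hZ3
  have hAB := c.ds_AB X3 Y3 hX3 hY3
  have hCC := c.ds_CC Z' hZ3
  have hy : c.y = c.h - kQ c.φ c.C c.γ0 - c.eK := by
    unfold y; rw [card_C0]
  have hF : c.F = ds (c.A \ c.B) (lft c.φ c.X) + ds (c.B \ c.A) (lft c.φ c.Y) +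
    ds c.C (lft c.φ c.Z) := rfl
  have hrho : rho L' c.A c.B c.C (c.As X3) (c.Bs Y3) (c.Cs Z') =
      rho L c.AK c.BK c.C0 X3 Y3 Z3 - (c.y - (c.h - c.F)) - 2 * c.dd.M := by
    rw [← hrr']
    unfold rho ds3
    rw [hCC]
    linarith
  have hfin := arith_fin (dl c.A c.B c.C) (dl c.AK c.BK c.C0) c.y (c.h - c.F) c.dd.R c.dd.M
    (rho L c.AK c.BK c.C0 X3 Y3 Z3) (by linarith) hyρ hR hM hr0 hb c.dl_core_le hr1
    hD.1 hD.2 hpos
  right
  refine ⟨L', c.As X3, c.Bs Y3, c.Cs Z', hO'', ?_, ?_⟩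
  · rw [hrho]; exact hfin.1
  · rw [hrho]; exact hfin.2

/-- a fibre in the lifted set has many elements -/
lemma fibre_big (S : Finset G) (T : Finset Q) (α : Q) (hα : α ∈ T) :
    c.h - ds S (lft c.φ T) ≤ ((S.filter (fun x => c.φ x = α)).card : ℤ) := by
  have h1 : ((S.filter (fun x => c.φ x = α)).card : ℤ) = ∑ x ∈ fib c.φ α, ind S x := by
    rw [← sum_ind]
    unfold fib
    rw [Finset.sum_filter]
    refine Finset.sum_congr rfl fun x _ => ?_
    unfold ind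
    by_cases h : c.φ x = α <;> by_cases h' : x ∈ S <;> simp [h, h']
  have h2 : c.h = ∑ x ∈ fib c.φ α, (1:ℤ) := by
    unfold h
    rw [← fib_card c.φ c.hφ α, Finset.card_eq_sum_ones]; push_cast; rfl
  rw [h1, h2]
  have h3 : ∑ x ∈ fib c.φ α, (1 - ind S x) ≤ ds S (lft c.φ T) := by
    unfold ds
    refine le_trans ?_ (Finset.sum_le_sum_of_subset_of_nonneg
      (Finset.subset_univ (fib c.φ α)) (fun x _ _ => abs_nonneg _))
    refine Finset.sum_le_sum fun x hx => ?_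
    rw [mem_fib] at hx
    rw [ind_lft, hx, ind_mem hα, abs_sub_comm]
    exact le_abs_self _
  rw [Finset.sum_sub_distrib] at h3
  linarith

lemma card_AK_lt : c.AK.card < c.A.card := by
  obtain ⟨α, hα⟩ := c.hXne
  have h1 := c.fibre_big (c.A \ c.B) c.X α hα
  have hρ : 2 ≤ c.h - c.F := c.hρ
  have hF : c.F = ds (c.A \ c.B) (lft c.φ c.X) + ds (c.B \ c.A) (lft c.φ c.Y) +
    ds c.C (lft c.φ c.Z) := rfl
  have d2 := ds_nonneg (c.B \ c.A) (lft c.φ c.Y)
  have d3 := ds_nonneg c.C (lft c.φ c.Z)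
  have h2 : (0:ℤ) < (((c.A \ c.B).filter (fun x => c.φ x = α)).card : ℤ) := by linarith
  have h3 : 0 < ((c.A \ c.B).filter (fun x => c.φ x = α)).card := by exact_mod_cast h2
  obtain ⟨x, hx⟩ := Finset.card_pos.mp h3
  rw [Finset.mem_filter, Finset.mem_sdiff] at hx
  apply Finset.card_lt_card
  unfold AK
  rw [Finset.filter_ssubset]
  refine ⟨x, hx.1.1, ?_⟩
  rw [hx.2]
  intro hK
  exact (c.mem_J.mp (c.K_sub_J hK)).1 hα

lemma card_BK_lt : c.BK.card < c.B.card := by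
  obtain ⟨α, hα⟩ := c.hYne
  have h1 := c.fibre_big (c.B \ c.A) c.Y α hα
  have hρ : 2 ≤ c.h - c.F := c.hρ
  have hF : c.F = ds (c.A \ c.B) (lft c.φ c.X) + ds (c.B \ c.A) (lft c.φ c.Y) +
    ds c.C (lft c.φ c.Z) := rfl
  have d2 := ds_nonneg (c.A \ c.B) (lft c.φ c.X)
  have d3 := ds_nonneg c.C (lft c.φ c.Z)
  have h2 : (0:ℤ) < (((c.B \ c.A).filter (fun x => c.φ x = α)).card : ℤ) := by linarith
  have h3 : 0 < ((c.B \ c.A).filter (fun x => c.φ x = α)).card := by exact_mod_cast h2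
  obtain ⟨x, hx⟩ := Finset.card_pos.mp h3
  rw [Finset.mem_filter, Finset.mem_sdiff] at hx
  apply Finset.card_lt_card
  unfold BK
  rw [Finset.filter_ssubset]
  refine ⟨x, hx.1.1, ?_⟩
  rw [hx.2]
  intro hK
  exact (c.mem_J.mp (c.K_sub_J hK)).2 hα

end CU

/-- disjointness of the first two structure sets -/
lemma disj_of_rho (φ : G →+ Q) (hφ : Function.Surjective φ) {A B C : Finset G}
    (hAB : Disjoint A B) {X Y Z : Finset Q}
    (hρ : 0 < (Nat.card φ.ker : ℤ) - ds3 A B C (lft φ X) (lft φ Y) (lft φ Z)) :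
    Disjoint X Y := by
  rw [Finset.disjoint_left]
  intro α hX hY
  have h1 : (Nat.card φ.ker : ℤ) ≤ ds A (lft φ X) + ds B (lft φ Y) := by
    rw [← fib_card φ hφ α, Finset.card_eq_sum_ones]
    push_cast
    unfold ds
    rw [← Finset.sum_add_distrib]
    refine le_trans ?_ (Finset.sum_le_sum_of_subset_of_nonneg
      (Finset.subset_univ (fib φ α)) (fun x _ _ => by positivity))
    refine Finset.sum_le_sum fun x hx => ?_
    rw [mem_fib] at hx
    rw [ind_lft, ind_lft, hx, ind_mem hX, ind_mem hY]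
    by_cases hA : x ∈ A
    · have hB : x ∉ B := Finset.disjoint_left.mp hAB hA
      rw [ind_mem hA, ind_not_mem hB]; simp
    · rw [ind_not_mem hA]
      rcases ind_zero_or_one B x with h | h <;> rw [h] <;> simp
  have h2 := ds_nonneg C (lft φ Z)
  unfold ds3 at hρ
  linarith

lemma lft_empty (φ : G →+ Q) : lft φ (∅ : Finset Q) = ∅ := by
  ext x; simp

lemma lft_univ (φ : G →+ Q) : lft φ (univ : Finset Q) = univ := by
  ext x; simp

/-- Case U -/
theorem caseU (hQ : ∀ (Q : Type u) [AddCommGroup Q] [Fintype Q] [DecidableEq Q],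
      Fintype.card Q < Fintype.card G → ∀ X Y Z : Finset Q, Good X Y Z)
    (A B C : Finset G) (hxc : (C.card : ℤ) < (A \ B).card + (B \ A).card)
    (h1 : (A.card : ℤ) < B.card + C.card) (h2 : (B.card : ℤ) < A.card + C.card)
    (hT' : Good (A \ B) (B \ A) C)
    (hIH : ∀ X Y Z : Finset G, min X.card Y.card < min A.card B.card → Good X Y Z) :
    Good A B C := by
  classical
  by_cases hd : dl A B C ≤ 1
  · exact good_of_dl_le_one hd
  push Not at hd
  have htr := dl_trans1 A B C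
  have hmiss := miss_nonneg (A ∩ B) C (A ∪ B)
  obtain ⟨Q, i1, i2, i3, φ, X, Y, Z, hφ, hodd, hfl, hdl, hρ, _⟩ :=
    struct hQ (A \ B) (B \ A) C hT' (by linarith)
  have hAB : Disjoint (A \ B) (B \ A) := by
    rw [Finset.disjoint_left]; intro x hx hx'
    rw [Finset.mem_sdiff] at hx hx'
    exact hx'.2 hx.1
  have hdisj : Disjoint X Y := disj_of_rho φ hφ hAB (by linarith)
  have hA := card_eq_sdiff_inter A B
  have hB := card_eq_sdiff_inter B A
  rw [Finset.inter_comm] at hB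
  have hker : (Nat.card φ.ker : ℤ) ≤ Fintype.card G := card_le_G _
  have p1 : (0:ℤ) ≤ (A \ B).card := by positivity
  have p2 : (0:ℤ) ≤ (B \ A).card := by positivity
  have p3 : (0:ℤ) ≤ C.card := by positivity
  have bad1 : ¬ (X = ∅ ∧ Y = ∅ ∧ Z = univ) := by
    rintro ⟨rfl, rfl, rfl⟩
    unfold ds3 at hρ
    rw [lft_empty, lft_univ, ds_empty, ds_empty, ds_univ] at hρ
    linarith
  have bad2 : ¬ (X = ∅ ∧ Y = univ ∧ Z = ∅) := by
    rintro ⟨rfl, rfl, rfl⟩
    unfold ds3 at hρ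
    rw [lft_empty, lft_univ, ds_empty, ds_empty, ds_univ] at hρ
    linarith
  have bad3 : ¬ (X = univ ∧ Y = ∅ ∧ Z = ∅) := by
    rintro ⟨rfl, rfl, rfl⟩
    unfold ds3 at hρ
    rw [lft_empty, lft_univ, ds_empty, ds_empty, ds_univ] at hρ
    linarith
  have hXne : X.Nonempty := by
    by_contra hcon
    rw [Finset.not_nonempty_iff_eq_empty] at hcon
    rcases hfl.empty1 hdl hcon with ⟨a, b⟩ | ⟨a, b⟩
    · exact bad1 ⟨hcon, a, b⟩
    · exact bad2 ⟨hcon, a, b⟩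
  have hYne : Y.Nonempty := by
    by_contra hcon
    rw [Finset.not_nonempty_iff_eq_empty] at hcon
    rcases hfl.swap12.empty1 (by rw [dl_swap12]; exact hdl) hcon with ⟨a, b⟩ | ⟨a, b⟩
    · exact bad1 ⟨a, hcon, b⟩
    · exact bad3 ⟨a, hcon, b⟩
  have hZne : Z.Nonempty := by
    by_contra hcon
    rw [Finset.not_nonempty_iff_eq_empty] at hcon
    rcases hfl.swap23.swap12.empty1 (by rw [dl_swap12, dl_swap23]; exact hdl) hcon with
      ⟨a, b⟩ | ⟨a, b⟩
    · exact bad2 ⟨a, b, hcon⟩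
    · exact bad3 ⟨a, b, hcon⟩
  obtain ⟨γ0, hγ0, hmax⟩ := Finset.exists_max_image Z (kQ φ C) hZne
  let c : CU G Q :=
    { A := A, B := B, C := C, φ := φ, hφ := hφ, X := X, Y := Y, Z := Z, hodd := hodd,
      hflips := hfl, hdl := hdl, hρ := hρ, hdisj := hdisj, γ0 := γ0, hγ0 := hγ0,
      hmax := hmax, hXne := hXne, hYne := hYne }
  have hcA : c.AK.card < A.card := c.card_AK_lt
  have hcB : c.BK.card < B.card := c.card_BK_lt
  exact c.finish (hIH c.AK c.BK c.C0 (by omega))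

end Pool.Agent.Lib_helper42.RS
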