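import Mathlib
import Pool.Agent.Lib_helper42.RS.CaseU

/-!
The main inequality.
-/

set_option autoImplicit false
set_option linter.unusedSectionVars false

namespace Pool.Agent.Lib_helper42.RS

open Finset

universe u

section
variable {G : Type u} [AddCommGroup G] [Fintype G] [DecidableEq G]

lemma good_step (hQ : ∀ (Q : Type u) [AddCommGroup Q] [Fintype Q] [DecidableEq Q],
      Fintype.card Q < Fintype.card G → ∀ X Y Z : Finset Q, Good X Y Z)
    (A B C : Finset G) (hBA : B.card ≤ A.card)
    (hIH : ∀ X Y Z : Finset G, min X.card Y.card < B.card → Good X Y Z) :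
    Good A B C := by
  classical
  have cA := card_compl_int A
  have cC := card_compl_int C
  by_cases t1 : (B.card : ℤ) + C.card ≤ A.card
  · exact good_trivial1 t1
  by_cases t2 : (A.card : ℤ) + C.card ≤ B.card
  · exact good_trivial2 t2
  by_cases t3 : (A.card : ℤ) + B.card ≤ C.card
  · exact good_trivial3 t3
  by_cases t4 : 2 * (Fintype.card G : ℤ) ≤ A.card + B.card + C.card
  · have h1 : Good Aᶜ B Cᶜ := good_trivial2 (by rw [cA, cC]; linarith)
    have h2 := h1.compl13
    rwa [compl_compl, compl_compl] at h2
  push Not at t1 t2 t3 t4
  have hBne : B.Nonempty := by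
    rw [← Finset.card_pos]
    have : (0:ℤ) < B.card := by linarith
    exact_mod_cast this
  by_cases hsub : ∀ e : G, (A ∩ tr e B) = ∅ ∨ (A ∩ tr e B) = tr e B
  · exact good_base hBne hsub (by linarith) (by linarith)
  push Not at hsub
  obtain ⟨e, he1, he2⟩ := hsub
  apply Good.of_tr23 e
  have cB' : (tr e B).card = B.card := card_tr e B
  have cC' : (tr (-e) C).card = C.card := card_tr (-e) C
  set B' := tr e B with hB'
  set C' := tr (-e) C with hC'
  rw [← cB'] at hIH hBA t1 t2 t3 t4
  rw [← cC'] at t1 t2 t3 t4
  clear_value B' C'
  have cC'' := card_compl_int C'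
  have hI : (A ∩ B').Nonempty := he1
  have hBA' : (B' \ A).Nonempty := by
    rw [Finset.sdiff_nonempty]
    intro hss
    apply he2
    exact Finset.inter_eq_right.mpr hss
  have kA := card_eq_sdiff_inter A B'
  have kB := card_eq_sdiff_inter B' A
  rw [Finset.inter_comm] at kB
  have kI : (0:ℤ) < (A ∩ B').card := by exact_mod_cast hI.card_pos
  have kB2 : (0:ℤ) < (B' \ A).card := by exact_mod_cast hBA'.card_pos
  have kU := card_union_eq A B'
  rcases lt_trichotomy (((A \ B').card : ℤ) + (B' \ A).card) C'.card with hlt | heq | hgt
  · -- Case P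
    have hgood : Good Aᶜ B' C'ᶜ := by
      have e1 : Aᶜ \ B' = (A ∪ B')ᶜ := by
        ext x; simp
      have e2 : B' \ Aᶜ = A ∩ B' := by
        ext x; simp [and_comm]
      have e1c := card_compl_int (A ∪ B')
      refine caseU hQ Aᶜ B' C'ᶜ ?_ ?_ ?_ ?_ ?_
      · rw [e1, e2, e1c, cC'']; linarith
      · rw [cA, cC'']; linarith
      · rw [cA, cC'']; linarith
      · rw [e2]
        apply hIH
        have : ((A ∩ B').card : ℤ) < B'.card := by linarith
        have h3 : (A ∩ B').card < B'.card := by exact_mod_cast this
        exact lt_of_le_of_lt (min_le_right _ _) h3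
      · intro X Y Z hmin
        apply hIH
        exact lt_of_lt_of_le hmin (min_le_right _ _)
    have h2 := hgood.compl13
    rwa [compl_compl, compl_compl] at h2
  · left
    have h1 := dl_trans1 A B' C'
    have h2 := dl_eq_miss (A \ B') (B' \ A) C'
    rw [heq, sub_self] at h2
    have m1 := miss_nonneg (A \ B') (B' \ A) C'
    have m2 := miss_nonneg (A ∩ B') C' (A ∪ B')
    linarith
  · refine caseU hQ A B' C' hgt ?_ ?_ ?_ ?_
    · linarith
    · linarith
    · apply hIH
      have : ((B' \ A).card : ℤ) < B'.card := by linarith
      have h3 : (B' \ A).card < B'.card := by exact_mod_cast this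
      exact lt_of_le_of_lt (min_le_right _ _) h3
    · intro X Y Z hmin
      apply hIH
      exact lt_of_lt_of_le hmin (min_le_right _ _)

lemma good_of_quot (hQ : ∀ (Q : Type u) [AddCommGroup Q] [Fintype Q] [DecidableEq Q],
      Fintype.card Q < Fintype.card G → ∀ X Y Z : Finset Q, Good X Y Z)
    (A B C : Finset G) : Good A B C := by
  have key : ∀ k : ℕ, ∀ A B C : Finset G, min A.card B.card = k → Good A B C := by
    intro k
    induction k using Nat.strong_induction_on with
    | _ k ih =>
      intro A B C hk
      rcases le_total B.card A.card with h | h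
      · refine good_step hQ A B C h ?_
        intro X Y Z hmin
        have : B.card = k := by rw [← hk]; exact (min_eq_right h).symm
        exact ih _ (by omega) X Y Z rfl
      · have h2 : Good B A C := by
          refine good_step hQ B A C h ?_
          intro X Y Z hmin
          have : A.card = k := by rw [← hk]; exact (min_eq_left h).symm
          exact ih _ (by omega) X Y Z rfl
        exact h2.swap12
  exact key _ A B C rfl

end

/-- Theorem (**): every triple of subsets of a finite abelian group is good. -/
theorem good_all (G : Type u) [AddCommGroup G] [Fintype G] [DecidableEq G]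
    (A B C : Finset G) : Good A B C := by
  have key : ∀ n : ℕ, ∀ (G : Type u) [AddCommGroup G] [Fintype G] [DecidableEq G],
      Fintype.card G = n → ∀ A B C : Finset G, Good A B C := by
    intro n
    induction n using Nat.strong_induction_on with
    | _ n ih =>
      intro G _ _ _ hn A B C
      refine good_of_quot ?_ A B C
      intro Q _ _ _ hlt X Y Z
      exact ih _ (by rw [← hn]; exact hlt) Q rfl X Y Z
  exact key _ G rfl A B C

end Pool.Agent.Lib_helper42.RS
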