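import Mathlib
import Pool.Agent.Lib_helper42.RS.Main

/-!
Symmetric triples `(B, B, -B)`.
-/

set_option autoImplicit false
set_option linter.unusedSectionVars false

namespace Pool.Agent.Lib_helper42.RS

open Finset

universe u

variable {G : Type u} [AddCommGroup G] [Fintype G] [DecidableEq G]
variable {Q : Type u} [AddCommGroup Q] [Fintype Q] [DecidableEq Q]

/-- the set `-B` -/
def ng (B : Finset G) : Finset G := univ.filter (fun x => -x ∈ B)

@[simp] lemma mem_ng {B : Finset G} {x : G} : x ∈ ng B ↔ -x ∈ B := by simp [ng]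

lemma ind_ng (B : Finset G) (x : G) : ind (ng B) x = ind B (-x) := by
  unfold ind; simp

lemma sum_neg (f : G → ℤ) : ∑ x, f (-x) = ∑ x, f x :=
  Function.Bijective.sum_comp (Equiv.neg G).bijective f

lemma card_ng (B : Finset G) : ((ng B).card : ℤ) = B.card := by
  rw [← sum_ind, ← sum_ind, ← sum_neg (ind B)]
  exact Finset.sum_congr rfl fun x _ => ind_ng B x

lemma ds_ng (A X : Finset G) : ds (ng A) (ng X) = ds A X := by
  unfold ds
  rw [← sum_neg (fun x => |ind A x - ind X x|)]
  refine Finset.sum_congr rfl fun x _ => ?_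
  rw [ind_ng, ind_ng]

lemma Per.ng {H : AddSubgroup G} {X : Finset G} (h : Per H X) : Per H (ng X) := by
  intro x t ht
  rw [mem_ng, mem_ng]
  have := h (-x) (-t) (H.neg_mem ht)
  rw [← this]
  have e : -(x + t) = -x + -t := by abel
  rw [e]

lemma lft_ng (φ : G →+ Q) (X : Finset Q) : lft φ (ng X) = ng (lft φ X) := by
  ext x; simp

/-- symmetric version of `dl` -/
def dlS (B : Finset G) : ℤ := dl B B (ng B)

/-- if the distance is small then the structure is symmetric -/
lemma sym_of_rho {H : AddSubgroup G} {B X Y Z : Finset G} (hO : InO H X Y Z)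
    (hr : 0 < rho H B B (ng B) X Y Z) : Y = X ∧ Z = ng X := by
  obtain ⟨hX, hY, hZ, _⟩ := hO
  have hrho : rho H B B (ng B) X Y Z = (Nat.card H : ℤ) - (ds B X + ds B Y + ds (ng B) Z) := rfl
  have d1 := ds_nonneg B X
  have d2 := ds_nonneg B Y
  have d3 := ds_nonneg (ng B) Z
  constructor
  · by_contra hne
    have h1 := card_le_ds_of_ne hX hY (fun h => hne h.symm)
    have h2 := ds_triangle X B Y
    rw [ds_comm X B] at h2
    linarith
  · by_contra hne
    have h1 := card_le_ds_of_ne hZ hX.ng hne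
    have h2 := ds_triangle Z (ng B) (ng X)
    rw [ds_comm Z (ng B), ds_ng] at h2
    linarith

/-- primitive strictly separated sets -/
structure PSS (E : Finset Q) : Prop where
  odd : Odd (E.card : ℤ)
  flips : Flips E E (ng E)
  dl1 : dl E E (ng E) = 1
  prim : ∀ (H : AddSubgroup Q), H ≠ ⊥ → ∀ X : Finset Q, Per H X →
    (∃ k : ℤ, (X.card : ℤ) = (2 * k + 1) * Nat.card H) → (Nat.card H : ℤ) - 3 * ds E X ≤ 0

lemma odd3 (a : ℤ) (h : Odd (a + a + a)) : Odd a := by
  have : a + a + a = 2 * a + a := by ring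
  rw [this] at h
  obtain ⟨k, hk⟩ := h
  exact ⟨k - a, by linarith⟩

/-- The symmetric structural lemma. -/
lemma sym_struct (B : Finset G) (hd : 1 < dlS B) :
    ∃ (Q : Type u) (_ : AddCommGroup Q) (_ : Fintype Q) (_ : DecidableEq Q) (φ : G →+ Q)
      (E : Finset Q), Function.Surjective φ ∧ PSS E ∧
      2 ≤ (Nat.card φ.ker : ℤ) - 3 * ds B (lft φ E) ∧
      dlS B ≤ ((Nat.card φ.ker : ℤ) - 3 * ds B (lft φ E))^2 := by
  classical
  unfold dlS at hd ⊢
  rcases good_all G B B (ng B) with hg | ⟨H0, X0, Y0, Z0, hO0, hr0, hd0⟩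
  · omega
  obtain ⟨H, X', Y', Z', hO, hle, hmax⟩ := exists_max B B (ng B) H0 X0 Y0 Z0 hO0
  have hr2 : 2 ≤ rho H B B (ng B) X' Y' Z' := by
    have : 2 ≤ rho H0 B B (ng B) X0 Y0 Z0 := by
      by_contra hlt; push Not at hlt; nlinarith
    linarith
  have hdl : dl B B (ng B) ≤ (rho H B B (ng B) X' Y' Z')^2 := by nlinarith
  obtain ⟨hYX, hZX⟩ := sym_of_rho hO (by linarith)
  subst hYX hZX
  rename' Y' => X'
  let _ : Fintype (G ⧸ H) := Fintype.ofFinite _
  set φ : G →+ G ⧸ H := QuotientAddGroup.mk' H with hφ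
  have hker : φ.ker = H := QuotientAddGroup.ker_mk' H
  have hsurj : Function.Surjective φ := QuotientAddGroup.mk'_surjective H
  obtain ⟨hX, hY, hZ, k, hk⟩ := hO
  have hX' := hX
  rw [← hker] at hX
  have eX := per_eq_lft φ X' hX
  set E := X'.image φ with hEdef
  have hH1 := card_pos_sub H
  have hcardker : (Nat.card φ.ker : ℤ) = Nat.card H := by rw [hker]
  have hrho : rho H B B (ng B) X' X' (ng X') =
      (Nat.card φ.ker : ℤ) - 3 * ds B (lft φ E) := by
    unfold rho ds3; rw [hcardker, ← eX, ds_ng]; ring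
  have hoddsum : Odd ((E.card : ℤ) + E.card + E.card) := by
    refine ⟨k, ?_⟩
    rw [card_ng, eX, card_lft φ hsurj, hcardker] at hk
    have : (Nat.card H : ℤ) * ((E.card : ℤ) + E.card + E.card) = Nat.card H * (2 * k + 1) := by
      linarith
    exact mul_left_cancel₀ (by omega) this
  have hodd : Odd (E.card : ℤ) := odd3 _ hoddsum
  obtain ⟨k1, hk1⟩ := hodd
  -- comparison with other structures
  have hcomp : ∀ (X2 Y2 Z2 : Finset (G ⧸ H)) (t : ℤ),
      ds3 (lft φ E) (lft φ E) (lft φ (ng E)) (lft φ X2) (lft φ Y2) (lft φ Z2) ≤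
        (Nat.card H : ℤ) * t → t ≤ 1 → 1 < dl X2 Y2 Z2 → False := by
    intro X2 Y2 Z2 t ht ht1 hdl2
    obtain ⟨K, X3, Y3, Z3, hK, h2⟩ := good_quot φ hsurj X2 Y2 Z2 (good_all _ X2 Y2 Z2) hdl2
    have h3 : rho H B B (ng B) X' X' (ng X') ≤ rho K B B (ng B) X3 Y3 Z3 := by
      have t1 := ds3_triangle B B (ng B) (lft φ X2) (lft φ Y2) (lft φ Z2) X3 Y3 Z3
      have t2 := ds3_triangle B B (ng B) (lft φ E) (lft φ E) (lft φ (ng E))
        (lft φ X2) (lft φ Y2) (lft φ Z2)
      have t3 : ds3 B B (ng B) (lft φ E) (lft φ E) (lft φ (ng E)) = 3 * ds B (lft φ E) := by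
        unfold ds3; rw [lft_ng, ds_ng]; ring
      rw [hrho]
      unfold rho at h2 ⊢
      rw [hcardker] at *
      have h5 : (Nat.card H : ℤ) * t ≤ Nat.card H := by nlinarith
      linarith
    obtain ⟨m1, m2⟩ := hmax K X3 Y3 Z3 hK
    have h4 := m2 (le_antisymm m1 h3)
    have h5 : rho K (lft φ X2) (lft φ Y2) (lft φ Z2) X3 Y3 Z3 ≤ Nat.card K := by
      unfold rho
      have := ds3_nonneg (lft φ X2) (lft φ Y2) (lft φ Z2) X3 Y3 Z3
      linarith
    rw [hcardker] at h2
    have h6 : (Nat.card K : ℤ) ≤ Nat.card H := by exact_mod_cast h4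
    linarith
  have hcng : ((ng E).card : ℤ) = E.card := card_ng E
  have hflips : Flips E E (ng E) := by
    have hev : ∀ (S : Finset (G ⧸ H)) (α : G ⧸ H), (S.card : ℤ) = 2 * k1 + 1 →
        Even ((symmDiff S {α}).card : ℤ) := by
      intro S α hS
      rw [card_flip_odd, hS]
      rcases ind_zero_or_one S α with h | h <;> rw [h]
      · exact ⟨k1 + 1, by linarith⟩
      · exact ⟨k1, by linarith⟩
    refine ⟨fun α => ?_, fun α => ?_, fun α => ?_⟩
    · by_contra hpos
      push Not at hpos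
      have he : Even (((symmDiff E {α}).card : ℤ) + E.card + (ng E).card) := by
        obtain ⟨r, hr⟩ := hev E α hk1
        rw [hr, hcng, hk1]; exact ⟨r + 2 * k1 + 1, by ring⟩
      have h4 := four_le_dl_of_even hpos he
      refine hcomp (symmDiff E {α}) E (ng E) 1 ?_ le_rfl (by linarith)
      rw [ds3_lft φ hsurj, hcardker]
      unfold ds3
      rw [ds_flip, ds_self, ds_self]; simp
    · by_contra hpos
      push Not at hpos
      have he : Even ((E.card : ℤ) + (symmDiff E {α}).card + (ng E).card) := by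
        obtain ⟨r, hr⟩ := hev E α hk1
        rw [hr, hcng, hk1]; exact ⟨r + 2 * k1 + 1, by ring⟩
      have h4 := four_le_dl_of_even hpos he
      refine hcomp E (symmDiff E {α}) (ng E) 1 ?_ le_rfl (by linarith)
      rw [ds3_lft φ hsurj, hcardker]
      unfold ds3
      rw [ds_flip, ds_self, ds_self]; simp
    · by_contra hpos
      push Not at hpos
      have he : Even ((E.card : ℤ) + E.card + (symmDiff (ng E) {α}).card) := by
        obtain ⟨r, hr⟩ := hev (ng E) α (by rw [hcng]; exact hk1)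
        rw [hr, hk1]; exact ⟨r + 2 * k1 + 1, by ring⟩
      have h4 := four_le_dl_of_even hpos he
      refine hcomp E E (symmDiff (ng E) {α}) 1 ?_ le_rfl (by linarith)
      rw [ds3_lft φ hsurj, hcardker]
      unfold ds3
      rw [ds_flip, ds_self]; simp
  have hD1 : dl E E (ng E) ≤ 1 := by
    by_contra hgt
    push Not at hgt
    refine hcomp E E (ng E) 0 ?_ (by norm_num) hgt
    unfold ds3
    rw [ds_self, ds_self]; simp
  have hU := U2 φ hsurj B B (ng B) E E (ng E) hflips
  obtain ⟨m, hm⟩ := dl_odd_mod (A := E) (B := E) (C := ng E)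
    (by rw [hcng]; exact hoddsum)
  have hds3 : ds3 B B (ng B) (lft φ E) (lft φ E) (lft φ (ng E)) = 3 * ds B (lft φ E) := by
    unfold ds3; rw [lft_ng, ds_ng]; ring
  have hD : dl E E (ng E) = 1 := by
    by_contra hne
    have hm2 : dl E E (ng E) ≤ -3 := by omega
    have hmiss := miss_nonneg (B \ lft φ E) (B \ lft φ E) (ng B ∩ lft φ (ng E))
    rw [hcardker, hds3] at hU
    rw [hcardker] at hrho
    set F := 3 * ds B (lft φ E) with hF
    have hF0 : 0 ≤ F := by
      have := ds_nonneg B (lft φ E)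
      linarith
    have hFh : 2 ≤ (Nat.card H : ℤ) - F := by rw [← hrho]; exact hr2
    set h : ℤ := (Nat.card H : ℤ) with hh
    have : h^2 * dl E E (ng E) - h * (dl E E (ng E) + 1) * F + F^2 =
        (h - F) * (h * dl E E (ng E) - F) := by
      ring
    have h7 : (h - F) * (h * dl E E (ng E) - F) ≤ 0 := by
      apply mul_nonpos_of_nonneg_of_nonpos
      · linarith
      · nlinarith
    linarith
  refine ⟨G ⧸ H, inferInstance, inferInstance, inferInstance, φ, E, hsurj,
    ⟨⟨k1, hk1⟩, hflips, hD, ?_⟩, ?_, ?_⟩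
  · -- primitivity
    intro K hKne X2 hperX2 ⟨k2, hk2⟩
    by_contra hpos
    push Not at hpos
    have hO2 : InO (K.comap φ) (lft φ X2) (lft φ X2) (ng (lft φ X2)) := by
      refine ⟨per_lft_comap φ K X2 hperX2, per_lft_comap φ K X2 hperX2,
        (per_lft_comap φ K X2 hperX2).ng, 3 * k2 + 1, ?_⟩
      rw [card_ng, card_lft φ hsurj, card_comap φ hsurj, hk2]; ring
    obtain ⟨m1, m2⟩ := hmax _ _ _ _ hO2
    have hK2 : 2 ≤ (Nat.card K : ℤ) := by
      have h1 : Nat.card K ≠ 1 := by
        intro h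
        apply hKne
        exact (AddSubgroup.card_eq_one).mp h
      have h2 := card_pos_sub K
      omega
    have hrK : rho (K.comap φ) B B (ng B) (lft φ X2) (lft φ X2) (ng (lft φ X2)) =
        (Nat.card H : ℤ) * Nat.card K - 3 * ds B (lft φ X2) := by
      unfold rho ds3
      rw [ds_ng, card_comap φ hsurj, hcardker]; ring
    have htri := ds_triangle B (lft φ E) (lft φ X2)
    rw [ds_lft φ hsurj, hcardker] at htri
    have hge : rho H B B (ng B) X' X' (ng X') ≤
        rho (K.comap φ) B B (ng B) (lft φ X2) (lft φ X2) (ng (lft φ X2)) := by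
      rw [hrK, hrho, hcardker]
      have : (Nat.card H : ℤ) * 1 ≤ Nat.card H * ((Nat.card K : ℤ) - 3 * ds E X2) :=
        mul_le_mul_of_nonneg_left (by linarith) (by linarith)
      nlinarith
    have h4 := m2 (le_antisymm m1 hge)
    have h5 : (Nat.card (K.comap φ) : ℤ) ≤ Nat.card H := by exact_mod_cast h4
    rw [card_comap φ hsurj, hcardker] at h5
    nlinarith
  · rw [← hrho]; exact hr2
  · rw [← hrho]; exact hdl

end Pool.Agent.Lib_helper42.RS
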