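import Mathlib
import Pool.Agent.Lib_helper42.RS.Sym

/-!
The exact second order expansion of `dlS` around a symmetric periodic set.
-/

set_option autoImplicit false
set_option linter.unusedSectionVars false

namespace Pool.Agent.Lib_helper42.RS

open Finset

universe u

variable {G : Type u} [AddCommGroup G] [Fintype G] [DecidableEq G]
variable {Q : Type u} [AddCommGroup Q] [Fintype Q] [DecidableEq Q]

/-- sign -/
def tau {α : Type*} [DecidableEq α] (X : Finset α) (x : α) : ℤ := 2 * ind X x - 1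

/-- difference -/
def pp (B X : Finset G) (x : G) : ℤ := ind B x - ind X x

def S1 (B X : Finset G) : ℤ := ∑ x, ∑ y, pp B X x * pp B X y * tau X (x + y)
def S2 (B X : Finset G) : ℤ := ∑ x, ∑ y, pp B X x * pp B X y * tau X (x - y)
def S3 (B X : Finset G) : ℤ := ∑ x, ∑ y, pp B X x * pp B X y * pp B X (x + y)

/-- first order coefficients -/
def linA (E : Finset Q) (α : Q) : ℤ := lin (ind E) (ind E) (ind (ng E)) α
def linC (E : Finset Q) (α : Q) : ℤ := lin (ind (ng E)) (ind E) (ind E) (-α)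
def WW (E : Finset Q) (α : Q) : ℤ := 2 * linA E α + linC E α

lemma sum_add_left (x : G) (f : G → ℤ) : ∑ y, f (x + y) = ∑ y, f y :=
  Function.Bijective.sum_comp (Equiv.addLeft x).bijective f

lemma sum2_shift (F : G → G → ℤ) : ∑ x, ∑ y, F x (x + y) = ∑ x, ∑ y, F x y :=
  Finset.sum_congr rfl fun x _ => sum_add_left x (F x)

lemma sum2_shift' (F : G → G → ℤ) : ∑ x, ∑ y, F y (x + y) = ∑ x, ∑ y, F x y := by
  rw [Finset.sum_comm]
  rw [← sum2_shift F]
  refine Finset.sum_congr rfl fun x _ => Finset.sum_congr rfl fun y _ => ?_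
  rw [add_comm y x]

/-- second order kernel -/
def ke (B X : Finset G) (x y : G) : ℤ :=
  2 * pp B X x * pp B X y * tau X (x + y) + 2 * pp B X x * pp B X (x + y) * tau X y +
  2 * pp B X y * pp B X (x + y) * tau X x + 4 * pp B X x * pp B X y * pp B X (x + y)

lemma sum_ke (B X : Finset G) :
    ∑ x, ∑ y, ke B X x y = 2 * S1 B X + 4 * S2 B X + 4 * S3 B X := by
  have h2 : ∑ x, ∑ y, pp B X x * pp B X (x + y) * tau X y = S2 B X := by
    unfold S2
    rw [Finset.sum_comm (f := fun x y => pp B X x * pp B X y * tau X (x - y))]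
    rw [← sum2_shift (fun x y => pp B X y * pp B X x * tau X (y - x))]
    refine Finset.sum_congr rfl fun x _ => Finset.sum_congr rfl fun y _ => ?_
    rw [add_sub_cancel_left]; ring
  have h3 : ∑ x, ∑ y, pp B X y * pp B X (x + y) * tau X x = S2 B X := by
    unfold S2
    rw [Finset.sum_comm (f := fun x y => pp B X x * pp B X y * tau X (x - y))]
    rw [← sum2_shift' (fun x y => pp B X y * pp B X x * tau X (y - x))]
    refine Finset.sum_congr rfl fun x _ => Finset.sum_congr rfl fun y _ => ?_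
    rw [add_sub_cancel_right]; ring
  have e : 2 * S1 B X + 4 * S2 B X + 4 * S3 B X =
      2 * S1 B X + 2 * S2 B X + 2 * S2 B X + 4 * S3 B X := by ring
  rw [e]
  conv_rhs => rw [← h2]
  conv_rhs => rw [h2]
  nth_rewrite 1 [← h2]
  rw [← h3]
  unfold S1 S3
  simp only [Finset.mul_sum, ← Finset.sum_add_distrib]
  refine Finset.sum_congr rfl fun x _ => Finset.sum_congr rfl fun y _ => ?_
  unfold ke; ring

/-- The exact expansion. -/
lemma exact_dlS (φ : G →+ Q) (hφ : Function.Surjective φ) (B : Finset G) (E : Finset Q) :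
    dlS B = (Nat.card φ.ker : ℤ)^2 * dlS E
      + (Nat.card φ.ker : ℤ) * ∑ x, pp B (lft φ E) x * WW E (φ x)
      + 3 * (∑ x, pp B (lft φ E) x)^2
      + (2 * S1 B (lft φ E) + 4 * S2 B (lft φ E) + 4 * S3 B (lft φ E)) := by
  set X := lft φ E with hX
  have hngX : ng X = lft φ (ng E) := by rw [hX, lft_ng]
  have e1 : ind B = ind X + pp B X := by ext x; simp [pp]
  have e3 : ind (ng B) = ind (ng X) + (fun x => pp B X (-x)) := by
    ext x; simp only [Pi.add_apply]; rw [ind_ng, ind_ng]; unfold pp; ring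
  have hexp := expand (ind X) (ind X) (ind (ng X)) (pp B X) (pp B X) (fun x => pp B X (-x))
  rw [← e1, ← e3] at hexp
  unfold dlS
  rw [dl_eq_dlf B B (ng B), hexp, ← dl_eq_dlf, hngX, hX, dl_lft φ hφ]
  have l1 : ∑ x, pp B (lft φ E) x * (4 * cor (ind (lft φ E)) (ind (lft φ (ng E))) x -
      2 * (∑ y, ind (lft φ E) y + ∑ y, ind (lft φ (ng E)) y - ∑ y, ind (lft φ E) y)) =
      (Nat.card φ.ker : ℤ) * ∑ x, pp B (lft φ E) x * linA E (φ x) := by
    rw [Finset.mul_sum]
    refine Finset.sum_congr rfl fun x _ => ?_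
    rw [lin_lft φ hφ E E (ng E) x]
    unfold linA; ring
  have l3 : ∑ x, pp B (lft φ E) (-x) * (4 * cor (ind (lft φ E)) (ind (lft φ E)) x -
      2 * (∑ y, ind (lft φ E) y + ∑ y, ind (lft φ E) y - ∑ y, ind (lft φ (ng E)) y)) =
      (Nat.card φ.ker : ℤ) * ∑ x, pp B (lft φ E) x * linC E (φ x) := by
    rw [← sum_neg, Finset.mul_sum]
    refine Finset.sum_congr rfl fun x _ => ?_
    rw [lin_lft φ hφ (ng E) E E (-x), neg_neg]
    unfold linC
    rw [map_neg]; ring
  have l4 : ∑ x, pp B (lft φ E) (-x) = ∑ x, pp B (lft φ E) x := sum_neg (pp B (lft φ E))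
  have l5 : ∑ x, ∑ y, e2 (ind (lft φ E)) (ind (lft φ E)) (ind (lft φ (ng E))) (pp B (lft φ E))
      (pp B (lft φ E)) (fun x => pp B (lft φ E) (-x)) x y =
      ∑ x, ∑ y, ke B (lft φ E) x y := by
    refine Finset.sum_congr rfl fun x _ => Finset.sum_congr rfl fun y _ => ?_
    unfold e2 ke tau
    have : ind (lft φ (ng E)) (-(x + y)) = ind (lft φ E) (x + y) := by
      rw [lft_ng, ind_ng, neg_neg]
    simp only [this, neg_neg]
  rw [l1, l3, l4, l5, sum_ke]
  unfold WW
  have l6 : ∑ x, pp B (lft φ E) x * (2 * linA E (φ x) + linC E (φ x)) =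
      2 * ∑ x, pp B (lft φ E) x * linA E (φ x) + ∑ x, pp B (lft φ E) x * linC E (φ x) := by
    rw [Finset.mul_sum, ← Finset.sum_add_distrib]
    exact Finset.sum_congr rfl fun x _ => by ring
  rw [l6]; ring

/-! ### pointwise bounds -/

lemma pp_cases (B X : Finset G) (x : G) :
    (pp B X x = 0 ∧ (tau X x = 1 ∨ tau X x = -1)) ∨ (pp B X x = 1 ∧ tau X x = -1) ∨
      (pp B X x = -1 ∧ tau X x = 1) := by
  unfold pp tau
  rcases ind_zero_or_one B x with h | h <;> rcases ind_zero_or_one X x with h' | h' <;>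
    rw [h, h'] <;> norm_num

/-- indicator of `t = -1` -/
def im (t : ℤ) : ℤ := if t = -1 then 1 else 0

lemma im_nonneg (t : ℤ) : 0 ≤ im t := by unfold im; split_ifs <;> norm_num
lemma im_le_one (t : ℤ) : im t ≤ 1 := by unfold im; split_ifs <;> norm_num

def W1 (B X : Finset G) : ℤ := ∑ x, ∑ y, im (pp B X x * pp B X y * tau X (x + y))
def W2 (B X : Finset G) : ℤ := ∑ x, ∑ y, im (pp B X x * pp B X y * tau X (x - y))
def N3 (B X : Finset G) : ℤ := ∑ x, ∑ y, im (pp B X x * pp B X y * pp B X (x + y))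

lemma ke_le (B X : Finset G) (x y : G) :
    ke B X x y ≤ 2 * (|pp B X x| * |pp B X y|) + 2 * (|pp B X x| * |pp B X (x + y)|) +
      2 * (|pp B X y| * |pp B X (x + y)|) -
      4 * im (pp B X x * pp B X y * tau X (x + y)) -
      4 * im (pp B X (x + y) * pp B X x * tau X y) -
      4 * im (pp B X x * pp B X y * pp B X (x + y)) := by
  unfold ke im
  have h1 := pp_cases B X x
  have h2 := pp_cases B X y
  have h3 := pp_cases B X (x + y)
  generalize pp B X x = P at *
  generalize pp B X y = Q at *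
  generalize pp B X (x + y) = R at *
  generalize tau X x = a at *
  generalize tau X y = b at *
  generalize tau X (x + y) = c at *
  rcases h1 with ⟨rfl, rfl | rfl⟩ | ⟨rfl, rfl⟩ | ⟨rfl, rfl⟩ <;>
  rcases h2 with ⟨rfl, rfl | rfl⟩ | ⟨rfl, rfl⟩ | ⟨rfl, rfl⟩ <;>
  rcases h3 with ⟨rfl, rfl | rfl⟩ | ⟨rfl, rfl⟩ | ⟨rfl, rfl⟩ <;>
  norm_num

lemma ds_eq_pp (B X : Finset G) : ds B X = ∑ x, |pp B X x| := rfl

lemma second_order_le (B X : Finset G) :
    2 * S1 B X + 4 * S2 B X + 4 * S3 B X ≤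
      6 * (ds B X)^2 - 4 * W1 B X - 4 * W2 B X - 4 * N3 B X := by
  rw [← sum_ke]
  have a1 : (ds B X)^2 = ∑ x, ∑ y, |pp B X x| * |pp B X y| := by
    rw [ds_eq_pp, sq, Finset.sum_mul_sum]
  have a2 : (ds B X)^2 = ∑ x, ∑ y, |pp B X x| * |pp B X (x + y)| := by
    rw [a1, ← sum2_shift (fun x y => |pp B X x| * |pp B X y|)]
  have a3 : (ds B X)^2 = ∑ x, ∑ y, |pp B X y| * |pp B X (x + y)| := by
    rw [a1, ← sum2_shift' (fun x y => |pp B X x| * |pp B X y|)]
  have w2 : W2 B X = ∑ x, ∑ y, im (pp B X (x + y) * pp B X x * tau X y) := by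
    unfold W2
    rw [Finset.sum_comm]
    rw [← sum2_shift (fun x y => im (pp B X y * pp B X x * tau X (y - x)))]
    refine Finset.sum_congr rfl fun x _ => Finset.sum_congr rfl fun y _ => ?_
    rw [add_sub_cancel_left]
  have e : 6 * (ds B X)^2 - 4 * W1 B X - 4 * W2 B X - 4 * N3 B X =
      2 * (ds B X)^2 + 2 * (ds B X)^2 + 2 * (ds B X)^2 - 4 * W1 B X - 4 * W2 B X
        - 4 * N3 B X := by ring
  rw [e]
  nth_rewrite 1 [a1]
  nth_rewrite 1 [a2]
  rw [a3, w2]
  unfold W1 N3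
  simp only [Finset.mul_sum, ← Finset.sum_sub_distrib, ← Finset.sum_add_distrib]
  exact Finset.sum_le_sum fun x _ => Finset.sum_le_sum fun y _ => ke_le B X x y

/-! ### first order terms -/

lemma lin_mod (X Y Z : Finset Q) (α : Q) :
    lin (ind X) (ind Y) (ind Z) α =
      4 * cor (ind Y) (ind Z) α - 2 * ((Y.card : ℤ) + Z.card - X.card) := by
  unfold lin; rw [sum_ind, sum_ind, sum_ind]

lemma linA_eq (E : Finset Q) (α : Q) :
    linA E α = 4 * cor (ind E) (ind (ng E)) α - 2 * (E.card : ℤ) := by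
  unfold linA; rw [lin_mod, card_ng]; ring

lemma linC_eq (E : Finset Q) (α : Q) :
    linC E α = 4 * cor (ind E) (ind E) (-α) - 2 * (E.card : ℤ) := by
  unfold linC; rw [lin_mod, card_ng]; ring

/-- badness -/
def bad (E : Finset Q) (α : Q) : ℤ := if (1 - 2 * ind E α) * WW E α = -6 then 0 else 1

lemma bad_nonneg (E : Finset Q) (α : Q) : 0 ≤ bad E α := by unfold bad; split_ifs <;> norm_num

lemma PSS.linA_le {E : Finset Q} (h : PSS E) (α : Q) :
    (1 - 2 * ind E α) * linA E α ≤ -2 := by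
  have := h.flips.lin1 α
  rw [h.dl1] at this
  exact this

lemma PSS.linC_le {E : Finset Q} (h : PSS E) (α : Q) :
    (1 - 2 * ind E α) * linC E α ≤ -2 := by
  have := h.flips.lin3 (-α)
  rw [h.dl1, ind_ng, neg_neg] at this
  exact this

lemma PSS.WW_le {E : Finset Q} (h : PSS E) (α : Q) :
    (1 - 2 * ind E α) * WW E α ≤ -6 - 4 * bad E α := by
  have h1 := h.linA_le α
  have h2 := h.linC_le α
  obtain ⟨k, hk⟩ := h.odd
  rw [linA_eq, hk] at h1
  rw [linC_eq, hk] at h2
  have h3 : WW E α = 2 * (4 * cor (ind E) (ind (ng E)) α - 2 * (2 * k + 1)) +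
      (4 * cor (ind E) (ind E) (-α) - 2 * (2 * k + 1)) := by
    unfold WW; rw [linA_eq, linC_eq, hk]
  unfold bad
  rcases ind_zero_or_one E α with h0 | h0
  · rw [h0] at h1 h2 ⊢
    split_ifs with hc
    · linarith
    · rw [h3] at hc ⊢
      omega
  · rw [h0] at h1 h2 ⊢
    split_ifs with hc
    · linarith
    · rw [h3] at hc ⊢
      omega

/-- number of bad elements in the difference -/
def tb (φ : G →+ Q) (B : Finset G) (E : Finset Q) : ℤ :=
  ∑ x, |pp B (lft φ E) x| * bad E (φ x)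

lemma tb_nonneg (φ : G →+ Q) (B : Finset G) (E : Finset Q) : 0 ≤ tb φ B E :=
  Finset.sum_nonneg fun _ _ => mul_nonneg (abs_nonneg _) (bad_nonneg _ _)

lemma PSS.first_order {E : Finset Q} (h : PSS E) (φ : G →+ Q) (B : Finset G) :
    ∑ x, pp B (lft φ E) x * WW E (φ x) ≤ -6 * ds B (lft φ E) - 4 * tb φ B E := by
  rw [ds_eq_pp]
  unfold tb
  rw [Finset.mul_sum, Finset.mul_sum, ← Finset.sum_sub_distrib]
  refine Finset.sum_le_sum fun x _ => ?_
  have h1 := h.WW_le (φ x)
  unfold pp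
  rw [ind_lft]
  rcases ind_zero_or_one B x with h2 | h2 <;> rcases ind_zero_or_one E (φ x) with h3 | h3 <;>
    rw [h2, h3] <;> rw [h3] at h1 <;> norm_num at h1 ⊢ <;> linarith

/-- The upper bound. -/
lemma PSS.upper {E : Finset Q} (h : PSS E) (φ : G →+ Q) (hφ : Function.Surjective φ)
    (B : Finset G) :
    dlS B ≤ (Nat.card φ.ker : ℤ)^2 - 6 * (Nat.card φ.ker : ℤ) * ds B (lft φ E)
      - 4 * (Nat.card φ.ker : ℤ) * tb φ B E
      + 3 * (∑ x, pp B (lft φ E) x)^2 + 6 * (ds B (lft φ E))^2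
      - 4 * W1 B (lft φ E) - 4 * W2 B (lft φ E) - 4 * N3 B (lft φ E) := by
  have h1 := exact_dlS φ hφ B E
  have h2 : dlS E = 1 := h.dl1
  have h3 := h.first_order φ B
  have h4 := second_order_le B (lft φ E)
  have h5 : (0:ℤ) ≤ Nat.card φ.ker := by positivity
  have h6 := mul_le_mul_of_nonneg_left h3 h5
  rw [h2] at h1
  linarith

/-! ### elementary facts on PSS sets -/

lemma PSS.zero_mem {E : Finset Q} (h : PSS E) : (0:Q) ∈ E := by
  by_contra h0
  have h1 := h.linA_le 0
  rw [ind_not_mem h0, linA_eq, cor_eq_card] at h1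
  have h2 : E.filter (fun β => -(0 + β) ∈ ng E) = E := by
    ext x; simp
  rw [h2] at h1
  obtain ⟨k, hk⟩ := h.odd
  have h3 : (0:ℤ) ≤ E.card := by positivity
  omega

lemma cor_neg (E : Finset Q) (α : Q) :
    cor (ind E) (ind (ng E)) (-α) = cor (ind E) (ind (ng E)) α := by
  unfold cor
  have : ∀ x : Q, ∀ y, ind E y * ind (ng E) (-(x + y)) = ind E y * ind E (x + y) := by
    intro x y; rw [ind_ng, neg_neg]
  simp only [this]
  rw [← sum_add_left α (fun y => ind E y * ind E (-α + y))]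
  refine Finset.sum_congr rfl fun y _ => ?_
  have : -α + (α + y) = y := by abel
  rw [this]; ring

lemma PSS.neg_mem {E : Finset Q} (h : PSS E) (α : Q) : -α ∈ E ↔ α ∈ E := by
  have key : ∀ α, α ∈ E → -α ∈ E := by
    intro α hα
    by_contra hn
    have h1 := h.linA_le α
    have h2 := h.linA_le (-α)
    rw [ind_mem hα, linA_eq] at h1
    rw [ind_not_mem hn, linA_eq, cor_neg] at h2
    linarith
  constructor
  · intro hα; have := key _ hα; rwa [neg_neg] at this
  · exact key α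

lemma PSS.tau_neg {E : Finset Q} (h : PSS E) (α : Q) : tau E (-α) = tau E α := by
  unfold tau ind
  simp only [h.neg_mem]

end Pool.Agent.Lib_helper42.RS
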