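import Mathlib
import Pool.Agent.Lib_helper42.RS.Exact

/-!
Special positions of primitive strictly separated sets.
-/

set_option autoImplicit false
set_option linter.unusedSectionVars false

namespace Pool.Agent.Lib_helper42.RS

open Finset

universe u

variable {G : Type u} [AddCommGroup G] [Fintype G] [DecidableEq G]
variable {Q : Type u} [AddCommGroup Q] [Fintype Q] [DecidableEq Q]

/-- good position -/
def gd (E : Finset Q) (α : Q) : Prop := (1 - 2 * ind E α) * WW E α = -6

lemma gd_iff_bad (E : Finset Q) (α : Q) : bad E α = 0 ↔ gd E α := by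
  unfold bad gd; split_ifs with h <;> simp [h]

lemma sum_ind_mul (D : Finset G) (f : G → ℤ) : ∑ x, ind D x * f x = ∑ x ∈ D, f x := by
  unfold ind
  simp only [ite_mul, one_mul, zero_mul]
  rw [Finset.sum_ite_mem, Finset.univ_inter]

lemma sum2_ind_mul (D : Finset G) (f : G → G → ℤ) :
    ∑ x, ∑ y, ind D x * ind D y * f x y = ∑ x ∈ D, ∑ y ∈ D, f x y := by
  rw [← sum_ind_mul D (fun x => ∑ y ∈ D, f x y)]
  refine Finset.sum_congr rfl fun x _ => ?_
  rw [← sum_ind_mul D (f x), Finset.mul_sum]
  exact Finset.sum_congr rfl fun y _ => by ring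

lemma lft_id (E : Finset Q) : lft (AddMonoidHom.id Q) E = E := by
  ext x; simp

lemma card_ker_id : (Nat.card (AddMonoidHom.id Q).ker : ℤ) = 1 := by
  have : (AddMonoidHom.id Q).ker = ⊥ := by
    rw [AddMonoidHom.ker_eq_bot_iff]; exact Function.injective_id
  rw [this]; simp

/-- exact expansion in `Q` itself, adding the set `D`. -/
lemma exact_add (E D : Finset Q) (hd : Disjoint E D) :
    dlS (E ∪ D) = dlS E + ∑ x ∈ D, WW E x + 3 * (D.card : ℤ)^2 +
      (2 * ∑ x ∈ D, ∑ y ∈ D, tau E (x + y) + 4 * ∑ x ∈ D, ∑ y ∈ D, tau E (x - y) +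
        4 * ∑ x ∈ D, ∑ y ∈ D, ind D (x + y)) := by
  have h := exact_dlS (AddMonoidHom.id Q) Function.surjective_id (E ∪ D) E
  rw [card_ker_id, lft_id] at h
  have hpp : ∀ x, pp (E ∪ D) E x = ind D x := by
    intro x; unfold pp; rw [ind_union_disj hd]; ring
  rw [h]
  unfold S1 S2 S3
  simp only [hpp, AddMonoidHom.id_apply]
  rw [sum2_ind_mul D (fun x y => tau E (x + y)), sum2_ind_mul D (fun x y => tau E (x - y)),
    sum2_ind_mul D (fun x y => ind D (x + y)), sum_ind_mul, sum_ind]
  ring

/-- exact expansion in `Q` itself, removing the set `D`. -/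
lemma exact_sub (E D : Finset Q) (hd : D ⊆ E) :
    dlS (E \ D) = dlS E - ∑ x ∈ D, WW E x + 3 * (D.card : ℤ)^2 +
      (2 * ∑ x ∈ D, ∑ y ∈ D, tau E (x + y) + 4 * ∑ x ∈ D, ∑ y ∈ D, tau E (x - y) -
        4 * ∑ x ∈ D, ∑ y ∈ D, ind D (x + y)) := by
  have h := exact_dlS (AddMonoidHom.id Q) Function.surjective_id (E \ D) E
  rw [card_ker_id, lft_id] at h
  have hpp : ∀ x, pp (E \ D) E x = - ind D x := by
    intro x; unfold pp ind
    by_cases h1 : x ∈ D
    · have h2 := hd h1; simp [h1, h2]
    · by_cases h2 : x ∈ E <;> simp [h1, h2]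
  rw [h]
  unfold S1 S2 S3
  simp only [hpp, AddMonoidHom.id_apply]
  have a1 : ∀ f : Q → Q → ℤ, ∑ x, ∑ y, -ind D x * -ind D y * f x y =
      ∑ x ∈ D, ∑ y ∈ D, f x y := by
    intro f
    rw [← sum2_ind_mul D f]
    exact Finset.sum_congr rfl fun x _ => Finset.sum_congr rfl fun y _ => by ring
  have a2 : ∑ x, ∑ y, -ind D x * -ind D y * -ind D (x + y) =
      - ∑ x ∈ D, ∑ y ∈ D, ind D (x + y) := by
    rw [a1 (fun x y => - ind D (x + y))]
    simp only [Finset.sum_neg_distrib]
  have a3 : ∑ x, -ind D x * WW E x = - ∑ x ∈ D, WW E x := by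
    rw [← sum_ind_mul D (WW E), ← Finset.sum_neg_distrib]
    exact Finset.sum_congr rfl fun x _ => by ring
  have a4 : ∑ x, -ind D x = -(D.card : ℤ) := by
    rw [Finset.sum_neg_distrib, sum_ind]
  rw [a1 (fun x y => tau E (x + y)), a1 (fun x y => tau E (x - y)), a2, a3, a4]
  ring

lemma tau_ge (E : Finset Q) (x : Q) : -1 ≤ tau E x := by
  unfold tau; have := ind_nonneg E x; linarith

lemma tau_mem {E : Finset Q} {x : Q} (h : x ∈ E) : tau E x = 1 := by
  unfold tau; rw [ind_mem h]; norm_num

lemma tau_eq_one {E : Finset Q} {x : Q} : tau E x = 1 ↔ x ∈ E := by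
  constructor
  · intro h; by_contra hn; unfold tau at h; rw [ind_not_mem hn] at h; norm_num at h
  · exact tau_mem

lemma tau_cases (E : Finset Q) (x : Q) : tau E x = 1 ∨ tau E x = -1 := by
  unfold tau; rcases ind_zero_or_one E x with h | h <;> rw [h] <;> norm_num

/-- the value after adding good special positions -/
lemma dlS_add_special {E : Finset Q} (hE : PSS E) {α β : Q} (hα : α ∉ E) (hβ : β ∉ E)
    (ga : gd E α) (gb : gd E β) (h1 : α + β ∈ E) (h2 : α - β ∈ E) :
    (3 * (({α, β} : Finset Q).card : ℤ) - 1)^2 - 8 ≤ dlS (E ∪ {α, β}) ∧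
    (({α, β} : Finset Q).card = 1 → 4 ≤ dlS (E ∪ {α, β})) := by
  have hz := hE.zero_mem
  have hd : Disjoint E {α, β} := by
    rw [Finset.disjoint_right]; intro x hx
    rw [Finset.mem_insert, Finset.mem_singleton] at hx
    rcases hx with rfl | rfl <;> assumption
  have hex := exact_add E {α, β} hd
  have hdl : dlS E = 1 := hE.dl1
  unfold gd at ga gb
  rw [ind_not_mem hα] at ga
  rw [ind_not_mem hβ] at gb
  have s3 : 0 ≤ ∑ x ∈ ({α, β} : Finset Q), ∑ y ∈ ({α, β} : Finset Q),
      ind ({α, β} : Finset Q) (x + y) :=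
    Finset.sum_nonneg fun _ _ => Finset.sum_nonneg fun _ _ => ind_nonneg _ _
  have hβα : β - α ∈ E := by
    have := (hE.neg_mem (α - β)).mpr h2
    rwa [neg_sub] at this
  by_cases hab : α = β
  · subst hab
    have hc : ({α, α} : Finset Q) = {α} := by simp
    rw [hc] at hex s3 ⊢
    simp only [Finset.sum_singleton, Finset.card_singleton] at hex s3 ⊢
    rw [sub_self, tau_mem h1, tau_mem hz, hdl] at hex
    push_cast at hex
    constructor
    · push_cast; linarith
    · intro _; linarith
  · have hc : ({α, β} : Finset Q).card = 2 := Finset.card_pair hab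
    rw [hc] at hex ⊢
    rw [Finset.sum_pair hab, Finset.sum_pair hab, Finset.sum_pair hab, Finset.sum_pair hab,
      Finset.sum_pair hab, Finset.sum_pair hab, Finset.sum_pair hab, sub_self, sub_self,
      tau_mem hz, tau_mem h1, tau_mem h2, tau_mem hβα, hdl, add_comm β α, tau_mem h1] at hex
    have t1 := tau_ge E (α + α)
    have t2 := tau_ge E (β + β)
    constructor
    · push_cast at hex ⊢; linarith
    · intro h; omega

/-- the value after removing good special positions -/
lemma dlS_sub_special {E : Finset Q} (hE : PSS E) {α β : Q} (hα : α ∈ E) (hβ : β ∈ E)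
    (hα0 : α ≠ 0) (hβ0 : β ≠ 0)
    (ga : gd E α) (gb : gd E β) (h1 : α + β ∈ E) (h2 : α - β ∈ E) :
    (3 * (({α, β} : Finset Q).card : ℤ) - 1)^2 - 8 ≤ dlS (E \ {α, β}) ∧
    (({α, β} : Finset Q).card = 1 → 4 ≤ dlS (E \ {α, β})) := by
  have hz := hE.zero_mem
  have hd : {α, β} ⊆ E := by
    intro x hx
    rw [Finset.mem_insert, Finset.mem_singleton] at hx
    rcases hx with rfl | rfl <;> assumption
  have hex := exact_sub E {α, β} hd
  have hdl : dlS E = 1 := hE.dl1
  unfold gd at ga gb
  rw [ind_mem hα] at ga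
  rw [ind_mem hβ] at gb
  have hβα : β - α ∈ E := by
    have := (hE.neg_mem (α - β)).mpr h2
    rwa [neg_sub] at this
  by_cases hab : α = β
  · subst hab
    have hc : ({α, α} : Finset Q) = {α} := by simp
    rw [hc] at hex ⊢
    simp only [Finset.sum_singleton, Finset.card_singleton] at hex ⊢
    have h5 : ind ({α} : Finset Q) (α + α) = 0 := ind_not_mem (by simp [hα0])
    rw [sub_self, tau_mem h1, tau_mem hz, hdl, h5] at hex
    constructor
    · push_cast; push_cast at hex; linarith
    · intro _; push_cast at hex; linarith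
  · have hc : ({α, β} : Finset Q).card = 2 := Finset.card_pair hab
    rw [hc] at hex ⊢
    rw [Finset.sum_pair hab, Finset.sum_pair hab, Finset.sum_pair hab, Finset.sum_pair hab,
      Finset.sum_pair hab, Finset.sum_pair hab, Finset.sum_pair hab, sub_self, sub_self,
      tau_mem hz, tau_mem h1, tau_mem h2, tau_mem hβα, hdl, add_comm β α, tau_mem h1,
      Finset.sum_pair hab, Finset.sum_pair hab, Finset.sum_pair hab, add_comm β α] at hex
    have h5 : ind ({α, β} : Finset Q) (α + β) = 0 := ind_not_mem (by simp [hα0, hβ0])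
    rw [h5] at hex
    have key : ∀ γ δ : Q, γ ≠ 0 → δ ∈ E → γ = α ∧ δ = β ∨ γ = β ∧ δ = α →
        -2 ≤ 2 * tau E (γ + γ) - 4 * ind ({α, β} : Finset Q) (γ + γ) := by
      intro γ δ hγ hδ hor
      by_cases h : γ + γ = δ
      · rw [h, tau_mem hδ]
        have := ind_le_one ({α, β} : Finset Q) δ
        linarith
      · have h6 : ind ({α, β} : Finset Q) (γ + γ) = 0 := by
          apply ind_not_mem
          rw [Finset.mem_insert, Finset.mem_singleton]
          rcases hor with ⟨rfl, rfl⟩ | ⟨rfl, rfl⟩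
          · push Not; exact ⟨by simpa using hγ, h⟩
          · push Not; exact ⟨h, by simpa using hγ⟩
        rw [h6]
        have := tau_ge E (γ + γ)
        linarith
    have k1 := key α β hα0 hβ (Or.inl ⟨rfl, rfl⟩)
    have k2 := key β α hβ0 hα (Or.inr ⟨rfl, rfl⟩)
    constructor
    · push_cast at hex ⊢; linarith
    · intro h; omega

lemma PSS.zero_not_gd {E : Finset Q} (hE : PSS E) (h1 : 1 < E.card) : ¬ gd E 0 := by
  intro hg
  unfold gd at hg
  have hz := hE.zero_mem
  rw [ind_mem hz] at hg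
  unfold WW at hg
  rw [linA_eq, linC_eq] at hg
  have c1 : cor (ind E) (ind (ng E)) 0 = E.card := by
    rw [cor_eq_card]
    congr 2
    ext x; simp
  have c2 : cor (ind E) (ind E) (-0) = E.card := by
    rw [cor_eq_card]
    congr 2
    ext x
    simp only [Finset.mem_filter, neg_zero, zero_add, and_iff_left_iff_imp]
    intro hx
    exact (hE.neg_mem x).mpr hx
  rw [c1, c2] at hg
  have : (1:ℤ) < E.card := by exact_mod_cast h1
  linarith

lemma ds_parity (A X : Finset Q) : ∃ k : ℤ, ds A X = A.card + X.card + 2 * k := by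
  refine ⟨-∑ x, ind A x * ind X x, ?_⟩
  rw [← sum_ind A, ← sum_ind X, mul_neg, Finset.mul_sum, ← sub_eq_add_neg,
    ← Finset.sum_add_distrib, ← Finset.sum_sub_distrib]
  unfold ds
  refine Finset.sum_congr rfl fun x _ => ?_
  rcases ind_zero_or_one A x with h | h <;> rcases ind_zero_or_one X x with h' | h' <;>
    rw [h, h'] <;> norm_num

lemma ker_ne_bot (φ : G →+ Q) (h : 2 ≤ (Nat.card φ.ker : ℤ)) : φ.ker ≠ ⊥ := by
  intro hb; rw [hb] at h; simp at h

lemma card_lt_of_ker (φ : G →+ Q) (hφ : Function.Surjective φ)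
    (h : 2 ≤ (Nat.card φ.ker : ℤ)) : Fintype.card Q < Fintype.card G := by
  have h1 := card_G φ hφ
  have h2 : (1:ℤ) ≤ Fintype.card Q := by
    have : 0 < Fintype.card Q := Fintype.card_pos
    omega
  have : (Fintype.card Q : ℤ) < Fintype.card G := by rw [h1]; nlinarith
  exact_mod_cast this

/-- the tight situation -/
lemma tight {E E2 D : Finset Q} (hE : PSS E) (hE2 : symmDiff E D = E2) (hDne : D.Nonempty)
    (h17 : (3 * (D.card : ℤ) - 1)^2 - 8 ≤ dlS E2) (hD2 : D.card ≤ 2)
    (h4 : D.card = 1 → 4 ≤ dlS E2) :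
    ∃ (R : Type u) (_ : AddCommGroup R) (_ : Fintype R) (_ : DecidableEq R) (ψ : Q →+ R)
      (E' : Finset R), Function.Surjective ψ ∧ PSS E' ∧ Fintype.card R < Fintype.card Q ∧
      2 ≤ (Nat.card ψ.ker : ℤ) ∧
      (Nat.card ψ.ker : ℤ) = 3 * ds E (lft ψ E') - 1 ∧
      (∀ x ∈ D, ¬ (x ∈ E ↔ x ∈ lft ψ E')) ∧
      ((E ⊆ lft ψ E') ∨ (lft ψ E' ⊆ E)) ∧
      (∀ x, ¬ (x ∈ E ↔ x ∈ lft ψ E') → gd E' (ψ x)) ∧
      (∀ x y, ¬ (x ∈ E ↔ x ∈ lft ψ E') → ¬ (y ∈ E ↔ y ∈ lft ψ E') →
        ψ x + ψ y ∈ E' ∧ ψ x - ψ y ∈ E') := by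
  have hc1 : 1 ≤ D.card := hDne.card_pos
  have hgt : 1 < dlS E2 := by
    interval_cases hc : D.card
    · have := h4 rfl; linarith
    · norm_num at h17; linarith
  obtain ⟨R, i1, i2, i3, ψ, E', hψ, hE', hρ, hle⟩ := sym_struct E2 hgt
  set h' : ℤ := (Nat.card ψ.ker : ℤ) with hh'
  set X' := lft ψ E' with hX'
  have hds2 := ds_nonneg E2 X'
  have hker2 : 2 ≤ h' := by linarith
  have hρ2 : 3 * (D.card : ℤ) - 1 ≤ h' - 3 * ds E2 X' := by
    interval_cases hc : D.card
    · push_cast; linarith
    · by_contra hlt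
      push Not at hlt
      push_cast at hlt h17
      nlinarith
  have hne := ker_ne_bot ψ hker2
  have hcX' : (X'.card : ℤ) = h' * E'.card := card_lft ψ hψ E'
  obtain ⟨k', hk'⟩ := hE'.odd
  obtain ⟨k, hk⟩ := hE.odd
  have hprim := hE.prim ψ.ker hne X' (per_lft ψ E') ⟨k', by rw [hcX', hk']; ring⟩
  rw [← hh'] at hprim
  obtain ⟨m, hm⟩ := ds_parity E X'
  -- pointwise comparison
  have hpt : ∀ x, |ind E x - ind X' x| - |ind E2 x - ind X' x| ≤ ind D x := by
    intro x
    rw [← hE2]
    unfold ind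
    by_cases a : x ∈ E <;> by_cases b : x ∈ D <;> by_cases c : x ∈ X' <;>
      simp [a, b, c, Finset.mem_symmDiff]
  have hsumle : ds E X' - ds E2 X' ≤ D.card := by
    rw [← sum_ind D]
    unfold ds
    rw [← Finset.sum_sub_distrib]
    exact Finset.sum_le_sum fun x _ => hpt x
  have heq : h' - 3 * ds E X' = -1 := by
    have h1 : -1 ≤ h' - 3 * ds E X' := by linarith
    have h2 : h' - 3 * ds E X' ≠ 0 := by
      rw [hm, hcX', hk, hk']
      intro h0
      have : 2 * (h' - 3 * k - 3 * h' * k' - 3 * m - 2 * h' - 2) = -1 := by linarith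
      omega
    omega
  have hsumeq : ds E X' - ds E2 X' = D.card := by
    apply le_antisymm hsumle
    linarith
  have hpteq : ∀ x, |ind E x - ind X' x| - |ind E2 x - ind X' x| = ind D x := by
    have h1 : ∑ x, (|ind E x - ind X' x| - |ind E2 x - ind X' x|) = ∑ x, ind D x := by
      rw [sum_ind, Finset.sum_sub_distrib]; exact hsumeq
    have h2 := (Finset.sum_eq_sum_iff_of_le (fun x _ => hpt x)).mp h1
    intro x; exact h2 x (Finset.mem_univ x)
  have hDx : ∀ x ∈ D, ¬ (x ∈ E ↔ x ∈ X') := by
    intro x hx hiff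
    have h1 := hpteq x
    rw [ind_mem hx] at h1
    have h2 : ind E x = ind X' x := by unfold ind; simp only [hiff]
    rw [h2, sub_self, abs_zero] at h1
    have := abs_nonneg (ind E2 x - ind X' x)
    linarith
  -- the upper bound is tight
  have hup := hE'.upper ψ hψ E
  have hdl : dlS E = 1 := hE.dl1
  rw [hdl, ← hh', ← hX'] at hup
  set s1 := ds E X' with hs1
  have hh3 : h' = 3 * s1 - 1 := by linarith
  set σ := ∑ x, pp E X' x with hσ
  have hσs : σ^2 ≤ s1^2 := by
    rw [sq_le_sq]
    have h1 : |σ| ≤ s1 := Finset.abs_sum_le_sum_abs _ _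
    exact h1.trans (le_abs_self _)
  have htb := tb_nonneg ψ E E'
  have hW1 : 0 ≤ W1 E X' := Finset.sum_nonneg fun _ _ => Finset.sum_nonneg fun _ _ => im_nonneg _
  have hW2 : 0 ≤ W2 E X' := Finset.sum_nonneg fun _ _ => Finset.sum_nonneg fun _ _ => im_nonneg _
  have hN3 : 0 ≤ N3 E X' := Finset.sum_nonneg fun _ _ => Finset.sum_nonneg fun _ _ => im_nonneg _
  have hexp : h'^2 - 6 * h' * s1 + 9 * s1^2 = 1 := by rw [hh3]; ring
  have hhtb : 0 ≤ h' * tb ψ E E' := mul_nonneg (by linarith) htb
  have e1 : h' * tb ψ E E' = 0 := by linarith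
  have e2 : σ^2 = s1^2 := by linarith
  have e3 : W1 E X' = 0 := by linarith
  have e4 : W2 E X' = 0 := by linarith
  have e5 : tb ψ E E' = 0 := by
    rcases mul_eq_zero.mp e1 with h | h
    · linarith
    · exact h
  have hppne : ∀ x, ¬ (x ∈ E ↔ x ∈ X') → |pp E X' x| = 1 := by
    intro x hx
    unfold pp ind
    by_cases a : x ∈ E <;> by_cases b : x ∈ X'
    · exact absurd (by simp [a, b]) hx
    · simp [a, b]
    · simp [a, b]
    · exact absurd (by simp [a, b]) hx
  have hgood : ∀ x, ¬ (x ∈ E ↔ x ∈ X') → gd E' (ψ x) := by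
    intro x hx
    rw [← gd_iff_bad]
    unfold tb at e5
    have h1 := (Finset.sum_eq_zero_iff_of_nonneg
      (fun x _ => mul_nonneg (abs_nonneg _) (bad_nonneg _ _))).mp e5 x (Finset.mem_univ x)
    rw [← hX', hppne x hx, one_mul] at h1
    exact h1
  -- same sign
  have hs1pos : 0 < s1 := by linarith
  have hsign : σ = s1 ∨ σ = -s1 := by
    have : (σ - s1) * (σ + s1) = 0 := by linear_combination e2
    rcases mul_eq_zero.mp this with h | h
    · left; linarith
    · right; linarith
  have hsub : (E ⊆ X') ∨ (X' ⊆ E) := by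
    rcases hsign with h | h
    · right
      have h1 : ∑ x, pp E X' x = ∑ x, |pp E X' x| := h
      have h2 := (Finset.sum_eq_sum_iff_of_le (fun x _ => le_abs_self (pp E X' x))).mp h1
      intro x hx
      by_contra hn
      have h3 := h2 x (Finset.mem_univ x)
      unfold pp at h3
      rw [ind_not_mem hn, ind_mem hx] at h3
      norm_num at h3
    · left
      have h1 : ∑ x, -pp E X' x = ∑ x, |pp E X' x| := by
        rw [Finset.sum_neg_distrib, ← hσ, h, neg_neg]; rfl
      have h2 := (Finset.sum_eq_sum_iff_of_le (fun x _ => neg_le_abs (pp E X' x))).mp h1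
      intro x hx
      by_contra hn
      have h3 := h2 x (Finset.mem_univ x)
      unfold pp at h3
      rw [ind_not_mem hn, ind_mem hx] at h3
      norm_num at h3
  have hpp1 : ∀ x y, ¬ (x ∈ E ↔ x ∈ X') → ¬ (y ∈ E ↔ y ∈ X') → pp E X' x * pp E X' y = 1 := by
    intro x y hx hy
    unfold pp ind
    rcases hsub with h | h
    · by_cases a : x ∈ E
      · exact absurd (by simp [a, h a]) hx
      · by_cases b : y ∈ E
        · exact absurd (by simp [b, h b]) hy
        · have a' : x ∈ X' := by by_contra hn; exact hx (by simp [a, hn])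
          have b' : y ∈ X' := by by_contra hn; exact hy (by simp [b, hn])
          simp [a, b, a', b']
    · by_cases a : x ∈ X'
      · exact absurd (by simp [a, h a]) hx
      · by_cases b : y ∈ X'
        · exact absurd (by simp [b, h b]) hy
        · have a' : x ∈ E := by by_contra hn; exact hx (by simp [a, hn])
          have b' : y ∈ E := by by_contra hn; exact hy (by simp [b, hn])
          simp [a, b, a', b']
  have hpairs : ∀ x y, ¬ (x ∈ E ↔ x ∈ X') → ¬ (y ∈ E ↔ y ∈ X') →
      ψ x + ψ y ∈ E' ∧ ψ x - ψ y ∈ E' := by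
    intro x y hx hy
    have h1 := hpp1 x y hx hy
    constructor
    · unfold W1 at e3
      have h2 := (Finset.sum_eq_zero_iff_of_nonneg
        (fun x _ => Finset.sum_nonneg fun _ _ => im_nonneg _)).mp e3 x (Finset.mem_univ x)
      have h3 := (Finset.sum_eq_zero_iff_of_nonneg
        (fun x _ => im_nonneg _)).mp h2 y (Finset.mem_univ y)
      rw [h1, one_mul] at h3
      have h4 : tau X' (x + y) = 1 := by
        rcases tau_cases X' (x + y) with h | h
        · exact h
        · rw [h] at h3; unfold im at h3; norm_num at h3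
      rw [tau_eq_one, hX', mem_lft, map_add] at h4
      exact h4
    · unfold W2 at e4
      have h2 := (Finset.sum_eq_zero_iff_of_nonneg
        (fun x _ => Finset.sum_nonneg fun _ _ => im_nonneg _)).mp e4 x (Finset.mem_univ x)
      have h3 := (Finset.sum_eq_zero_iff_of_nonneg
        (fun x _ => im_nonneg _)).mp h2 y (Finset.mem_univ y)
      rw [h1, one_mul] at h3
      have h4 : tau X' (x - y) = 1 := by
        rcases tau_cases X' (x - y) with h | h
        · exact h
        · rw [h] at h3; unfold im at h3; norm_num at h3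
      rw [tau_eq_one, hX', mem_lft, map_sub] at h4
      exact h4
  exact ⟨R, i1, i2, i3, ψ, E', hψ, hE', card_lt_of_ker ψ hψ hker2, hker2, hh3, hDx, hsub,
    hgood, hpairs⟩

lemma ds_of_subset {A X : Finset Q} (h : A ⊆ X) : ds A X = X.card - A.card := by
  rw [← sum_ind, ← sum_ind, ← Finset.sum_sub_distrib]
  unfold ds
  refine Finset.sum_congr rfl fun x _ => ?_
  by_cases hx : x ∈ A
  · rw [ind_mem hx, ind_mem (h hx)]; simp
  · rw [ind_not_mem hx]
    rcases ind_zero_or_one X x with h' | h' <;> rw [h'] <;> simp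

/-- The theorem on special positions. -/
theorem special (n : ℕ) : ∀ (Q : Type u) [AddCommGroup Q] [Fintype Q] [DecidableEq Q],
    Fintype.card Q = n → ∀ E : Finset Q, PSS E →
    (∀ α β, α ∉ E → β ∉ E → gd E α → gd E β → α + β ∈ E → α - β ∈ E →
      ∃ H : AddSubgroup Q, 2 * (Nat.card H : ℤ) = 3 * E.card + 1 ∧ (∀ x ∈ E, x ∈ H) ∧ α ∈ H) ∧
    (1 < E.card → ∀ α β, α ∈ E → β ∈ E → gd E α → gd E β → α + β ∈ E → α - β ∈ E → False) := by
  induction n using Nat.strong_induction_on with
  | _ n ih =>
    intro Q _ _ _ hn E hE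
    have hDcard : ∀ α β : Q, ({α, β} : Finset Q).card ≤ 2 := fun α β => Finset.card_le_two
    constructor
    · intro α β hα hβ ga gb h1 h2
      obtain ⟨b1, b2⟩ := dlS_add_special hE hα hβ ga gb h1 h2
      have hsym : symmDiff E {α, β} = E ∪ {α, β} := by
        ext x
        rw [Finset.mem_symmDiff, Finset.mem_union, Finset.mem_insert, Finset.mem_singleton]
        constructor
        · rintro (⟨a, _⟩ | ⟨a, _⟩)
          · left; exact a
          · right; exact a
        · rintro (a | a)
          · left; refine ⟨a, ?_⟩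
            rintro (rfl | rfl) <;> contradiction
          · right; refine ⟨a, ?_⟩
            rcases a with rfl | rfl <;> assumption
      obtain ⟨R, i1, i2, i3, ψ, E', hψ, hE', hlt, hker2, hh, hDx, hsub, hgood, hpairs⟩ :=
        tight hE hsym (Finset.insert_nonempty _ _) b1 (hDcard α β) b2
      have hαx := hDx α (Finset.mem_insert_self _ _)
      have hαX : α ∈ lft ψ E' := by
        by_contra hn; exact hαx (by simp [hα, hn])
      have hEsub : E ⊆ lft ψ E' := by
        rcases hsub with h | h
        · exact h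
        · exact absurd (h hαX) hα
      obtain ⟨p1, p2⟩ := hpairs α α hαx hαx
      have hcard1 : E'.card = 1 := by
        by_contra hne
        have hpos : 0 < E'.card := Finset.card_pos.mpr ⟨0, hE'.zero_mem⟩
        have h1' : 1 < E'.card := by omega
        have ihR := (ih _ (by rw [← hn]; exact hlt) R rfl E' hE').2 h1' (ψ α) (ψ α)
          ((mem_lft _ _ _).mp hαX) ((mem_lft _ _ _).mp hαX) (hgood α hαx) (hgood α hαx) p1 p2
        exact ihR
      obtain ⟨e0, he0⟩ := Finset.card_eq_one.mp hcard1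
      have he00 : e0 = 0 := by
        have := hE'.zero_mem
        rw [he0, Finset.mem_singleton] at this; exact this.symm
      subst he00
      refine ⟨ψ.ker, ?_, ?_, ?_⟩
      · have hcX := card_lft ψ hψ E'
        rw [hcard1] at hcX
        rw [ds_of_subset hEsub, hcX] at hh
        push_cast at hh
        linarith
      · intro x hx
        have := hEsub hx
        rw [mem_lft, he0, Finset.mem_singleton] at this
        exact this
      · rw [mem_lft, he0, Finset.mem_singleton] at hαX
        exact hαX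
    · intro hcE α β hα hβ ga gb h1 h2
      have hα0 : α ≠ 0 := by rintro rfl; exact hE.zero_not_gd hcE ga
      have hβ0 : β ≠ 0 := by rintro rfl; exact hE.zero_not_gd hcE gb
      obtain ⟨b1, b2⟩ := dlS_sub_special hE hα hβ hα0 hβ0 ga gb h1 h2
      have hsym : symmDiff E {α, β} = E \ {α, β} := by
        ext x
        rw [Finset.mem_symmDiff, Finset.mem_sdiff, Finset.mem_insert, Finset.mem_singleton]
        constructor
        · rintro (⟨a, b⟩ | ⟨a, b⟩)
          · exact ⟨a, b⟩
          · exfalso; rcases a with rfl | rfl <;> contradiction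
        · intro h; left; exact h
      obtain ⟨R, i1, i2, i3, ψ, E', hψ, hE', hlt, hker2, hh, hDx, hsub, hgood, hpairs⟩ :=
        tight hE hsym (Finset.insert_nonempty _ _) b1 (hDcard α β) b2
      have hαx := hDx α (Finset.mem_insert_self _ _)
      have hαX : α ∉ lft ψ E' := by
        intro hn; exact hαx (by simp [hα, hn])
      have hEsub : lft ψ E' ⊆ E := by
        rcases hsub with h | h
        · exact absurd (h hα) hαX
        · exact h
      obtain ⟨p1, p2⟩ := hpairs α α hαx hαx
      obtain ⟨Hb, hHb, hE'sub, hψα⟩ := (ih _ (by rw [← hn]; exact hlt) R rfl E' hE').1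
        (ψ α) (ψ α) (fun h => hαX ((mem_lft _ _ _).mpr h))
        (fun h => hαX ((mem_lft _ _ _).mpr h)) (hgood α hαx) (hgood α hαx) p1 p2
      -- the contradiction
      classical
      set K' := Hb.comap ψ with hK'
      have hEK : ∀ x ∈ E, x ∈ K' := by
        intro x hx
        rw [hK', AddSubgroup.mem_comap]
        by_cases hxX : x ∈ lft ψ E'
        · exact hE'sub _ ((mem_lft _ _ _).mp hxX)
        · have hxx : ¬ (x ∈ E ↔ x ∈ lft ψ E') := by
            intro hiff; exact hxX (hiff.mp hx)
          have h3 := (hpairs x α hxx hαx).2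
          have h4 := Hb.add_mem (hE'sub _ h3) hψα
          rwa [sub_add_cancel] at h4
      set XK : Finset Q := cos K' 0 with hXK
      have hXKmem : ∀ x, x ∈ XK ↔ x ∈ K' := by
        intro x; rw [hXK, mem_cos, sub_zero]
      have hper : Per K' XK := by
        intro x t ht
        rw [hXKmem, hXKmem]
        exact AddSubgroup.add_mem_cancel_right K' ht
      have hcK : (XK.card : ℤ) = Nat.card K' := by rw [hXK, card_cos]
      have hK'card : (Nat.card K' : ℤ) = Nat.card ψ.ker * Nat.card Hb := card_comap ψ hψ Hb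
      have hHb1 := card_pos_sub Hb
      have hK'ne : K' ≠ ⊥ := by
        intro hbot
        rw [hbot] at hK'card
        simp only [AddSubgroup.card_bot, Nat.cast_one] at hK'card
        nlinarith
      have hprim := hE.prim K' hK'ne XK hper ⟨0, by rw [hcK]; ring⟩
      have hEXK : E ⊆ XK := fun x hx => (hXKmem x).mpr (hEK x hx)
      rw [ds_of_subset hEXK, hcK] at hprim
      have hEc : ds E (lft ψ E') = E.card - (lft ψ E').card := by
        rw [ds_comm, ds_of_subset hEsub]
      rw [card_lft ψ hψ] at hEc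
      rw [hEc] at hh
      nlinarith

end Pool.Agent.Lib_helper42.RS
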