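import Mathlib
import Pool.Agent.Lib_helper42.RS.Special

/-!
The upper bound for `dlS`.
-/

set_option autoImplicit false
set_option linter.unusedSectionVars false

namespace Pool.Agent.Lib_helper42.RS

open Finset

universe u

variable {G : Type u} [AddCommGroup G] [Fintype G] [DecidableEq G]
variable {Q : Type u} [AddCommGroup Q] [Fintype Q] [DecidableEq Q]

lemma sum_pp (B X : Finset G) : ∑ x, pp B X x = (B.card : ℤ) - X.card := by
  unfold pp; rw [Finset.sum_sub_distrib, sum_ind, sum_ind]

lemma nice_pairs (φ : G →+ Q) (B : Finset G) (E : Finset Q) (ε : ℤ)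
    (hε : ε = 1 ∨ ε = -1) (D : Finset G)
    (hD : ∀ x, x ∈ D ↔ pp B (lft φ E) x = ε)
    (hnice : ∀ x ∈ D, ∀ y ∈ D, gd E (φ x) → gd E (φ y) →
      ¬ (φ x + φ y ∈ E ∧ φ x - φ y ∈ E)) :
    ∃ vg : ℤ, 0 ≤ vg ∧ vg ≤ D.card ∧ (D.card : ℤ) - tb φ B E ≤ vg ∧
      vg^2 ≤ W1 B (lft φ E) + W2 B (lft φ E) := by
  classical
  set Dg := D.filter (fun x => gd E (φ x)) with hDg
  refine ⟨Dg.card, by positivity, ?_, ?_, ?_⟩
  · exact_mod_cast Finset.card_filter_le _ _
  · -- tb counts the rest
    have h1 : ((D.filter (fun x => ¬ gd E (φ x))).card : ℤ) ≤ tb φ B E := by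
      rw [← sum_ind]
      unfold tb
      refine Finset.sum_le_sum fun x _ => ?_
      by_cases hx : x ∈ D.filter (fun x => ¬ gd E (φ x))
      · rw [ind_mem hx]
        rw [Finset.mem_filter] at hx
        rw [(hD x).mp hx.1]
        have h2 : bad E (φ x) = 1 := by
          unfold bad; exact if_neg hx.2
        rw [h2]
        rcases hε with h | h <;> rw [h] <;> norm_num
      · rw [ind_not_mem hx]
        exact mul_nonneg (abs_nonneg _) (bad_nonneg _ _)
    have h2 : (D.card : ℤ) = Dg.card + (D.filter (fun x => ¬ gd E (φ x))).card := by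
      have := Finset.card_filter_add_card_filter_not (s := D) (fun x => gd E (φ x))
      rw [← this]; push_cast; rfl
    linarith
  · have h1 : ((Dg.card : ℤ))^2 = ∑ x, ∑ y, ind Dg x * ind Dg y := by
      rw [sq, ← sum_ind, Finset.sum_mul_sum]
    rw [h1]
    unfold W1 W2
    rw [← Finset.sum_add_distrib]
    refine Finset.sum_le_sum fun x _ => ?_
    rw [← Finset.sum_add_distrib]
    refine Finset.sum_le_sum fun y _ => ?_
    have n1 := im_nonneg (pp B (lft φ E) x * pp B (lft φ E) y * tau (lft φ E) (x + y))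
    have n2 := im_nonneg (pp B (lft φ E) x * pp B (lft φ E) y * tau (lft φ E) (x - y))
    by_cases hx : x ∈ Dg
    · by_cases hy : y ∈ Dg
      · rw [ind_mem hx, ind_mem hy]
        rw [hDg, Finset.mem_filter] at hx hy
        have px := (hD x).mp hx.1
        have py := (hD y).mp hy.1
        have hp : pp B (lft φ E) x * pp B (lft φ E) y = 1 := by
          rw [px, py]; rcases hε with h | h <;> rw [h] <;> norm_num
        simp only [hp, one_mul]
        have h2 := hnice x hx.1 y hy.1 hx.2 hy.2
        have t1 : tau (lft φ E) (x + y) = tau E (φ x + φ y) := by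
          unfold tau; rw [ind_lft, map_add]
        have t2 : tau (lft φ E) (x - y) = tau E (φ x - φ y) := by
          unfold tau; rw [ind_lft, map_sub]
        rw [hp, one_mul, t1] at n1
        rw [hp, one_mul, t2] at n2
        rw [t1, t2]
        rw [not_and_or] at h2
        rcases h2 with h2 | h2
        · have : tau E (φ x + φ y) = -1 := by
            rcases tau_cases E (φ x + φ y) with h | h
            · exact absurd (tau_eq_one.mp h) h2
            · exact h
          rw [this]
          have : im (-1) = 1 := by unfold im; simp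
          rw [this]; linarith
        · have : tau E (φ x - φ y) = -1 := by
            rcases tau_cases E (φ x - φ y) with h | h
            · exact absurd (tau_eq_one.mp h) h2
            · exact h
          rw [this]
          have : im (-1) = 1 := by unfold im; simp
          rw [this]; linarith
      · rw [ind_not_mem hy]; linarith
    · rw [ind_not_mem hx]; linarith

lemma arithA {h u v t vg W σ s d : ℤ} (hs : s = u + v) (hσ : σ = v - u) (hu : 0 ≤ u)
    (hv : 0 ≤ v) (ht : 0 ≤ t) (hh : 3 * s ≤ h) (hvg0 : 0 ≤ vg) (hvg : v - t ≤ vg)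
    (hW : vg^2 ≤ W)
    (hd : d ≤ h^2 - 6 * h * s - 4 * h * t + 3 * σ^2 + 6 * s^2 - 4 * W) :
    d ≤ (h - σ) * (h - 5 * σ) := by
  have h1 : v^2 - 2 * v * t ≤ vg^2 := by
    by_cases hc : t ≤ v
    · have : (v - t)^2 ≤ vg^2 := by
        apply pow_le_pow_left₀ (by linarith) hvg
      nlinarith [sq_nonneg t]
    · push Not at hc
      nlinarith [sq_nonneg vg]
  have h2 : 3 * s * u ≤ h * u := mul_le_mul_of_nonneg_right hh hu
  have h3 : 3 * s * t ≤ h * t := mul_le_mul_of_nonneg_right hh ht
  subst hs hσ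
  nlinarith [mul_nonneg hu hv, mul_nonneg hu ht, mul_nonneg hv ht, sq_nonneg u, sq_nonneg v]

lemma arithB {h u v σ s d : ℤ} (hs : s = u + v) (hσ : σ = v - u) (hu : 0 ≤ u)
    (hv : 0 ≤ v) (hh : 3 * s ≤ h)
    (hd : d ≤ h^2 - 6 * h * s + 3 * σ^2 + 6 * s^2) :
    d ≤ (h - 3 * σ)^2 := by
  have h2 : 3 * s * u ≤ h * u := mul_le_mul_of_nonneg_right hh hu
  subst hs hσ
  nlinarith [mul_nonneg hu hv, sq_nonneg u]

lemma PSS.card_bound {E : Finset Q} (hE : PSS E) (hQ : 2 ≤ Fintype.card Q) :
    3 * (E.card : ℤ) + 1 ≤ 2 * Fintype.card Q := by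
  have hne : (⊤ : AddSubgroup Q) ≠ ⊥ := by
    intro h
    have h1 : Nat.card (⊤ : AddSubgroup Q) = Nat.card (⊥ : AddSubgroup Q) := by rw [h]
    rw [AddSubgroup.card_top, AddSubgroup.card_bot, Nat.card_eq_fintype_card] at h1
    omega
  have h1 := hE.prim ⊤ hne univ per_top_univ
    ⟨0, by rw [card_top_int, Finset.card_univ]; ring⟩
  rw [ds_univ, card_top_int] at h1
  obtain ⟨k, hk⟩ := hE.odd
  omega

/-- The four possibilities. -/
theorem upper_cases (B : Finset G) (hd : 1 < dlS B) :
    ∃ h j s : ℕ, 0 < h ∧ h ∣ Fintype.card G ∧ 3 * s < h ∧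
      ((B.card + s = h ∧ dlS B ≤ ((h:ℤ) - 3 * s)^2) ∨
       (B.card = (2 * j + 1) * h + s ∧ (3 * j + 2) * h ∣ Fintype.card G ∧
          dlS B ≤ ((h:ℤ) - 3 * s)^2) ∨
       (B.card = (2 * j + 1) * h + s ∧ (3 * j + 2) * h ≤ Fintype.card G ∧
          dlS B ≤ ((h:ℤ) - s) * (h - 5 * s)) ∨
       (B.card + s = (2 * j + 1) * h ∧ 1 ≤ j ∧ (3 * j + 2) * h ≤ Fintype.card G ∧
          dlS B ≤ ((h:ℤ) - s) * (h - 5 * s))) := by
  classical
  obtain ⟨Q, i1, i2, i3, φ, E, hφ, hE, hρ, _⟩ := sym_struct B hd
  set X := lft φ E with hX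
  set h : ℕ := Nat.card φ.ker with hh
  have hup := hE.upper φ hφ B
  rw [← hX, ← hh, sum_pp] at hup
  have hXc : (X.card : ℤ) = h * E.card := card_lft φ hφ E
  have hG : (Fintype.card G : ℤ) = h * Fintype.card Q := card_G φ hφ
  have hGn : Fintype.card G = h * Fintype.card Q := by exact_mod_cast hG
  have hh0 : 0 < h := Nat.card_pos
  obtain ⟨j', hj'⟩ := hE.odd
  have hj0 : 0 ≤ j' := by
    have h1 : (0:ℤ) < E.card := by
      exact_mod_cast Finset.card_pos.mpr ⟨0, hE.zero_mem⟩
    omega
  obtain ⟨j, rfl⟩ := Int.eq_ofNat_of_zero_le hj0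
  -- sizes
  set u : ℤ := ((X \ B).card : ℤ) with hu
  set v : ℤ := ((B \ X).card : ℤ) with hv
  have hu0 : 0 ≤ u := by positivity
  have hv0 : 0 ≤ v := by positivity
  have hs : ds B X = u + v := by
    have := CU.card_sdiff_add B X
    rw [← this, hu, hv]; ring
  have hσ : (B.card : ℤ) - X.card = v - u := by
    have h1 := card_eq_sdiff_inter B X
    have h2 := card_eq_sdiff_inter X B
    rw [Finset.inter_comm] at h2
    rw [h1, h2, hu, hv]; ring
  have htb := tb_nonneg φ B E
  have hW1 : 0 ≤ W1 B X := Finset.sum_nonneg fun _ _ => Finset.sum_nonneg fun _ _ => im_nonneg _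
  have hW2 : 0 ≤ W2 B X := Finset.sum_nonneg fun _ _ => Finset.sum_nonneg fun _ _ => im_nonneg _
  have hN3 : 0 ≤ N3 B X := Finset.sum_nonneg fun _ _ => Finset.sum_nonneg fun _ _ => im_nonneg _
  have hhZ : (0:ℤ) < h := by exact_mod_cast hh0
  have hhtb : 0 ≤ (h:ℤ) * tb φ B E := mul_nonneg hhZ.le htb
  have hppp : ∀ x, x ∈ B \ X ↔ pp B X x = 1 := by
    intro x; unfold pp ind
    by_cases a : x ∈ B <;> by_cases b : x ∈ X <;> simp [a, b]
  have hppm : ∀ x, x ∈ X \ B ↔ pp B X x = -1 := by
    intro x; unfold pp ind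
    by_cases a : x ∈ B <;> by_cases b : x ∈ X <;> simp [a, b]
  have hdiv : h ∣ Fintype.card G := ⟨_, hGn⟩
  rw [hs] at hρ hup
  rw [hσ] at hup
  rcases le_or_gt u v with huv | huv
  · -- addition case
    obtain ⟨s, hs'⟩ : ∃ s : ℕ, (s:ℤ) = v - u := ⟨(v - u).toNat, by
      rw [Int.toNat_of_nonneg (by linarith)]⟩
    have h3s : 3 * s < h := by
      have : 3 * (s:ℤ) < h := by rw [hs']; linarith
      exact_mod_cast this
    have hB : B.card = (2 * j + 1) * h + s := by
      have : (B.card : ℤ) = (2 * j + 1) * h + s := by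
        rw [hs', ← hσ, hXc, hj']; push_cast; ring
      exact_mod_cast this
    by_cases hsp : ∃ α β, α ∉ E ∧ β ∉ E ∧ gd E α ∧ gd E β ∧ α + β ∈ E ∧ α - β ∈ E
    · obtain ⟨α, β, a1, a2, a3, a4, a5, a6⟩ := hsp
      obtain ⟨H', hH', _, _⟩ := (special _ Q rfl E hE).1 α β a1 a2 a3 a4 a5 a6
      have hcH : Nat.card H' = 3 * j + 2 := by
        have : (Nat.card H' : ℤ) = 3 * j + 2 := by
          rw [hj'] at hH'; push_cast at hH'; linarith
        exact_mod_cast this
      refine ⟨h, j, s, hh0, hdiv, h3s, Or.inr (Or.inl ⟨hB, ?_, ?_⟩)⟩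
      · have h1 : Nat.card H' ∣ Nat.card Q := AddSubgroup.card_addSubgroup_dvd_card H'
        rw [hcH, Nat.card_eq_fintype_card] at h1
        rw [hGn, mul_comm]
        exact Nat.mul_dvd_mul_left h h1
      · rw [hs']
        refine arithB (u := u) (v := v) (s := u + v) rfl rfl hu0 hv0 (by linarith) ?_
        linarith
    · push Not at hsp
      by_cases hQ2 : 2 ≤ Fintype.card Q
      · refine ⟨h, j, s, hh0, hdiv, h3s, Or.inr (Or.inr (Or.inl ⟨hB, ?_, ?_⟩))⟩
        · have h1 := hE.card_bound hQ2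
          rw [hj'] at h1
          have h2 : 3 * j + 2 ≤ Fintype.card Q := by
            push_cast at h1; omega
          rw [hGn, mul_comm]
          exact Nat.mul_le_mul_left h h2
        · obtain ⟨vg, g1, g2, g3, g4⟩ := nice_pairs φ B E 1 (Or.inl rfl) (B \ X) hppp (by
            intro x hx y hy gx gy ⟨c1, c2⟩
            rw [Finset.mem_sdiff, hX, mem_lft] at hx hy
            exact hsp (φ x) (φ y) hx.2 hy.2 gx gy c1 c2)
          rw [hs']
          rw [← hX] at g4
          refine arithA (u := u) (v := v) (s := u + v) (t := tb φ B E) (vg := vg)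
            (W := W1 B X + W2 B X) rfl rfl hu0 hv0 htb (by linarith) g1 g3 g4 ?_
          linarith
      · -- trivial quotient
        have hQ1 : Fintype.card Q = 1 := by
          have : 0 < Fintype.card Q := Fintype.card_pos
          omega
        have hBle : (B.card : ℤ) ≤ Fintype.card G := by exact_mod_cast Finset.card_le_univ B
        have hEle : (E.card : ℤ) ≤ Fintype.card Q := by exact_mod_cast Finset.card_le_univ E
        rw [hQ1] at hG hEle
        rw [hj'] at hEle
        push_cast at hEle hG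
        have hj00 : (j:ℤ) = 0 := by omega
        have hs0 : (s:ℤ) = 0 := by
          have hB' : (B.card : ℤ) = (2 * j + 1) * h + s := by exact_mod_cast hB
          rw [hj00] at hB'
          have : (0:ℤ) ≤ s := by positivity
          linarith
        have hs0' : s = 0 := by exact_mod_cast hs0
        have hj0' : j = 0 := by exact_mod_cast hj00
        refine ⟨h, 0, 0, hh0, hdiv, by omega, Or.inl ⟨?_, ?_⟩⟩
        · rw [hB, hs0', hj0']; ring
        · have h1 := arithB (h := (h:ℤ)) (u := u) (v := v) (s := u + v) (σ := v - u)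
            (d := dlS B) rfl rfl hu0 hv0 (by linarith) (by linarith)
          rw [← hs', hs0] at h1
          simpa using h1
  · -- removal case
    obtain ⟨s, hs'⟩ : ∃ s : ℕ, (s:ℤ) = u - v := ⟨(u - v).toNat, by
      rw [Int.toNat_of_nonneg (by linarith)]⟩
    have h3s : 3 * s < h := by
      have : 3 * (s:ℤ) < h := by rw [hs']; linarith
      exact_mod_cast this
    have hB : B.card + s = (2 * j + 1) * h := by
      have : (B.card : ℤ) + s = (2 * j + 1) * h := by
        have h1 : (B.card : ℤ) + s = X.card := by rw [hs']; linarith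
        rw [h1, hXc, hj']; push_cast; ring
      exact_mod_cast this
    by_cases hj1 : 1 ≤ j
    · have hcE : 1 < E.card := by
        have : (1:ℤ) < E.card := by
          rw [hj']
          have : (1:ℤ) ≤ j := by exact_mod_cast hj1
          push_cast
          linarith
        exact_mod_cast this
      have hQ2 : 2 ≤ Fintype.card Q := by
        have := Finset.card_le_univ E
        omega
      refine ⟨h, j, s, hh0, hdiv, h3s, Or.inr (Or.inr (Or.inr ⟨hB, hj1, ?_, ?_⟩))⟩
      · have h1 := hE.card_bound hQ2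
        rw [hj'] at h1
        have h2 : 3 * j + 2 ≤ Fintype.card Q := by
          push_cast at h1; omega
        rw [hGn, mul_comm]
        exact Nat.mul_le_mul_left h h2
      · obtain ⟨vg, g1, g2, g3, g4⟩ := nice_pairs φ B E (-1) (Or.inr rfl) (X \ B) hppm (by
            intro x hx y hy gx gy ⟨c1, c2⟩
            rw [Finset.mem_sdiff, hX, mem_lft] at hx hy
            exact (special _ Q rfl E hE).2 hcE (φ x) (φ y) hx.1 hy.1 gx gy c1 c2)
        rw [hs']
        rw [← hX] at g4
        have e : ((h:ℤ) - (u - v)) * (h - 5 * (u - v)) = ((h:ℤ) - (u - v)) * (h - 5 * (u - v)) :=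
          rfl
        refine arithA (u := v) (v := u) (s := u + v) (σ := u - v) (t := tb φ B E) (vg := vg)
            (W := W1 B X + W2 B X) (by ring) rfl hv0 hu0 htb (by linarith) g1 g3 g4 ?_
        have : (u - v)^2 = (v - u)^2 := by ring
        rw [this]
        linarith
    · have hj0' : j = 0 := by omega
      subst hj0'
      refine ⟨h, 0, s, hh0, hdiv, h3s, Or.inl ⟨?_, ?_⟩⟩
      · rw [hB]; ring
      · rw [hs']
        refine arithB (u := v) (v := u) (s := u + v) (σ := u - v) (by ring) rfl hv0 hu0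
          (by linarith) ?_
        have : (u - v)^2 = (v - u)^2 := by ring
        rw [this]
        linarith

end Pool.Agent.Lib_helper42.RS
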