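import Mathlib
import Pool.Agent.Lib_helper42.RS.Upper

/-!
The closed formula and the lower bound for the number of Schur triples.
-/

set_option autoImplicit false
set_option linter.unusedSectionVars false

namespace Pool.Agent.Lib_helper42.RS

open Finset

universe u

/-- the contribution of the divisor `h` of `n` -/
def psi (n h b : ℕ) : ℕ :=
  let j := b / (2 * h)
  let r := b % (2 * h)
  let s := if r ≤ h then h - r else r - h
  if (3 * s ≤ h ∧ r ≤ h ∧ j = 0) ∨ (3 * s ≤ h ∧ h ≤ r ∧ (3 * j + 2) ∣ n / h) then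
    (h - 3 * s) ^ 2
  else if 3 * j + 2 ≤ n / h ∧ 5 * s ≤ h then (h - s) * (h - 5 * s)
  else 0

/-- the maximum over all divisors -/
def Psi (n b : ℕ) : ℕ := n.divisors.sup (fun h => psi n h b)

lemma psi_le_Psi {n h b : ℕ} (hn : n ≠ 0) (hh : h ∣ n) : psi n h b ≤ Psi n b :=
  Finset.le_sup (f := fun h => psi n h b) (Nat.mem_divisors.mpr ⟨hh, hn⟩)

lemma div_mod_aux {h j r : ℕ} (hh : 0 < h) (hr : r < 2 * h) :
    (2 * h * j + r) / (2 * h) = j ∧ (2 * h * j + r) % (2 * h) = r := by
  constructor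
  · rw [Nat.mul_add_div (by omega), Nat.div_eq_of_lt hr, add_zero]
  · rw [Nat.mul_add_mod, Nat.mod_eq_of_lt hr]

/-- R0 -/
lemma psi_R0 {n h b s : ℕ} (hh : 0 < h) (h3 : 3 * s ≤ h) (hb : b + s = h) :
    psi n h b = (h - 3 * s) ^ 2 := by
  have h1 : b / (2 * h) = 0 := Nat.div_eq_of_lt (by omega)
  have h2 : b % (2 * h) = b := Nat.mod_eq_of_lt (by omega)
  unfold psi
  simp only [h1, h2]
  have h4 : b ≤ h := by omega
  have h5 : h - b = s := by omega
  rw [if_pos h4, h5, if_pos (Or.inl ⟨h3, h4, trivial⟩)]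

/-- A1 -/
lemma psi_A1 {n h b s j : ℕ} (hh : 0 < h) (h3 : 3 * s ≤ h) (hb : b = (2 * j + 1) * h + s)
    (hd : (3 * j + 2) ∣ n / h) :
    psi n h b = (h - 3 * s) ^ 2 := by
  have hs : s < h := by omega
  have e : b = 2 * h * j + (h + s) := by rw [hb]; ring
  obtain ⟨h1, h2⟩ := div_mod_aux (h := h) (j := j) (r := h + s) hh (by omega)
  rw [← e] at h1 h2
  unfold psi
  simp only [h1, h2]
  have hs2 : (if h + s ≤ h then h - (h + s) else h + s - h) = s := by
    split_ifs with hc
    · omega
    · omega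
  rw [hs2, if_pos (Or.inr ⟨h3, by omega, hd⟩)]

/-- A2 -/
lemma psi_A2 {n h b s j : ℕ} (hh : 0 < h) (h5 : 5 * s ≤ h) (hb : b = (2 * j + 1) * h + s)
    (hd : 3 * j + 2 ≤ n / h) :
    (h - s) * (h - 5 * s) ≤ psi n h b := by
  have hs : s < h := by omega
  have e : b = 2 * h * j + (h + s) := by rw [hb]; ring
  obtain ⟨h1, h2⟩ := div_mod_aux (h := h) (j := j) (r := h + s) hh (by omega)
  rw [← e] at h1 h2
  unfold psi
  simp only [h1, h2]
  have hs2 : (if h + s ≤ h then h - (h + s) else h + s - h) = s := by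
    split_ifs with hc
    · omega
    · omega
  rw [hs2]
  split_ifs with hc hc2
  · obtain ⟨d, rfl⟩ : ∃ d, h = 5 * s + d := ⟨h - 5 * s, by omega⟩
    have a1 : 5 * s + d - s = 4 * s + d := by omega
    have a2 : 5 * s + d - 5 * s = d := by omega
    have a3 : 5 * s + d - 3 * s = 2 * s + d := by omega
    rw [a1, a2, a3]; nlinarith
  · exact le_rfl
  · exact absurd (And.intro hd h5) hc2

/-- R2 -/
lemma psi_R2 {n h b s j : ℕ} (hh : 0 < h) (h5 : 5 * s ≤ h) (hb : b + s = (2 * j + 1) * h)
    (hd : 3 * j + 2 ≤ n / h) :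
    (h - s) * (h - 5 * s) ≤ psi n h b := by
  have hs : s < h := by omega
  have e : b = 2 * h * j + (h - s) := by
    have : b + s = 2 * h * j + h := by rw [hb]; ring
    omega
  obtain ⟨h1, h2⟩ := div_mod_aux (h := h) (j := j) (r := h - s) hh (by omega)
  rw [← e] at h1 h2
  unfold psi
  simp only [h1, h2]
  have hs2 : (if h - s ≤ h then h - (h - s) else h - s - h) = s := by
    split_ifs with hc
    · omega
    · omega
  rw [hs2]
  split_ifs with hc hc2
  · obtain ⟨d, rfl⟩ : ∃ d, h = 5 * s + d := ⟨h - 5 * s, by omega⟩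
    have a1 : 5 * s + d - s = 4 * s + d := by omega
    have a2 : 5 * s + d - 5 * s = d := by omega
    have a3 : 5 * s + d - 3 * s = 2 * s + d := by omega
    rw [a1, a2, a3]; nlinarith
  · exact le_rfl
  · exact absurd (And.intro hd h5) hc2

section
variable {G : Type u} [AddCommGroup G] [Fintype G] [DecidableEq G]

/-- `Psi ≥ 1` for odd `b` -/
lemma one_le_Psi {n b : ℕ} (hn : 0 < n) (hbn : b ≤ n) (hb : b % 2 = 1) : 1 ≤ Psi n b := by
  obtain ⟨j, hj⟩ : ∃ j, b = 2 * j + 1 := ⟨b / 2, by omega⟩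
  by_cases hc : 3 * j + 2 ≤ n
  · have h1 := psi_A2 (n := n) (h := 1) (b := b) (s := 0) (j := j) (by norm_num) (by norm_num)
      (by omega) (by rw [Nat.div_one]; exact hc)
    simp at h1
    exact h1.trans (psi_le_Psi (by omega) (one_dvd n))
  · obtain ⟨s, hs⟩ : ∃ s, b + s = n := ⟨n - b, by omega⟩
    have h1 := psi_R0 (n := n) (h := n) (b := b) (s := s) hn (by omega) hs
    have h2 := psi_le_Psi (n := n) (h := n) (b := b) (by omega) dvd_rfl
    rw [h1] at h2
    refine le_trans ?_ h2
    apply Nat.one_le_pow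
    omega

theorem dlS_le_Psi (B : Finset G) : dlS B ≤ Psi (Fintype.card G) B.card := by
  have hn : 0 < Fintype.card G := Fintype.card_pos
  have hBn : B.card ≤ Fintype.card G := Finset.card_le_univ B
  by_cases hd : 1 < dlS B
  · obtain ⟨h, j, s, hh, hdiv, h3, hcases⟩ := upper_cases B hd
    have hle := psi_le_Psi (b := B.card) (by omega) hdiv
    have hleZ : ((psi (Fintype.card G) h B.card : ℕ) : ℤ) ≤ Psi (Fintype.card G) B.card := by
      exact_mod_cast hle
    rcases hcases with ⟨hb, hv⟩ | ⟨hb, hdd, hv⟩ | ⟨hb, hdd, hv⟩ | ⟨hb, hj, hdd, hv⟩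
    · rw [psi_R0 hh h3.le hb] at hleZ
      refine hv.trans (le_trans ?_ hleZ)
      push_cast [Nat.cast_sub h3.le]; exact le_rfl
    · have hdd' : (3 * j + 2) ∣ Fintype.card G / h := by
        obtain ⟨c, hc⟩ := hdd
        refine ⟨c, ?_⟩
        rw [hc]
        have : (3 * j + 2) * h * c = h * ((3 * j + 2) * c) := by ring
        rw [this, Nat.mul_div_cancel_left _ hh]
      rw [psi_A1 hh h3.le hb hdd'] at hleZ
      refine hv.trans (le_trans ?_ hleZ)
      push_cast [Nat.cast_sub h3.le]; exact le_rfl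
    · have hdd' : 3 * j + 2 ≤ Fintype.card G / h := (Nat.le_div_iff_mul_le hh).mpr hdd
      have h5 : 5 * s ≤ h := by
        by_contra hcon
        push Not at hcon
        have h6 : (h:ℤ) - 5 * s < 0 := by
          have : (h:ℤ) < 5 * s := by exact_mod_cast hcon
          linarith
        have h7 : (0:ℤ) ≤ (h:ℤ) - s := by
          have : (s:ℤ) ≤ h := by
            have : s ≤ h := by omega
            exact_mod_cast this
          linarith
        nlinarith
      have h8 := psi_A2 (n := Fintype.card G) hh h5 hb hdd'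
      have h9 : (((h - s) * (h - 5 * s) : ℕ) : ℤ) ≤ psi (Fintype.card G) h B.card := by
        exact_mod_cast h8
      refine hv.trans (le_trans ?_ (h9.trans hleZ))
      have hs1 : s ≤ h := by omega
      push_cast [Nat.cast_sub h5, Nat.cast_sub hs1]; exact le_rfl
    · have hdd' : 3 * j + 2 ≤ Fintype.card G / h := (Nat.le_div_iff_mul_le hh).mpr hdd
      have h5 : 5 * s ≤ h := by
        by_contra hcon
        push Not at hcon
        have h6 : (h:ℤ) - 5 * s < 0 := by
          have : (h:ℤ) < 5 * s := by exact_mod_cast hcon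
          linarith
        have h7 : (0:ℤ) ≤ (h:ℤ) - s := by
          have : (s:ℤ) ≤ h := by
            have : s ≤ h := by omega
            exact_mod_cast this
          linarith
        nlinarith
      have h8 := psi_R2 (n := Fintype.card G) hh h5 hb hdd'
      have h9 : (((h - s) * (h - 5 * s) : ℕ) : ℤ) ≤ psi (Fintype.card G) h B.card := by
        exact_mod_cast h8
      refine hv.trans (le_trans ?_ (h9.trans hleZ))
      have hs1 : s ≤ h := by omega
      push_cast [Nat.cast_sub h5, Nat.cast_sub hs1]; exact le_rfl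
  · push Not at hd
    by_cases hd0 : dlS B ≤ 0
    · exact hd0.trans (by positivity)
    · have hd1 : dlS B = 1 := by omega
      have hodd : B.card % 2 = 1 := by
        obtain ⟨k, hk⟩ := dl_mod B B (ng B)
        have hd1' : dl B B (ng B) = 1 := hd1
        rw [hd1', card_ng] at hk
        by_contra hcon
        obtain ⟨r, hr⟩ : ∃ r, B.card = 2 * r := ⟨B.card / 2, by omega⟩
        rw [hr] at hk
        push_cast at hk
        have : (1:ℤ) = 4 * (9 * (r * r) + k) := by rw [hk]; ring
        omega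
      rw [hd1]
      exact_mod_cast one_le_Psi hn hBn hodd

/-! ### Schur triples -/

/-- the number of pairs `(a₁, a₂) ∈ A × A` with `a₁ + a₂ ∈ A`. -/
def schur (A : Finset G) : ℕ := ((A ×ˢ A).filter (fun p => p.1 + p.2 ∈ A)).card

lemma schur_eq_N (A : Finset G) : (schur A : ℤ) = N A A (ng A) := by
  unfold schur N tri
  rw [Finset.card_filter]
  push_cast
  rw [Finset.sum_product]
  have : ∀ x y : G, ind A x * ind A y * ind (ng A) (-(x + y)) =
      ind A x * (ind A y * (if x + y ∈ A then 1 else 0)) := by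
    intro x y
    rw [ind_ng, neg_neg]
    unfold ind; ring
  simp only [this]
  have h2 : ∀ x : G, ∑ y, ind A x * (ind A y * (if x + y ∈ A then (1:ℤ) else 0)) =
      ind A x * ∑ y ∈ A, (if x + y ∈ A then (1:ℤ) else 0) := by
    intro x; rw [← Finset.mul_sum, sum_ind_mul]
  simp only [h2]
  rw [sum_ind_mul]

lemma N_compl3 (A B C : Finset G) : N A B Cᶜ = (A.card : ℤ) * B.card - N A B C := by
  have h := N_add_miss A B C
  have h2 : miss A B C = N A B Cᶜ := rfl
  linarith

lemma ng_compl (B : Finset G) : ng Bᶜ = (ng B)ᶜ := by ext x; simp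

/-- relation with `dlS` of the complement. -/
lemma schur_compl (B : Finset G) :
    4 * (schur Bᶜ : ℤ) + dlS B =
      (3 * ((Bᶜ).card : ℤ) - Fintype.card G)^2 := by
  have h1 : N Bᶜ Bᶜ (ng Bᶜ) = ((Bᶜ).card : ℤ) * (Bᶜ).card - N Bᶜ Bᶜ (ng B) := by
    rw [ng_compl, N_compl3]
  have h2 : N Bᶜ Bᶜ (ng B) = N Bᶜ (ng B) Bᶜ := N_swap23 _ _ _
  have h3 : N Bᶜ (ng B) Bᶜ = ((Bᶜ).card : ℤ) * (ng B).card - N Bᶜ (ng B) B := N_compl3 _ _ _
  have h4 : N Bᶜ (ng B) B = N B (ng B) Bᶜ := N_swap13 _ _ _
  have h5 : N B (ng B) Bᶜ = (B.card : ℤ) * (ng B).card - N B (ng B) B := N_compl3 _ _ _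
  have h6 : N B (ng B) B = N B B (ng B) := N_swap23 _ _ _
  have h7 : dlS B = 4 * N B B (ng B) - Q3 B.card B.card (ng B).card := rfl
  rw [schur_eq_N, h1, h2, h3, h4, h5, h6, h7, card_ng]
  have hc := card_compl_int B
  unfold Q3
  rw [hc]; ring

/-- `P(G,m)`: the minimum number of Schur triples in a subset of size `m`. -/
noncomputable def minSchur (G : Type u) [AddCommGroup G] [Fintype G] [DecidableEq G]
    (m : ℕ) : ℕ := sInf {t | ∃ A : Finset G, A.card = m ∧ schur A = t}

lemma minSchur_spec (G : Type u) [AddCommGroup G] [Fintype G] [DecidableEq G] {m : ℕ}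
    (hm : m ≤ Fintype.card G) : ∃ A : Finset G, A.card = m ∧ schur A = minSchur G m := by
  have hne : {t | ∃ A : Finset G, A.card = m ∧ schur A = t}.Nonempty := by
    obtain ⟨A, _, hA⟩ := Finset.exists_subset_card_eq (s := (univ : Finset G)) (n := m)
      (by rw [Finset.card_univ]; exact hm)
    exact ⟨schur A, A, hA, rfl⟩
  exact Nat.sInf_mem hne

lemma minSchur_le {G : Type u} [AddCommGroup G] [Fintype G] [DecidableEq G] {m : ℕ}
    (A : Finset G) (hA : A.card = m) : minSchur G m ≤ schur A :=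
  Nat.sInf_le ⟨A, hA, rfl⟩

/-- The lower bound, for every finite abelian group. -/
theorem lower_bound (A : Finset G) :
    (3 * (A.card : ℤ) - Fintype.card G)^2 ≤
      4 * schur A + Psi (Fintype.card G) (Fintype.card G - A.card) := by
  have h1 := schur_compl Aᶜ
  rw [compl_compl] at h1
  have h2 := dlS_le_Psi Aᶜ
  rw [Finset.card_compl] at h2
  linarith

end

end Pool.Agent.Lib_helper42.RS
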