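import Mathlib
import Pool.Agent.Lib_helper42.RS.Formula

/-!
Constructions.
-/

set_option autoImplicit false
set_option linter.unusedSectionVars false

namespace Pool.Agent.Lib_helper42.RS

open Finset

universe u

section
variable {G : Type u} [AddCommGroup G] [Fintype G] [DecidableEq G]
variable {Q : Type u} [AddCommGroup Q] [Fintype Q] [DecidableEq Q]

/-- general exact expansion, adding a set -/
lemma exact_addG (φ : G →+ Q) (hφ : Function.Surjective φ) (E : Finset Q) (D : Finset G)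
    (hd : Disjoint (lft φ E) D) :
    dlS (lft φ E ∪ D) = (Nat.card φ.ker : ℤ)^2 * dlS E +
      (Nat.card φ.ker : ℤ) * ∑ x ∈ D, WW E (φ x) + 3 * (D.card : ℤ)^2 +
      (2 * ∑ x ∈ D, ∑ y ∈ D, tau (lft φ E) (x + y) +
        4 * ∑ x ∈ D, ∑ y ∈ D, tau (lft φ E) (x - y) +
        4 * ∑ x ∈ D, ∑ y ∈ D, ind D (x + y)) := by
  have h := exact_dlS φ hφ (lft φ E ∪ D) E
  have hpp : ∀ x, pp (lft φ E ∪ D) (lft φ E) x = ind D x := by
    intro x; unfold pp; rw [ind_union_disj hd]; ring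
  rw [h]
  unfold S1 S2 S3
  simp only [hpp]
  rw [sum2_ind_mul D (fun x y => tau (lft φ E) (x + y)),
    sum2_ind_mul D (fun x y => tau (lft φ E) (x - y)),
    sum2_ind_mul D (fun x y => ind D (x + y)), sum_ind_mul D (fun x => WW E (φ x)), sum_ind]

/-- general exact expansion, removing a set -/
lemma exact_subG (φ : G →+ Q) (hφ : Function.Surjective φ) (E : Finset Q) (D : Finset G)
    (hd : D ⊆ lft φ E) :
    dlS (lft φ E \ D) = (Nat.card φ.ker : ℤ)^2 * dlS E -
      (Nat.card φ.ker : ℤ) * ∑ x ∈ D, WW E (φ x) + 3 * (D.card : ℤ)^2 +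
      (2 * ∑ x ∈ D, ∑ y ∈ D, tau (lft φ E) (x + y) +
        4 * ∑ x ∈ D, ∑ y ∈ D, tau (lft φ E) (x - y) -
        4 * ∑ x ∈ D, ∑ y ∈ D, ind D (x + y)) := by
  have h := exact_dlS φ hφ (lft φ E \ D) E
  have hpp : ∀ x, pp (lft φ E \ D) (lft φ E) x = - ind D x := by
    intro x; unfold pp ind
    by_cases h1 : x ∈ D
    · have h2 := hd h1; simp only [Finset.mem_sdiff, h1, h2]; simp
    · by_cases h2 : x ∈ lft φ E
      · simp only [Finset.mem_sdiff, h1, h2]; simp
      · simp only [Finset.mem_sdiff, h1, h2]; simp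
  rw [h]
  unfold S1 S2 S3
  simp only [hpp]
  have a1 : ∀ f : G → G → ℤ, ∑ x, ∑ y, -ind D x * -ind D y * f x y =
      ∑ x ∈ D, ∑ y ∈ D, f x y := by
    intro f
    rw [← sum2_ind_mul D f]
    exact Finset.sum_congr rfl fun x _ => Finset.sum_congr rfl fun y _ => by ring
  have a2 : ∑ x, ∑ y, -ind D x * -ind D y * -ind D (x + y) =
      - ∑ x ∈ D, ∑ y ∈ D, ind D (x + y) := by
    rw [a1 (fun x y => - ind D (x + y))]
    simp only [Finset.sum_neg_distrib]
  have a3 : ∑ x, -ind D x * WW E (φ x) = - ∑ x ∈ D, WW E (φ x) := by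
    rw [← sum_ind_mul D (fun x => WW E (φ x)), ← Finset.sum_neg_distrib]
    exact Finset.sum_congr rfl fun x _ => by ring
  have a4 : ∑ x, -ind D x = -(D.card : ℤ) := by
    rw [Finset.sum_neg_distrib, sum_ind]
  rw [a1 (fun x y => tau (lft φ E) (x + y)), a1 (fun x y => tau (lft φ E) (x - y)), a2, a3, a4]
  ring

lemma dlS_eq_schur (B : Finset G) : dlS B = 4 * (schur B : ℤ) - 3 * (B.card : ℤ)^2 := by
  rw [schur_eq_N]; unfold dlS dl Q3; rw [card_ng]; ring

lemma schur_eq_sum (D : Finset G) : (schur D : ℤ) = ∑ x ∈ D, ∑ y ∈ D, ind D (x + y) := by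
  unfold schur
  rw [Finset.card_filter]
  push_cast
  rw [Finset.sum_product]
  rfl

lemma dlS_zero : dlS ({0} : Finset Q) = 1 := by
  rw [dlS_eq_schur]
  have : schur ({0} : Finset Q) = 1 := by
    unfold schur
    rw [Finset.singleton_product_singleton, Finset.filter_singleton]; simp
  rw [this]; simp

lemma WW_zero : WW ({0} : Finset Q) 0 = 6 := by
  unfold WW
  rw [linA_eq, linC_eq, cor_eq_card, cor_eq_card]
  have h1 : ({0} : Finset Q).filter (fun β => -(0 + β) ∈ ng ({0} : Finset Q)) = {0} := by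
    ext x; simp
  have h2 : ({0} : Finset Q).filter (fun β => -(-0 + β) ∈ ({0} : Finset Q)) = {0} := by
    ext x; simp
  rw [h1, h2]; simp

/-- complement in a subgroup of an arbitrary set -/
theorem dlS_subgroup (K : AddSubgroup G) (A0 : Finset G) (hA : ∀ x ∈ A0, x ∈ K) :
    dlS (cos K 0 \ A0) = ((Nat.card K : ℤ) - 3 * A0.card)^2 - 4 * schur A0 := by
  classical
  let _ : Fintype (G ⧸ K) := Fintype.ofFinite _
  set φ : G →+ G ⧸ K := QuotientAddGroup.mk' K with hφ
  have hker : φ.ker = K := QuotientAddGroup.ker_mk' K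
  have hsurj : Function.Surjective φ := QuotientAddGroup.mk'_surjective K
  have hcos : cos K 0 = lft φ {0} := by
    ext x
    rw [mem_cos, sub_zero, mem_lft, Finset.mem_singleton, ← AddMonoidHom.mem_ker, hker]
  have hzero : ∀ x ∈ A0, φ x = 0 := by
    intro x hx; rw [← AddMonoidHom.mem_ker, hker]; exact hA x hx
  have hsub : A0 ⊆ lft φ {0} := by
    intro x hx; rw [mem_lft, Finset.mem_singleton]; exact hzero x hx
  rw [hcos, exact_subG φ hsurj {0} A0 hsub, dlS_zero, schur_eq_sum, hker]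
  have s1 : ∑ x ∈ A0, WW ({0} : Finset (G ⧸ K)) (φ x) = 6 * (A0.card : ℤ) := by
    rw [Finset.sum_congr rfl (fun x hx => by rw [hzero x hx, WW_zero])]
    rw [Finset.sum_const]; simp; ring
  have s2 : ∑ x ∈ A0, ∑ y ∈ A0, tau (lft φ {0}) (x + y) = (A0.card : ℤ)^2 := by
    rw [Finset.sum_congr rfl (fun x hx => Finset.sum_congr rfl (fun y hy => by
      rw [tau_mem (show x + y ∈ lft φ {0} by
        rw [mem_lft, map_add, hzero x hx, hzero y hy]; simp)]))]
    simp; ring
  have s3 : ∑ x ∈ A0, ∑ y ∈ A0, tau (lft φ {0}) (x - y) = (A0.card : ℤ)^2 := by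
    rw [Finset.sum_congr rfl (fun x hx => Finset.sum_congr rfl (fun y hy => by
      rw [tau_mem (show x - y ∈ lft φ {0} by
        rw [mem_lft, map_sub, hzero x hx, hzero y hy]; simp)]))]
    simp; ring
  rw [s1, s2, s3]; ring

/-! ### arithmetic progressions -/

/-- the symmetric progression `{-j d, ..., j d}` -/
noncomputable def apE (d : Q) (j : ℕ) : Finset Q := (Finset.Icc (-(j:ℤ)) j).image (fun i : ℤ => i • d)

lemma smul_inj {d : Q} {a b : ℤ} {t : ℕ} (ht : t ≤ addOrderOf d) (hab : |a - b| < t)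
    (h : a • d = b • d) : a = b := by
  have h1 : (a - b) • d = 0 := by rw [sub_smul, h, sub_self]
  rw [← addOrderOf_dvd_iff_zsmul_eq_zero] at h1
  by_contra hne
  have hne' : a - b ≠ 0 := sub_ne_zero.mpr hne
  have h2 := Int.le_of_dvd (abs_pos.mpr hne') ((dvd_abs _ _).mpr h1)
  have : (t : ℤ) ≤ addOrderOf d := by exact_mod_cast ht
  linarith

variable {d : Q} {j : ℕ}

lemma mem_apE {x : Q} : x ∈ apE d j ↔ ∃ i : ℤ, -(j:ℤ) ≤ i ∧ i ≤ j ∧ i • d = x := by
  unfold apE
  rw [Finset.mem_image]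
  constructor
  · rintro ⟨i, hi, rfl⟩
    rw [Finset.mem_Icc] at hi
    exact ⟨i, hi.1, hi.2, rfl⟩
  · rintro ⟨i, h1, h2, rfl⟩
    exact ⟨i, Finset.mem_Icc.mpr ⟨h1, h2⟩, rfl⟩

lemma card_apE (ht : 3 * j + 2 ≤ addOrderOf d) : ((apE d j).card : ℤ) = 2 * j + 1 := by
  unfold apE
  rw [Finset.card_image_of_injOn]
  · rw [Int.card_Icc]
    rw [Int.toNat_of_nonneg (by omega)]; ring
  · intro a ha b hb hab
    rw [Finset.coe_Icc, Set.mem_Icc] at ha hb
    refine smul_inj ht ?_ hab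
    rw [abs_lt]; push_cast; constructor <;> omega

lemma sum_abs (j : ℕ) : ∑ a ∈ Finset.Icc (-(j:ℤ)) j, |a| = j * (j + 1) := by
  induction j with
  | zero => simp
  | succ j ih =>
    have h1 : Finset.Icc (-((j+1 : ℕ):ℤ)) ((j+1 : ℕ):ℤ) =
        insert (-((j:ℤ)+1)) (insert ((j:ℤ)+1) (Finset.Icc (-(j:ℤ)) j)) := by
      ext x
      rw [Finset.mem_insert, Finset.mem_insert, Finset.mem_Icc, Finset.mem_Icc]
      push_cast; omega
    rw [h1, Finset.sum_insert, Finset.sum_insert, ih]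
    · have a1 : |-((j:ℤ)+1)| = j + 1 := by rw [abs_neg, abs_of_nonneg (by omega)]
      have a2 : |((j:ℤ)+1)| = j + 1 := abs_of_nonneg (by omega)
      rw [a1, a2]; push_cast; ring
    · rw [Finset.mem_Icc]; omega
    · rw [Finset.mem_insert, Finset.mem_Icc]; omega

lemma schur_apE (ht : 3 * j + 2 ≤ addOrderOf d) :
    3 * (j:ℤ)^2 + 3 * j + 1 ≤ schur (apE d j) := by
  rw [schur_eq_sum]
  have hinj : Set.InjOn (fun i : ℤ => i • d) (Finset.Icc (-(j:ℤ)) j) := by
    intro a ha b hb hab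
    rw [Finset.coe_Icc, Set.mem_Icc] at ha hb
    refine smul_inj ht ?_ hab
    rw [abs_lt]; push_cast; constructor <;> omega
  have h1 : ∑ x ∈ apE d j, ∑ y ∈ apE d j, ind (apE d j) (x + y) =
      ∑ a ∈ Finset.Icc (-(j:ℤ)) j, ∑ b ∈ Finset.Icc (-(j:ℤ)) j,
        ind (apE d j) (a • d + b • d) := by
    conv_lhs => unfold apE
    rw [Finset.sum_image hinj]
    refine Finset.sum_congr rfl fun a _ => ?_
    rw [Finset.sum_image hinj]
    rfl
  rw [h1]
  have h2 : ∀ a ∈ Finset.Icc (-(j:ℤ)) j, 2 * (j:ℤ) + 1 - |a| ≤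
      ∑ b ∈ Finset.Icc (-(j:ℤ)) j, ind (apE d j) (a • d + b • d) := by
    intro a ha
    rw [Finset.mem_Icc] at ha
    have h3 : ∑ b ∈ Finset.Icc (max (-(j:ℤ)) (-(j:ℤ) - a)) (min (j:ℤ) (j - a)), (1:ℤ) ≤
        ∑ b ∈ Finset.Icc (-(j:ℤ)) j, ind (apE d j) (a • d + b • d) := by
      refine le_trans (Finset.sum_le_sum (g := fun b => ind (apE d j) (a • d + b • d)) ?_)
        (Finset.sum_le_sum_of_subset_of_nonneg ?_ (fun _ _ _ => ind_nonneg _ _))
      · intro b hb
        rw [Finset.mem_Icc] at hb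
        have : a • d + b • d ∈ apE d j := by
          rw [mem_apE]
          refine ⟨a + b, ?_, ?_, add_smul _ _ _⟩ <;> omega
        rw [ind_mem this]
      · intro b hb
        rw [Finset.mem_Icc] at hb ⊢
        omega
    refine le_trans ?_ h3
    rw [Finset.sum_const, Int.card_Icc, nsmul_eq_mul, mul_one]
    rcases abs_cases a with ⟨h, _⟩ | ⟨h, _⟩ <;> rw [h] <;> omega
  refine le_trans ?_ (Finset.sum_le_sum h2)
  rw [Finset.sum_sub_distrib, sum_abs, Finset.sum_const, Int.card_Icc, nsmul_eq_mul]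
  rw [Int.toNat_of_nonneg (by omega)]
  apply le_of_eq; ring

lemma dlS_apE (ht : 3 * j + 2 ≤ addOrderOf d) : 1 ≤ dlS (apE d j) := by
  rw [dlS_eq_schur, card_apE ht]
  have := schur_apE ht
  linarith

lemma WW_apE_out (ht : 3 * j + 2 ≤ addOrderOf d) : -6 ≤ WW (apE d j) (((j:ℤ) + 1) • d) := by
  unfold WW
  rw [linA_eq, linC_eq, card_apE ht, cor_eq_card, cor_eq_card]
  have c1 : j ≤ ((apE d j).filter (fun β => -(((j:ℤ) + 1) • d + β) ∈ ng (apE d j))).card := by
    have : (Finset.Icc (-(j:ℤ)) (-1)).card = j := by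
      rw [Int.card_Icc]; omega
    rw [← this]
    refine Finset.card_le_card_of_injOn (fun i : ℤ => i • d) ?_ ?_
    · intro i hi
      rw [Finset.mem_coe, Finset.mem_Icc] at hi
      rw [Finset.mem_coe, Finset.mem_filter, mem_apE, mem_ng, neg_neg, mem_apE, this]
      exact ⟨⟨i, by omega, by omega, rfl⟩, ⟨j + 1 + i, by omega, by omega, add_smul _ _ _⟩⟩
    · intro a ha b hb hab
      rw [Finset.mem_coe, Finset.mem_Icc] at ha hb
      refine smul_inj ht ?_ hab
      rw [abs_lt]; push_cast; constructor <;> omega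
  have c2 : j ≤ ((apE d j).filter (fun β => -(-(((j:ℤ) + 1) • d) + β) ∈ apE d j)).card := by
    have : (Finset.Icc (1:ℤ) j).card = j := by
      rw [Int.card_Icc]; omega
    rw [← this]
    refine Finset.card_le_card_of_injOn (fun i : ℤ => i • d) ?_ ?_
    · intro i hi
      rw [Finset.mem_coe, Finset.mem_Icc] at hi
      rw [Finset.mem_coe, Finset.mem_filter, mem_apE, mem_apE, this]
      refine ⟨⟨i, by omega, by omega, rfl⟩, ⟨j + 1 - i, by omega, by omega, ?_⟩⟩
      rw [sub_smul]; abel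
    · intro a ha b hb hab
      rw [Finset.mem_coe, Finset.mem_Icc] at ha hb
      refine smul_inj ht ?_ hab
      rw [abs_lt]; push_cast; constructor <;> omega
  have c1' : (j:ℤ) ≤ ((apE d j).filter
      (fun β => -(((j:ℤ) + 1) • d + β) ∈ ng (apE d j))).card := by exact_mod_cast c1
  have c2' : (j:ℤ) ≤ ((apE d j).filter
      (fun β => -(-(((j:ℤ) + 1) • d) + β) ∈ apE d j)).card := by exact_mod_cast c2
  linarith

lemma WW_apE_in (ht : 3 * j + 2 ≤ addOrderOf d) : WW (apE d j) ((j:ℤ) • d) ≤ 6 := by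
  unfold WW
  rw [linA_eq, linC_eq, card_apE ht, cor_eq_card, cor_eq_card]
  have c1 : ((apE d j).filter (fun β => -((j:ℤ) • d + β) ∈ ng (apE d j))).card ≤ j + 1 := by
    have : (Finset.Icc (-(j:ℤ)) 0).card = j + 1 := by
      rw [Int.card_Icc]; omega
    rw [← this]
    have hsub : (apE d j).filter (fun β => -((j:ℤ) • d + β) ∈ ng (apE d j)) ⊆
        (Finset.Icc (-(j:ℤ)) 0).image (fun i : ℤ => i • d) := by
      intro x hx
      rw [Finset.mem_filter, mem_apE, mem_ng, neg_neg, mem_apE] at hx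
      obtain ⟨⟨i, h1, h2, rfl⟩, ⟨i', h3, h4, h5⟩⟩ := hx
      rw [← add_smul] at h5
      have h6 : i' = j + i := by
        refine smul_inj ht ?_ h5
        rw [abs_lt]; push_cast; constructor <;> omega
      rw [Finset.mem_image]
      exact ⟨i, Finset.mem_Icc.mpr ⟨h1, by omega⟩, rfl⟩
    exact (Finset.card_le_card hsub).trans Finset.card_image_le
  have c2 : ((apE d j).filter (fun β => -(-((j:ℤ) • d) + β) ∈ apE d j)).card ≤ j + 1 := by
    have : (Finset.Icc (0:ℤ) j).card = j + 1 := by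
      rw [Int.card_Icc]; omega
    rw [← this]
    have hsub : (apE d j).filter (fun β => -(-((j:ℤ) • d) + β) ∈ apE d j) ⊆
        (Finset.Icc (0:ℤ) j).image (fun i : ℤ => i • d) := by
      intro x hx
      rw [Finset.mem_filter, mem_apE, mem_apE] at hx
      obtain ⟨⟨i, h1, h2, rfl⟩, ⟨i', h3, h4, h5⟩⟩ := hx
      have h5' : i' • d = ((j:ℤ) - i) • d := by rw [h5, sub_smul]; abel
      have h6 : i' = j - i := by
        refine smul_inj ht ?_ h5'
        rw [abs_lt]; push_cast; constructor <;> omega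
      rw [Finset.mem_image]
      exact ⟨i, Finset.mem_Icc.mpr ⟨by omega, h2⟩, rfl⟩
    exact (Finset.card_le_card hsub).trans Finset.card_image_le
  have c1' : (((apE d j).filter
      (fun β => -((j:ℤ) • d + β) ∈ ng (apE d j))).card : ℤ) ≤ j + 1 := by exact_mod_cast c1
  have c2' : (((apE d j).filter
      (fun β => -(-((j:ℤ) • d) + β) ∈ apE d j)).card : ℤ) ≤ j + 1 := by exact_mod_cast c2
  linarith

lemma exists_subset_fib (φ : G →+ Q) (hφ : Function.Surjective φ) (α : Q) {s : ℕ}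
    (hs : s ≤ Nat.card φ.ker) : ∃ D : Finset G, D ⊆ fib φ α ∧ D.card = s := by
  apply Finset.exists_subset_card_eq
  have := fib_card φ hφ α
  have h2 : (fib φ α).card = Nat.card φ.ker := by exact_mod_cast this
  rw [h2]; exact hs

/-- progression of cosets plus a partial coset -/
theorem constr_add (φ : G →+ Q) (hφ : Function.Surjective φ)
    (ht : 3 * j + 2 ≤ addOrderOf d) {s : ℕ} (hs : s ≤ Nat.card φ.ker) :
    ∃ B : Finset G, B.card = (2 * j + 1) * Nat.card φ.ker + s ∧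
      ((Nat.card φ.ker : ℤ) - s) * (Nat.card φ.ker - 5 * s) ≤ dlS B := by
  obtain ⟨D, hD, hDs⟩ := exists_subset_fib φ hφ (((j:ℤ) + 1) • d) hs
  set h : ℕ := Nat.card φ.ker with hh
  have hφD : ∀ x ∈ D, φ x = ((j:ℤ) + 1) • d := fun x hx => mem_fib.mp (hD hx)
  have hout : ((j:ℤ) + 1) • d ∉ apE d j := by
    rw [mem_apE]
    rintro ⟨i, h1, h2, h3⟩
    have := smul_inj ht (by rw [abs_lt]; push_cast; constructor <;> omega) h3
    omega
  have hdisj : Disjoint (lft φ (apE d j)) D := by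
    rw [Finset.disjoint_right]
    intro x hx
    rw [mem_lft, hφD x hx]; exact hout
  refine ⟨lft φ (apE d j) ∪ D, ?_, ?_⟩
  · have : (((lft φ (apE d j) ∪ D).card : ℕ) : ℤ) = (2 * j + 1) * h + s := by
      rw [card_union_disj hdisj, card_lft φ hφ, card_apE ht, hDs]; ring
    exact_mod_cast this
  · rw [exact_addG φ hφ (apE d j) D hdisj, hDs, ← hh]
    have z0 : (0:Q) ∈ apE d j := by rw [mem_apE]; exact ⟨0, by omega, by omega, zero_smul _ _⟩
    have s0 : ∑ x ∈ D, WW (apE d j) (φ x) = (s:ℤ) * WW (apE d j) (((j:ℤ) + 1) • d) := by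
      rw [Finset.sum_congr rfl (fun x hx => by rw [hφD x hx]), Finset.sum_const, hDs]; simp
    have s1 : -(s:ℤ)^2 ≤ ∑ x ∈ D, ∑ y ∈ D, tau (lft φ (apE d j)) (x + y) := by
      have : ∑ x ∈ D, ∑ y ∈ D, (-1:ℤ) ≤ ∑ x ∈ D, ∑ y ∈ D, tau (lft φ (apE d j)) (x + y) :=
        Finset.sum_le_sum fun x _ => Finset.sum_le_sum fun y _ => by
          unfold tau; have := ind_nonneg (lft φ (apE d j)) (x + y); linarith
      refine le_trans (le_of_eq ?_) this
      simp [hDs]; ring
    have s2 : ∑ x ∈ D, ∑ y ∈ D, tau (lft φ (apE d j)) (x - y) = (s:ℤ)^2 := by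
      rw [Finset.sum_congr rfl (fun x hx => Finset.sum_congr rfl (fun y hy => by
        rw [tau_mem (show x - y ∈ lft φ (apE d j) by
          rw [mem_lft, map_sub, hφD x hx, hφD y hy, sub_self]; exact z0)]))]
      simp [hDs]; ring
    have s3 : 0 ≤ ∑ x ∈ D, ∑ y ∈ D, ind D (x + y) :=
      Finset.sum_nonneg fun _ _ => Finset.sum_nonneg fun _ _ => ind_nonneg _ _
    have w := WW_apE_out ht
    have dd := dlS_apE ht
    rw [s0, s2]
    have hh0 : (0:ℤ) ≤ h := by positivity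
    have hs0 : (0:ℤ) ≤ s := by positivity
    have p1 : (h:ℤ)^2 * 1 ≤ h^2 * dlS (apE d j) := mul_le_mul_of_nonneg_left dd (by positivity)
    have p2 : (h:ℤ) * (s * (-6)) ≤ h * (s * WW (apE d j) (((j:ℤ) + 1) • d)) :=
      mul_le_mul_of_nonneg_left (mul_le_mul_of_nonneg_left w hs0) hh0
    nlinarith

/-- progression of cosets minus a part of the last coset -/
theorem constr_sub (φ : G →+ Q) (hφ : Function.Surjective φ) (hj : 1 ≤ j)
    (ht : 3 * j + 2 ≤ addOrderOf d) {s : ℕ} (hs : s ≤ Nat.card φ.ker) :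
    ∃ B : Finset G, B.card + s = (2 * j + 1) * Nat.card φ.ker ∧
      ((Nat.card φ.ker : ℤ) - s) * (Nat.card φ.ker - 5 * s) ≤ dlS B := by
  obtain ⟨D, hD, hDs⟩ := exists_subset_fib φ hφ ((j:ℤ) • d) hs
  set h : ℕ := Nat.card φ.ker with hh
  have hφD : ∀ x ∈ D, φ x = (j:ℤ) • d := fun x hx => mem_fib.mp (hD hx)
  have hin : (j:ℤ) • d ∈ apE d j := by
    rw [mem_apE]; exact ⟨j, by omega, le_rfl, rfl⟩
  have hsub : D ⊆ lft φ (apE d j) := by
    intro x hx
    rw [mem_lft, hφD x hx]; exact hin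
  refine ⟨lft φ (apE d j) \ D, ?_, ?_⟩
  · have h1 : (((lft φ (apE d j) \ D).card : ℕ) : ℤ) + s = (2 * j + 1) * h := by
      have h2 := Finset.card_sdiff_add_card_eq_card hsub
      have h3 : (((lft φ (apE d j) \ D).card : ℕ) : ℤ) + D.card = (lft φ (apE d j)).card := by
        exact_mod_cast h2
      rw [card_lft φ hφ, card_apE ht, hDs] at h3
      rw [h3]; ring
    exact_mod_cast h1
  · rw [exact_subG φ hφ (apE d j) D hsub, hDs, ← hh]
    have z0 : (0:Q) ∈ apE d j := by rw [mem_apE]; exact ⟨0, by omega, by omega, zero_smul _ _⟩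
    have s0 : ∑ x ∈ D, WW (apE d j) (φ x) = (s:ℤ) * WW (apE d j) ((j:ℤ) • d) := by
      rw [Finset.sum_congr rfl (fun x hx => by rw [hφD x hx]), Finset.sum_const, hDs]; simp
    have s1 : -(s:ℤ)^2 ≤ ∑ x ∈ D, ∑ y ∈ D, tau (lft φ (apE d j)) (x + y) := by
      have : ∑ x ∈ D, ∑ y ∈ D, (-1:ℤ) ≤ ∑ x ∈ D, ∑ y ∈ D, tau (lft φ (apE d j)) (x + y) :=
        Finset.sum_le_sum fun x _ => Finset.sum_le_sum fun y _ => by
          unfold tau; have := ind_nonneg (lft φ (apE d j)) (x + y); linarith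
      refine le_trans (le_of_eq ?_) this
      simp [hDs]; ring
    have s2 : ∑ x ∈ D, ∑ y ∈ D, tau (lft φ (apE d j)) (x - y) = (s:ℤ)^2 := by
      rw [Finset.sum_congr rfl (fun x hx => Finset.sum_congr rfl (fun y hy => by
        rw [tau_mem (show x - y ∈ lft φ (apE d j) by
          rw [mem_lft, map_sub, hφD x hx, hφD y hy, sub_self]; exact z0)]))]
      simp [hDs]; ring
    have s3 : ∑ x ∈ D, ∑ y ∈ D, ind D (x + y) = 0 := by
      refine Finset.sum_eq_zero fun x hx => Finset.sum_eq_zero fun y hy => ?_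
      apply ind_not_mem
      intro hxy
      have h1 := hφD _ hxy
      rw [map_add, hφD x hx, hφD y hy] at h1
      have h2 : (j:ℤ) • d = (0:ℤ) • d := by
        rw [zero_smul]; simpa using h1
      have := smul_inj ht (by rw [abs_lt]; push_cast; constructor <;> omega) h2
      omega
    have w := WW_apE_in ht
    have dd := dlS_apE ht
    rw [s0, s2, s3]
    have hh0 : (0:ℤ) ≤ h := by positivity
    have hs0 : (0:ℤ) ≤ s := by positivity
    have p1 : (h:ℤ)^2 * 1 ≤ h^2 * dlS (apE d j) := mul_le_mul_of_nonneg_left dd (by positivity)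
    have p2 : (h:ℤ) * (s * WW (apE d j) ((j:ℤ) • d)) ≤ h * (s * 6) :=
      mul_le_mul_of_nonneg_left (mul_le_mul_of_nonneg_left w hs0) hh0
    nlinarith

/-- complement of a sum-free set in a subgroup: `d` of order `t ≥ 3 j + 2` in the quotient. -/
theorem constr_sf (φ : G →+ Q) (hφ : Function.Surjective φ)
    (ht : 3 * j + 2 ≤ addOrderOf d) {a : ℕ} (ha : a ≤ (j + 1) * Nat.card φ.ker) :
    ∃ B : Finset G, B.card + a = addOrderOf d * Nat.card φ.ker ∧
      dlS B = ((addOrderOf d : ℤ) * Nat.card φ.ker - 3 * a)^2 := by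
  classical
  set h : ℕ := Nat.card φ.ker with hh
  set t : ℕ := addOrderOf d with htd
  set K : AddSubgroup G := (AddSubgroup.zmultiples d).comap φ with hK
  have hKc : (Nat.card K : ℤ) = h * t := by
    rw [hK, card_comap φ hφ, ← hh, Nat.card_zmultiples]
  set S : Finset Q := (Finset.Icc ((j:ℤ) + 1) (2 * j + 1)).image (fun i : ℤ => i • d) with hS
  have hSc : (S.card : ℤ) = j + 1 := by
    rw [hS, Finset.card_image_of_injOn]
    · rw [Int.card_Icc, Int.toNat_of_nonneg (by omega)]; ring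
    · intro a ha b hb hab
      rw [Finset.coe_Icc, Set.mem_Icc] at ha hb
      refine smul_inj ht ?_ hab
      rw [abs_lt]; push_cast; constructor <;> omega
  have hcard : a ≤ (lft φ S).card := by
    have h1 : ((lft φ S).card : ℤ) = (j + 1) * h := by rw [card_lft φ hφ, hSc, ← hh]; ring
    have h2 : (lft φ S).card = (j + 1) * h := by exact_mod_cast h1
    rw [h2]; exact ha
  obtain ⟨A0, hA0, hA0c⟩ := Finset.exists_subset_card_eq hcard
  have hA0S : ∀ x ∈ A0, ∃ i : ℤ, (j:ℤ) + 1 ≤ i ∧ i ≤ 2 * j + 1 ∧ i • d = φ x := by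
    intro x hx
    have := hA0 hx
    rw [mem_lft, hS, Finset.mem_image] at this
    obtain ⟨i, hi, h2⟩ := this
    rw [Finset.mem_Icc] at hi
    exact ⟨i, hi.1, hi.2, h2⟩
  have hA0K : ∀ x ∈ A0, x ∈ K := by
    intro x hx
    obtain ⟨i, _, _, h3⟩ := hA0S x hx
    rw [hK, AddSubgroup.mem_comap, ← h3]
    exact AddSubgroup.zsmul_mem_zmultiples d i
  have hsf : schur A0 = 0 := by
    unfold schur
    rw [Finset.card_eq_zero, Finset.filter_eq_empty_iff]
    rintro ⟨x, y⟩ hxy hxy2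
    rw [Finset.mem_product] at hxy
    obtain ⟨i1, a1, a2, a3⟩ := hA0S x hxy.1
    obtain ⟨i2, b1, b2, b3⟩ := hA0S y hxy.2
    obtain ⟨i3, c1, c2, c3⟩ := hA0S _ hxy2
    rw [map_add, ← a3, ← b3, ← add_smul] at c3
    have h1 : (i1 + i2 - i3) • d = 0 := by rw [sub_smul, c3, sub_self]
    rw [← addOrderOf_dvd_iff_zsmul_eq_zero] at h1
    have h2 : 0 < i1 + i2 - i3 := by omega
    have h3 := Int.le_of_dvd h2 h1
    have h4 : ((3 * j + 2 : ℕ) : ℤ) ≤ addOrderOf d := by exact_mod_cast ht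
    push_cast at h4
    omega
  refine ⟨cos K 0 \ A0, ?_, ?_⟩
  · have hsub : A0 ⊆ cos K 0 := by
      intro x hx; rw [mem_cos, sub_zero]; exact hA0K x hx
    have h2 := Finset.card_sdiff_add_card_eq_card hsub
    rw [hA0c, card_cos] at h2
    rw [h2]
    have : (Nat.card K : ℤ) = ((t * h : ℕ) : ℤ) := by rw [hKc]; push_cast; ring
    exact_mod_cast this
  · rw [dlS_subgroup K A0 hA0K, hsf, hKc, hA0c]; push_cast; ring

end

end Pool.Agent.Lib_helper42.RS
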