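import Mathlib
import Pool.Agent.Lib_helper42.RS.Constr

/-!
Attaining the bound in groups having a cyclic subgroup of 2-power index.
-/

set_option autoImplicit false
set_option linter.unusedSectionVars false

namespace Pool.Agent.Lib_helper42.RS

open Finset

universe u

section

/-- subgroups of every order dividing the order of the group -/
lemma exists_subgroup (n : ℕ) : ∀ (G : Type u) [AddCommGroup G] [Fintype G] [DecidableEq G],
    Fintype.card G = n → ∀ h : ℕ, h ∣ n → ∃ L : AddSubgroup G, Nat.card L = h := by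
  induction n using Nat.strong_induction_on with
  | _ n ih =>
    intro G _ _ _ hn h hh
    classical
    by_cases h1 : h = 1
    · exact ⟨⊥, by rw [h1]; simp⟩
    have hn0 : 0 < n := by rw [← hn]; exact Fintype.card_pos
    obtain ⟨p, hp, hph⟩ := Nat.exists_prime_and_dvd h1
    haveI : Fact p.Prime := ⟨hp⟩
    obtain ⟨x, hx⟩ := exists_prime_addOrderOf_dvd_card (G := G) p
      (by rw [hn]; exact hph.trans hh)
    set Z := AddSubgroup.zmultiples x with hZ
    have hZc : Nat.card Z = p := by rw [hZ, Nat.card_zmultiples, hx]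
    let _ : Fintype (G ⧸ Z) := Fintype.ofFinite _
    set φ : G →+ G ⧸ Z := QuotientAddGroup.mk' Z with hφ
    have hker : φ.ker = Z := QuotientAddGroup.ker_mk' Z
    have hsurj : Function.Surjective φ := QuotientAddGroup.mk'_surjective Z
    have hG := card_G φ hsurj
    rw [hker, hZc, hn] at hG
    have hG' : n = p * Fintype.card (G ⧸ Z) := by exact_mod_cast hG
    obtain ⟨h', rfl⟩ := hph
    have hdvd : h' ∣ Fintype.card (G ⧸ Z) := by
      rw [hG'] at hh
      exact Nat.dvd_of_mul_dvd_mul_left hp.pos hh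
    have hlt : Fintype.card (G ⧸ Z) < n := by
      have hq : 0 < Fintype.card (G ⧸ Z) := Fintype.card_pos
      rw [hG']
      have := hp.two_le
      nlinarith
    obtain ⟨L, hL⟩ := ih _ hlt (G ⧸ Z) rfl h' hdvd
    refine ⟨L.comap φ, ?_⟩
    have h3 := card_comap φ hsurj L
    rw [hker, hZc, hL] at h3
    exact_mod_cast h3

variable {G : Type u} [AddCommGroup G] [Fintype G] [DecidableEq G]

/-- (E2) -/
lemma exists_order_two {h : ℕ} (hh : 2 * h ∣ Fintype.card G) :
    ∃ (Q : Type u) (_ : AddCommGroup Q) (_ : Fintype Q) (_ : DecidableEq Q) (φ : G →+ Q) (d : Q),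
      Function.Surjective φ ∧ Nat.card φ.ker = h ∧ addOrderOf d = 2 := by
  classical
  obtain ⟨L, hL⟩ := exists_subgroup _ G rfl h ((dvd_mul_left h 2).trans hh)
  let _ : Fintype (G ⧸ L) := Fintype.ofFinite _
  set φ : G →+ G ⧸ L := QuotientAddGroup.mk' L with hφ
  have hker : φ.ker = L := QuotientAddGroup.ker_mk' L
  have hsurj : Function.Surjective φ := QuotientAddGroup.mk'_surjective L
  have hG := card_G φ hsurj
  rw [hker, hL] at hG
  have hG' : Fintype.card G = h * Fintype.card (G ⧸ L) := by exact_mod_cast hG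
  have hh0 : 0 < h := by rw [← hL]; exact Nat.card_pos
  have h2 : 2 ∣ Fintype.card (G ⧸ L) := by
    rw [hG', mul_comm] at hh
    exact Nat.dvd_of_mul_dvd_mul_left hh0 hh
  haveI : Fact (Nat.Prime 2) := ⟨Nat.prime_two⟩
  obtain ⟨d, hd⟩ := exists_prime_addOrderOf_dvd_card (G := G ⧸ L) 2 h2
  exact ⟨G ⧸ L, inferInstance, inferInstance, inferInstance, φ, d, hsurj, by rw [hker, hL], hd⟩

/-- (O) -/
lemma exists_order_odd (hG : ∃ (g : G) (k : ℕ), Fintype.card G = 2 ^ k * addOrderOf g)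
    {h t : ℕ} (ht : Odd t) (hht : h * t ∣ Fintype.card G) :
    ∃ (Q : Type u) (_ : AddCommGroup Q) (_ : Fintype Q) (_ : DecidableEq Q) (φ : G →+ Q) (d : Q),
      Function.Surjective φ ∧ Nat.card φ.ker = h ∧ addOrderOf d = t := by
  classical
  obtain ⟨g, k, hg⟩ := hG
  obtain ⟨L, hL⟩ := exists_subgroup _ G rfl h ((dvd_mul_right h t).trans hht)
  let _ : Fintype (G ⧸ L) := Fintype.ofFinite _
  set φ : G →+ G ⧸ L := QuotientAddGroup.mk' L with hφ
  have hker : φ.ker = L := QuotientAddGroup.ker_mk' L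
  have hsurj : Function.Surjective φ := QuotientAddGroup.mk'_surjective L
  have hGc := card_G φ hsurj
  rw [hker, hL] at hGc
  have hG' : Fintype.card G = h * Fintype.card (G ⧸ L) := by exact_mod_cast hGc
  have hh0 : 0 < h := by rw [← hL]; exact Nat.card_pos
  have h2 : t ∣ Fintype.card (G ⧸ L) := by
    rw [hG'] at hht
    exact Nat.dvd_of_mul_dvd_mul_left hh0 hht
  set w := addOrderOf (φ g) with hw
  have hw0 : 0 < w := addOrderOf_pos _
  have h3 : addOrderOf g ∣ h * w := by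
    rw [addOrderOf_dvd_iff_nsmul_eq_zero]
    have h4 : w • g ∈ L := by
      rw [← hker, AddMonoidHom.mem_ker, map_nsmul]
      exact addOrderOf_nsmul_eq_zero _
    have h5 : h • (⟨w • g, h4⟩ : L) = 0 := by
      rw [← hL]; exact card_nsmul_eq_zero'
    have h6 := congrArg Subtype.val h5
    rw [mul_nsmul]
    have h7 : h • (w • g) = 0 := by simpa using h6
    rw [← h7]
    rw [← mul_nsmul, ← mul_nsmul, mul_comm]
  have h4 : t ∣ w := by
    have h5 : Fintype.card (G ⧸ L) ∣ 2 ^ k * w := by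
      have h6 : h * Fintype.card (G ⧸ L) ∣ h * (2 ^ k * w) := by
        rw [← hG', hg]
        have : h * (2 ^ k * w) = 2 ^ k * (h * w) := by ring
        rw [this]
        exact Nat.mul_dvd_mul_left _ h3
      exact Nat.dvd_of_mul_dvd_mul_left hh0 h6
    have hcop : Nat.Coprime t (2 ^ k) := by
      apply Nat.Coprime.pow_right
      exact Nat.coprime_two_right.mpr ht
    exact hcop.dvd_of_dvd_mul_left (h2.trans h5)
  refine ⟨G ⧸ L, inferInstance, inferInstance, inferInstance, φ, (w / t) • φ g, hsurj,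
    by rw [hker, hL], ?_⟩
  have hwt : w / t ≠ 0 := by
    intro h0
    have := Nat.div_mul_cancel h4
    rw [h0] at this; omega
  rw [addOrderOf_nsmul_of_dvd hwt (Nat.div_dvd_of_dvd h4)]
  exact Nat.div_div_self h4 (by omega)

/-- removal of a third of a subgroup -/
lemma attain_sf (hG : ∃ (g : G) (k : ℕ), Fintype.card G = 2 ^ k * addOrderOf g)
    {κ a : ℕ} (hκ : κ ∣ Fintype.card G) (ha : 3 * a ≤ κ) :
    ∃ B : Finset G, B.card + a = κ ∧ dlS B = ((κ:ℤ) - 3 * a)^2 := by
  have hn : 0 < Fintype.card G := Fintype.card_pos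
  have hκ0 : 0 < κ := Nat.pos_of_dvd_of_pos hκ hn
  rcases Nat.even_or_odd' κ with ⟨l, hl | hl⟩
  · subst hl
    obtain ⟨Q, _, _, _, φ, d, hφ, hk, hd⟩ := exists_order_two (G := G) hκ
    obtain ⟨B, hB1, hB2⟩ := constr_sf φ hφ (d := d) (j := 0) (by omega) (a := a)
      (by rw [hk]; omega)
    rw [hk, hd] at hB1 hB2
    exact ⟨B, hB1, by rw [hB2]; push_cast; ring⟩
  · by_cases hκ1 : κ = 1
    · have ha0 : a = 0 := by omega
      subst ha0
      refine ⟨{0}, by simp [hκ1], ?_⟩
      rw [dlS_zero, hκ1]; norm_num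
    · obtain ⟨Q, _, _, _, φ, d, hφ, hk, hd⟩ := exists_order_odd (G := G) hG (h := 1) (t := κ)
        ⟨l, hl⟩ (by rw [one_mul]; exact hκ)
      obtain ⟨B, hB1, hB2⟩ := constr_sf φ hφ (d := d) (j := a - 1) (by omega) (a := a)
        (by rw [hk]; omega)
      rw [hk, hd, mul_one] at hB1
      rw [hk, hd] at hB2
      exact ⟨B, hB1, by rw [hB2]; push_cast; ring⟩

/-- even subgroups -/
lemma attain_even {l a : ℕ} (hκ : 2 * l ∣ Fintype.card G) (ha : a ≤ l) :
    ∃ B : Finset G, B.card + a = 2 * l ∧ dlS B = ((2 * l:ℤ) - 3 * a)^2 := by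
  obtain ⟨Q, _, _, _, φ, d, hφ, hk, hd⟩ := exists_order_two (G := G) hκ
  obtain ⟨B, hB1, hB2⟩ := constr_sf φ hφ (d := d) (j := 0) (by omega) (a := a)
    (by rw [hk]; omega)
  rw [hk, hd] at hB1 hB2
  exact ⟨B, hB1, by rw [hB2]; push_cast; ring⟩

/-- A1 -/
lemma attain_A1 (hG : ∃ (g : G) (k : ℕ), Fintype.card G = 2 ^ k * addOrderOf g)
    {h j s : ℕ} (hs : 3 * s ≤ h) (hd : (3 * j + 2) * h ∣ Fintype.card G) :
    ∃ B : Finset G, B.card = (2 * j + 1) * h + s ∧ dlS B = ((h:ℤ) - 3 * s)^2 := by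
  have hn : 0 < Fintype.card G := Fintype.card_pos
  rcases Nat.even_or_odd' ((3 * j + 2) * h) with ⟨l, hl | hl⟩
  · have ha : (j + 1) * h - s ≤ l := by
      have : 2 * ((j + 1) * h) ≤ (3 * j + 2) * h := by nlinarith
      omega
    rw [hl] at hd
    obtain ⟨B, hB1, hB2⟩ := attain_even hd ha
    have hsle : s ≤ (j + 1) * h := by nlinarith
    refine ⟨B, ?_, ?_⟩
    · have e : (2 * j + 1) * h + (j + 1) * h = (3 * j + 2) * h := by ring
      omega
    · rw [hB2]
      have hl' : (2 * (l:ℤ)) = (3 * j + 2) * h := by exact_mod_cast hl.symm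
      rw [hl']
      push_cast [Nat.cast_sub hsle]; ring
  · have ht : Odd (3 * j + 2) := by
      rcases Nat.even_or_odd (3 * j + 2) with he | ho
      · exfalso
        have : Even ((3 * j + 2) * h) := he.mul_right h
        rw [hl] at this
        exact absurd this (by simp)
      · exact ho
    obtain ⟨Q, _, _, _, φ, d, hφ, hk, hdd⟩ := exists_order_odd (G := G) hG (h := h)
      (t := 3 * j + 2) ht (by rw [mul_comm]; exact hd)
    have hsle : s ≤ (j + 1) * h := by nlinarith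
    obtain ⟨B, hB1, hB2⟩ := constr_sf φ hφ (d := d) (j := j) (by omega) (a := (j + 1) * h - s)
      (by rw [hk]; omega)
    rw [hk, hdd] at hB1 hB2
    refine ⟨B, ?_, ?_⟩
    · have e : (2 * j + 1) * h + (j + 1) * h = (3 * j + 2) * h := by ring
      omega
    · rw [hB2]
      push_cast [Nat.cast_sub hsle]; ring

lemma sq_ge_of_abs {x h s : ℤ} (hs : 0 ≤ s) (hsh : s ≤ h) (hx : h - 3 * s ≤ |x|) :
    (h - s) * (h - 5 * s) ≤ x^2 := by
  have h1 : (h - s) * (h - 5 * s) ≤ (h - 3 * s)^2 := by nlinarith [sq_nonneg s]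
  by_cases hc : 0 ≤ h - 3 * s
  · have : (h - 3 * s)^2 ≤ |x|^2 := pow_le_pow_left₀ hc hx 2
    rw [sq_abs] at this
    linarith
  · push Not at hc
    have : (h - s) * (h - 5 * s) ≤ 0 := by
      apply mul_nonpos_of_nonneg_of_nonpos <;> linarith
    nlinarith [sq_nonneg x]

/-- case 2: progressions of cosets (or something better) -/
lemma attain_C2 (hG : ∃ (g : G) (k : ℕ), Fintype.card G = 2 ^ k * addOrderOf g)
    {h j s b : ℕ} (hh : h ∣ Fintype.card G) (hj : (3 * j + 2) * h ≤ Fintype.card G)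
    (hs : s ≤ h)
    (hb : b = (2 * j + 1) * h + s ∨ (b + s = (2 * j + 1) * h ∧ 1 ≤ j ∧ 3 * s ≤ h))
    (hbn : b ≤ Fintype.card G) :
    ∃ B : Finset G, B.card = b ∧ ((h:ℤ) - s) * (h - 5 * s) ≤ dlS B := by
  have hn : 0 < Fintype.card G := Fintype.card_pos
  have hh0 : 0 < h := Nat.pos_of_dvd_of_pos hh hn
  obtain ⟨q, hq⟩ := hh
  have hq0 : q ≠ 0 := by rintro rfl; rw [mul_zero] at hq; omega
  have hjq : 3 * j + 2 ≤ q := by
    rw [hq, mul_comm h q] at hj
    exact Nat.le_of_mul_le_mul_right hj hh0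
  obtain ⟨c, m', hm', hqm⟩ := Nat.exists_eq_two_pow_mul_odd hq0
  have hsZ : (0:ℤ) ≤ s := by positivity
  have hshZ : (s:ℤ) ≤ h := by exact_mod_cast hs
  by_cases hcase : 3 * j + 2 ≤ m'
  · obtain ⟨Q, _, _, _, φ, d, hφ, hk, hd⟩ := exists_order_odd (G := G) hG (h := h) (t := m')
      hm' ⟨2 ^ c, by rw [hq, hqm]; ring⟩
    rcases hb with hb | ⟨hb, hj1, _⟩
    · obtain ⟨B, hB1, hB2⟩ := constr_add φ hφ (d := d) (j := j) (by omega) (s := s)
        (by rw [hk]; exact hs)
      rw [hk] at hB1 hB2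
      exact ⟨B, by rw [hB1, hb], hB2⟩
    · obtain ⟨B, hB1, hB2⟩ := constr_sub φ hφ hj1 (d := d) (j := j) (by omega) (s := s)
        (by rw [hk]; exact hs)
      rw [hk] at hB1 hB2
      exact ⟨B, by omega, hB2⟩
  · push Not at hcase
    -- find the least i with b ≤ 2^i m' h
    have hex : ∃ i, b ≤ 2 ^ i * m' * h := ⟨c, by
      rw [← hqm, mul_comm, ← hq]; exact hbn⟩
    classical
    set i := Nat.find hex with hi
    have hi1 : b ≤ 2 ^ i * m' * h := Nat.find_spec hex
    have hic : i ≤ c := Nat.find_min' hex (by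
      rw [← hqm, mul_comm, ← hq]; exact hbn)
    have hdvd : 2 ^ i * m' * h ∣ Fintype.card G := by
      rw [hq, hqm]
      obtain ⟨e, rfl⟩ := Nat.exists_eq_add_of_le hic
      refine ⟨2 ^ e, ?_⟩
      rw [pow_add]; ring
    -- key facts on b
    have hbZ : ∃ ε : ℤ, |ε| = s ∧ (b:ℤ) = (2 * j + 1) * h + ε := by
      rcases hb with hb | ⟨hb, _, _⟩
      · exact ⟨s, abs_of_nonneg hsZ, by rw [hb]; push_cast; ring⟩
      · refine ⟨-s, by rw [abs_neg]; exact abs_of_nonneg hsZ, ?_⟩
        have : (b:ℤ) + s = (2 * j + 1) * h := by exact_mod_cast hb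
        linarith
    obtain ⟨ε, hε, hbε⟩ := hbZ
    have hεb : -(s:ℤ) ≤ ε ∧ ε ≤ s := by
      rw [← hε]; exact ⟨neg_abs_le ε, le_abs_self ε⟩
    by_cases hi0 : i = 0
    · rw [hi0, pow_zero, one_mul] at hi1 hdvd
      obtain ⟨a, ha⟩ := Nat.exists_eq_add_of_le hi1
      have haZ : (m':ℤ) * h = b + a := by exact_mod_cast ha
      have hm3 : (m':ℤ) ≤ 3 * j + 1 := by
        have : m' ≤ 3 * j + 1 := by omega
        exact_mod_cast this
      have hhZ : (0:ℤ) < h := by exact_mod_cast hh0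
      have hmh : (m':ℤ) * h ≤ (3 * j + 1) * h := mul_le_mul_of_nonneg_right hm3 hhZ.le
      have h3a : 3 * a ≤ m' * h := by
        have : 3 * (a:ℤ) ≤ m' * h := by
          rcases hb with hb | ⟨hb, _, h3s⟩
          · have hbZ' : (b:ℤ) = (2 * j + 1) * h + s := by exact_mod_cast hb
            nlinarith
          · have hbZ' : (b:ℤ) + s = (2 * j + 1) * h := by exact_mod_cast hb
            have : 3 * (s:ℤ) ≤ h := by exact_mod_cast h3s
            nlinarith
        exact_mod_cast this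
      obtain ⟨B, hB1, hB2⟩ := attain_sf hG hdvd h3a
      refine ⟨B, by omega, ?_⟩
      rw [hB2]
      apply sq_ge_of_abs hsZ hshZ
      refine le_trans ?_ (le_abs_self _)
      push_cast
      nlinarith
    · obtain ⟨i', hi'⟩ : ∃ i', i = i' + 1 := ⟨i - 1, by omega⟩
      have hlt : ¬ b ≤ 2 ^ i' * m' * h := Nat.find_min hex (by omega)
      push Not at hlt
      set l := 2 ^ i' * m' * h with hl
      have h2l : 2 ^ i * m' * h = 2 * l := by rw [hi', hl, pow_succ]; ring
      rw [h2l] at hi1 hdvd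
      obtain ⟨a, ha⟩ := Nat.exists_eq_add_of_le hi1
      obtain ⟨B, hB1, hB2⟩ := attain_even hdvd (a := a) (by omega)
      refine ⟨B, by omega, ?_⟩
      rw [hB2]
      apply sq_ge_of_abs hsZ hshZ
      have haZ : 2 * (l:ℤ) = b + a := by exact_mod_cast ha
      have e1 : (2 * (l:ℤ) - 3 * a) = 3 * b - 4 * l := by linarith
      rw [e1, hbε]
      have hlZ : (l:ℤ) = 2 ^ i' * m' * h := by rw [hl]; push_cast; ring
      have e2 : 3 * ((2 * (j:ℤ) + 1) * h + ε) - 4 * l =
          (3 * (2 * j + 1) - 4 * (2 ^ i' * m')) * h + 3 * ε := by rw [hlZ]; ring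
      rw [e2]
      set z : ℤ := 3 * (2 * j + 1) - 4 * (2 ^ i' * m') with hz
      have hzodd : z ≠ 0 := by
        intro h0
        rw [hz] at h0
        have : (3:ℤ) * (2 * j + 1) = 4 * (2 ^ i' * m') := by linarith
        omega
      have hhZ : (0:ℤ) < h := by exact_mod_cast hh0
      rcases lt_or_gt_of_ne hzodd with hneg | hpos
      · have hz1 : z ≤ -1 := by omega
        have : z * h ≤ -1 * h := mul_le_mul_of_nonneg_right hz1 hhZ.le
        rw [← abs_neg]
        refine le_trans ?_ (le_abs_self _)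
        linarith
      · have hz1 : 1 ≤ z := by omega
        have : 1 * (h:ℤ) ≤ z * h := mul_le_mul_of_nonneg_right hz1 hhZ.le
        refine le_trans ?_ (le_abs_self _)
        linarith

/-- attaining zero -/
lemma attain_zero (hG : ∃ (g : G) (k : ℕ), Fintype.card G = 2 ^ k * addOrderOf g)
    {b : ℕ} (hbn : b ≤ Fintype.card G) :
    ∃ B : Finset G, B.card = b ∧ 0 ≤ dlS B := by
  by_cases h0 : b = 0
  · refine ⟨∅, by simp [h0], ?_⟩
    rw [dlS_eq_schur]; unfold schur; simp
  by_cases hbig : 3 * (Fintype.card G - b) ≤ Fintype.card G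
  · obtain ⟨B, hB1, hB2⟩ := attain_sf hG (dvd_refl (Fintype.card G)) hbig
    exact ⟨B, by omega, by rw [hB2]; positivity⟩
  rcases Nat.even_or_odd' b with ⟨j, hj | hj⟩
  · obtain ⟨j', rfl⟩ : ∃ j', j = j' + 1 := ⟨j - 1, by omega⟩
    obtain ⟨B, hB1, hB2⟩ := attain_C2 hG (h := 1) (j := j') (s := 1) (b := b) (one_dvd _)
      (by omega) le_rfl (Or.inl (by omega)) hbn
    exact ⟨B, hB1, by simpa using hB2⟩
  · obtain ⟨B, hB1, hB2⟩ := attain_C2 hG (h := 1) (j := j) (s := 0) (b := b) (one_dvd _)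
      (by omega) (by norm_num) (Or.inl (by omega)) hbn
    refine ⟨B, hB1, le_trans ?_ hB2⟩
    norm_num

/-- the bound is attained -/
theorem attain (hG : ∃ (g : G) (k : ℕ), Fintype.card G = 2 ^ k * addOrderOf g)
    {b : ℕ} (hbn : b ≤ Fintype.card G) :
    ∃ B : Finset G, B.card = b ∧ (Psi (Fintype.card G) b : ℤ) ≤ dlS B := by
  have hn : 0 < Fintype.card G := Fintype.card_pos
  have hne : (Fintype.card G).divisors.Nonempty := ⟨1, by simp⟩
  obtain ⟨h, hh, hsup⟩ := Finset.exists_mem_eq_sup _ hne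
    (fun h => psi (Fintype.card G) h b)
  have hhd : h ∣ Fintype.card G := Nat.dvd_of_mem_divisors hh
  have hh0 : 0 < h := Nat.pos_of_dvd_of_pos hhd hn
  have hPsi : Psi (Fintype.card G) b = psi (Fintype.card G) h b := hsup
  rw [hPsi]
  set n := Fintype.card G with hnd
  -- unpack
  set j := b / (2 * h) with hj
  set r := b % (2 * h) with hr
  have hrb : 2 * h * j + r = b := Nat.div_add_mod b (2 * h)
  have hrlt : r < 2 * h := Nat.mod_lt _ (by omega)
  obtain ⟨s, hs⟩ : ∃ s, s = (if r ≤ h then h - r else r - h) := ⟨_, rfl⟩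
  have hpsi : psi n h b = if (3 * s ≤ h ∧ r ≤ h ∧ j = 0) ∨
      (3 * s ≤ h ∧ h ≤ r ∧ (3 * j + 2) ∣ n / h) then (h - 3 * s) ^ 2
      else if 3 * j + 2 ≤ n / h ∧ 5 * s ≤ h then (h - s) * (h - 5 * s) else 0 := by
    rw [hs]; rfl
  rw [hpsi]
  split_ifs with hc1 hc2
  · rcases hc1 with ⟨h3, hrh, hj0⟩ | ⟨h3, hrh, hdd⟩
    · rw [if_pos hrh] at hs
      rw [hj0] at hrb
      obtain ⟨B, hB1, hB2⟩ := attain_sf hG hhd h3
      refine ⟨B, by omega, ?_⟩
      rw [hB2]; push_cast [Nat.cast_sub h3]; exact le_rfl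
    · have hs' : s = r - h := by
        rw [hs]; split_ifs with h4
        · omega
        · rfl
      have hdd' : (3 * j + 2) * h ∣ n := by
        obtain ⟨c, hc⟩ := hdd
        obtain ⟨q, hq⟩ := hhd
        rw [hq, Nat.mul_div_cancel_left _ hh0] at hc
        exact ⟨c, by rw [hq, hc]; ring⟩
      obtain ⟨B, hB1, hB2⟩ := attain_A1 hG h3 hdd'
      refine ⟨B, ?_, ?_⟩
      · rw [hB1, ← hrb, hs']
        have : (2 * j + 1) * h = 2 * h * j + h := by ring
        omega
      · rw [hB2]; push_cast [Nat.cast_sub h3]; exact le_rfl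
  · obtain ⟨hjq, h5⟩ := hc2
    have hjn : (3 * j + 2) * h ≤ n := (Nat.le_div_iff_mul_le hh0).mp hjq
    have hsh : s ≤ h := by omega
    have hbs : b = (2 * j + 1) * h + s ∨ (b + s = (2 * j + 1) * h ∧ 1 ≤ j ∧ 3 * s ≤ h) := by
      have e : (2 * j + 1) * h = 2 * h * j + h := by ring
      by_cases hrh : r < h
      · right
        rw [if_pos hrh.le] at hs
        refine ⟨by omega, ?_, by omega⟩
        by_contra hj0
        apply hc1
        left
        exact ⟨by omega, hrh.le, by omega⟩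
      · left
        have hs' : s = r - h := by
          rw [hs]; split_ifs with h4
          · omega
          · rfl
        omega
    obtain ⟨B, hB1, hB2⟩ := attain_C2 hG hhd hjn hsh hbs hbn
    refine ⟨B, hB1, le_trans (le_of_eq ?_) hB2⟩
    push_cast [Nat.cast_sub h5, Nat.cast_sub hsh]; rfl
  · obtain ⟨B, hB1, hB2⟩ := attain_zero hG hbn
    exact ⟨B, hB1, by simpa using hB2⟩

/-- The exact value of `P(G,m)`. -/
theorem exact_value (hG : ∃ (g : G) (k : ℕ), Fintype.card G = 2 ^ k * addOrderOf g)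
    {m : ℕ} (hm : m ≤ Fintype.card G) :
    4 * (minSchur G m : ℤ) + Psi (Fintype.card G) (Fintype.card G - m) =
      (3 * (m:ℤ) - Fintype.card G)^2 := by
  apply le_antisymm
  · obtain ⟨B, hB1, hB2⟩ := attain hG (b := Fintype.card G - m) (by omega)
    have h1 := schur_compl B
    have hc : (Bᶜ).card = m := by rw [Finset.card_compl, hB1]; omega
    rw [hc] at h1
    have h2 : (minSchur G m : ℤ) ≤ schur Bᶜ := by exact_mod_cast minSchur_le Bᶜ hc
    linarith
  · obtain ⟨A, hA1, hA2⟩ := minSchur_spec G hm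
    have := lower_bound A
    rw [hA1, hA2] at this
    exact this

end

end Pool.Agent.Lib_helper42.RS
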